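import Mathlib

set_option autoImplicit false

/-!
# Short polynomials which are small at `β` and have small correlations with given sequences
-/

namespace Pool.Agent.H417_rb

open Finset Real

/-- the coefficient `-1, 0, 1` -/
def sg (c : Fin 3) : ℤ := (c : ℤ) - 1

lemma sum_fin3 (y : ℝ) : ∑ c : Fin 3, exp (y * sg c) ≤ 3 * exp (y ^ 2 / 2) := by
  rw [Fin.sum_univ_three]
  have e0 : (sg 0 : ℝ) = -1 := by simp [sg]
  have e1 : (sg 1 : ℝ) = 0 := by simp [sg]
  have e2 : (sg 2 : ℝ) = 1 := by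
    have : sg 2 = 1 := by decide
    rw [this]; simp
  rw [e0, e1, e2]
  have h1 := Real.cosh_le_exp_half_sq y
  have h2 : (1:ℝ) ≤ Real.cosh y := Real.one_le_cosh y
  have h3 : Real.cosh y = (exp y + exp (-y)) / 2 := Real.cosh_eq y
  simp only [mul_neg, mul_one, mul_zero, exp_zero]
  linarith

lemma mgf {J : ℕ} (a : Fin J → ℝ) (l : ℝ) :
    ∑ P : Fin J → Fin 3, exp (l * ∑ j, (sg (P j) : ℝ) * a j) ≤
      3 ^ J * exp (l ^ 2 * (∑ j, a j ^ 2) / 2) := by
  have h1 : ∀ P : Fin J → Fin 3, exp (l * ∑ j, (sg (P j) : ℝ) * a j) =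
      ∏ j, exp ((l * a j) * sg (P j)) := by
    intro P
    rw [← Real.exp_sum, Finset.mul_sum]
    congr 1
    apply Finset.sum_congr rfl
    intro j _
    ring
  simp_rw [h1]
  have h2 := Finset.prod_univ_sum (fun _ : Fin J => (Finset.univ : Finset (Fin 3)))
    (fun j c => exp ((l * a j) * sg c))
  rw [Fintype.piFinset_univ] at h2
  rw [← h2]
  calc ∏ j, ∑ c : Fin 3, exp ((l * a j) * sg c)
      ≤ ∏ j : Fin J, (3 * exp ((l * a j) ^ 2 / 2)) := by
        apply Finset.prod_le_prod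
        · intro j _; positivity
        · intro j _; exact sum_fin3 _
    _ = 3 ^ J * exp (l ^ 2 * (∑ j, a j ^ 2) / 2) := by
        rw [Finset.prod_mul_distrib, Finset.prod_const, Finset.card_univ, Fintype.card_fin,
          ← Real.exp_sum]
        congr 2
        rw [Finset.mul_sum, Finset.sum_div]
        apply Finset.sum_congr rfl
        intro j _
        ring

lemma tail_one {J : ℕ} (hJ : 1 ≤ J) (a : Fin J → ℝ) {A t : ℝ} (hA : 0 < A) (ht : 0 < t)
    (ha : ∀ j, |a j| ≤ A) :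
    ((Finset.univ.filter (fun P : Fin J → Fin 3 => t ≤ ∑ j, (sg (P j) : ℝ) * a j)).card : ℝ) ≤
      3 ^ J * exp (- (t ^ 2 / (2 * J * A ^ 2))) := by
  have hJ0 : (0:ℝ) < J := by exact_mod_cast hJ
  set l := t / (J * A ^ 2) with hl
  have hl0 : 0 < l := by positivity
  have h1 := mgf a l
  have h2 : ((Finset.univ.filter (fun P : Fin J → Fin 3 => t ≤ ∑ j, (sg (P j) : ℝ) * a j)).card : ℝ)
      * exp (l * t) ≤ ∑ P : Fin J → Fin 3, exp (l * ∑ j, (sg (P j) : ℝ) * a j) := by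
    calc _ = ∑ P ∈ Finset.univ.filter (fun P : Fin J → Fin 3 => t ≤ ∑ j, (sg (P j) : ℝ) * a j),
          exp (l * t) := by rw [Finset.sum_const, nsmul_eq_mul]
      _ ≤ ∑ P ∈ Finset.univ.filter (fun P : Fin J → Fin 3 => t ≤ ∑ j, (sg (P j) : ℝ) * a j),
          exp (l * ∑ j, (sg (P j) : ℝ) * a j) := by
          apply Finset.sum_le_sum
          intro P hP
          have := (Finset.mem_filter.mp hP).2
          apply exp_le_exp.mpr
          exact mul_le_mul_of_nonneg_left this hl0.le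
      _ ≤ _ := by
          apply Finset.sum_le_sum_of_subset_of_nonneg (Finset.filter_subset _ _)
          intro P _ _
          positivity
  have h3 : ∑ j, a j ^ 2 ≤ J * A ^ 2 := by
    calc ∑ j, a j ^ 2 ≤ ∑ j : Fin J, A ^ 2 := by
          apply Finset.sum_le_sum
          intro j _
          rw [← sq_abs]
          exact pow_le_pow_left₀ (abs_nonneg _) (ha j) 2
      _ = J * A ^ 2 := by rw [Finset.sum_const, Finset.card_univ, Fintype.card_fin, nsmul_eq_mul]
  have h4 : l ^ 2 * (∑ j, a j ^ 2) / 2 ≤ l ^ 2 * (J * A ^ 2) / 2 := by gcongr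
  have h5 : ((Finset.univ.filter (fun P : Fin J → Fin 3 => t ≤ ∑ j, (sg (P j) : ℝ) * a j)).card : ℝ)
      * exp (l * t) ≤ 3 ^ J * exp (l ^ 2 * (J * A ^ 2) / 2) := by
    refine h2.trans (h1.trans ?_)
    gcongr
  have h6 : exp (l ^ 2 * (J * A ^ 2) / 2) = exp (- (t ^ 2 / (2 * J * A ^ 2))) * exp (l * t) := by
    rw [← Real.exp_add]
    congr 1
    rw [hl]
    field_simp
    ring
  rw [h6, ← mul_assoc] at h5
  exact le_of_mul_le_mul_right h5 (exp_pos _)

lemma tail_two {J : ℕ} (hJ : 1 ≤ J) (a : Fin J → ℝ) {A t : ℝ} (hA : 0 < A) (ht : 0 < t)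
    (ha : ∀ j, |a j| ≤ A) :
    ((Finset.univ.filter (fun P : Fin J → Fin 3 => t ≤ |∑ j, (sg (P j) : ℝ) * a j|)).card : ℝ) ≤
      2 * (3 ^ J * exp (- (t ^ 2 / (2 * J * A ^ 2)))) := by
  have h1 := tail_one hJ a hA ht ha
  have h2 := tail_one hJ (fun j => - a j) hA ht (fun j => by rw [abs_neg]; exact ha j)
  have h3 : (Finset.univ.filter (fun P : Fin J → Fin 3 => t ≤ |∑ j, (sg (P j) : ℝ) * a j|)) ⊆
      (Finset.univ.filter (fun P : Fin J → Fin 3 => t ≤ ∑ j, (sg (P j) : ℝ) * a j)) ∪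
      (Finset.univ.filter (fun P : Fin J → Fin 3 => t ≤ ∑ j, (sg (P j) : ℝ) * (- a j))) := by
    intro P hP
    simp only [Finset.mem_filter, Finset.mem_univ, true_and, Finset.mem_union] at hP ⊢
    rcases le_abs.mp hP with h | h
    · exact Or.inl h
    · right
      simpa [Finset.sum_neg_distrib, mul_neg] using h
  have h4 := (Finset.card_le_card h3).trans (Finset.card_union_le _ _)
  have h5 : ((Finset.univ.filter (fun P : Fin J → Fin 3 => t ≤ |∑ j, (sg (P j) : ℝ) * a j|)).card : ℝ)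
    ≤ ((Finset.univ.filter (fun P : Fin J → Fin 3 => t ≤ ∑ j, (sg (P j) : ℝ) * a j)).card : ℝ) +
      ((Finset.univ.filter (fun P : Fin J → Fin 3 => t ≤ ∑ j, (sg (P j) : ℝ) * (- a j))).card : ℝ) := by
    exact_mod_cast h4
  linarith

/-- Pigeonhole: a nonzero polynomial with coefficients in `{-2, …, 2}`, small at `β`, with small
correlations with the sequences `a k`, `k ≤ K`. -/
theorem exists_poly {J K : ℕ} (hJ : 1 ≤ J) {β : ℝ} (hβ : 1 < β) (a : ℕ → Fin J → ℝ)
    (A t : ℕ → ℝ) (hA : ∀ k ≤ K, 0 < A k) (ht : ∀ k ≤ K, 0 < t k) (ha : ∀ k ≤ K, ∀ j, |a k j| ≤ A k)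
    {E : ℝ} (hE : ∀ k ≤ K, E ≤ (t k) ^ 2 / (2 * J * (A k) ^ 2))
    (hbig : 4 * ((K:ℝ) + 1) ≤ exp E) :
    ∃ Q : Fin J → ℤ, Q ≠ 0 ∧ (∀ j, |Q j| ≤ 2) ∧
      (∀ k ≤ K, |∑ j, (Q j : ℝ) * a k j| < 2 * t k) ∧
      |∑ j, (Q j : ℝ) * β ^ (j:ℕ)| < 8 / (β - 1) * (β / 3) ^ J := by
  classical
  -- the good set
  set bad := (Finset.range (K+1)).biUnion (fun k =>
    (Finset.univ.filter (fun P : Fin J → Fin 3 => t k ≤ |∑ j, (sg (P j) : ℝ) * a k j|))) with hbad
  have hbadcard : (bad.card : ℝ) ≤ 3 ^ J / 2 := by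
    have h1 : (bad.card : ℝ) ≤ ∑ k ∈ Finset.range (K+1),
        ((Finset.univ.filter (fun P : Fin J → Fin 3 => t k ≤ |∑ j, (sg (P j) : ℝ) * a k j|)).card : ℝ) := by
      exact_mod_cast Finset.card_biUnion_le
    have h2 : ∀ k ∈ Finset.range (K+1),
        ((Finset.univ.filter (fun P : Fin J → Fin 3 => t k ≤ |∑ j, (sg (P j) : ℝ) * a k j|)).card : ℝ) ≤
        2 * (3 ^ J * exp (- E)) := by
      intro k hk
      have hk' : k ≤ K := Nat.lt_succ_iff.mp (Finset.mem_range.mp hk)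
      refine (tail_two hJ (a k) (hA k hk') (ht k hk') (ha k hk')).trans ?_
      have := hE k hk'
      gcongr
    have h3 := h1.trans (Finset.sum_le_sum h2)
    rw [Finset.sum_const, Finset.card_range, nsmul_eq_mul] at h3
    have h4 : exp (-E) * exp E = 1 := by rw [← Real.exp_add]; simp
    have h5 : 4 * ((K:ℝ) + 1) * exp (-E) ≤ 1 := by
      calc 4 * ((K:ℝ) + 1) * exp (-E) ≤ exp E * exp (-E) := by gcongr
        _ = 1 := by rw [mul_comm]; exact h4
    have h6 : (0:ℝ) < 3 ^ J := by positivity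
    push_cast at h3
    nlinarith
  set good := (Finset.univ \ bad : Finset (Fin J → Fin 3)) with hgood
  have hgoodcard : (3:ℝ) ^ J / 2 ≤ good.card := by
    have h1 : good.card + bad.card = 3 ^ J := by
      rw [hgood, Finset.card_sdiff_add_card_eq_card (Finset.subset_univ _), Finset.card_univ]
      simp
    have h2 : (good.card : ℝ) + bad.card = 3 ^ J := by exact_mod_cast h1
    linarith
  have hgoodspec : ∀ P ∈ good, ∀ k ≤ K, |∑ j, (sg (P j) : ℝ) * a k j| < t k := by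
    intro P hP k hk
    by_contra hcon
    push Not at hcon
    have h1 : P ∈ bad := by
      rw [hbad, Finset.mem_biUnion]
      exact ⟨k, Finset.mem_range.mpr (by omega), Finset.mem_filter.mpr ⟨Finset.mem_univ _, hcon⟩⟩
    exact (Finset.mem_sdiff.mp hP).2 h1
  -- values
  set V := ∑ j ∈ Finset.range J, β ^ j with hV
  have hV1 : 1 ≤ V := by
    have : β ^ 0 ≤ V := Finset.single_le_sum (f := fun j => β ^ j) (fun i _ => by positivity)
      (Finset.mem_range.mpr hJ)
    simpa using this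
  have hVle : V ≤ β ^ J / (β - 1) := by
    rw [hV, geom_sum_eq hβ.ne']
    gcongr
    · linarith
  set w := 8 * V / 3 ^ J with hw
  have hw0 : 0 < w := by positivity
  have hval : ∀ P : Fin J → Fin 3, |∑ j, (sg (P j) : ℝ) * β ^ (j:ℕ)| ≤ V := by
    intro P
    calc |∑ j, (sg (P j) : ℝ) * β ^ (j:ℕ)| ≤ ∑ j : Fin J, |(sg (P j) : ℝ) * β ^ (j:ℕ)| :=
          Finset.abs_sum_le_sum_abs _ _
      _ ≤ ∑ j : Fin J, β ^ (j:ℕ) := by
          apply Finset.sum_le_sum
          intro j _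
          rw [abs_mul, abs_of_pos (by positivity : 0 < β ^ (j:ℕ))]
          have : |(sg (P j) : ℝ)| ≤ 1 := by
            have h : ∀ c : Fin 3, |sg c| ≤ 1 := by decide
            exact_mod_cast h (P j)
          have h2 : 0 < β ^ (j:ℕ) := by positivity
          nlinarith
      _ = V := by rw [hV, Finset.sum_range]
  -- pigeonhole
  set box := fun P : Fin J → Fin 3 => ⌊(∑ j, (sg (P j) : ℝ) * β ^ (j:ℕ) + V) / w⌋₊ with hbox
  set nb := ⌊(3:ℝ) ^ J / 4⌋₊ with hnb
  have hmaps : ∀ P ∈ good, box P ∈ Finset.range (nb + 1) := by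
    intro P _
    rw [Finset.mem_range, Nat.lt_succ_iff, hbox, hnb]
    apply Nat.floor_le_floor
    have h1 := (abs_le.mp (hval P)).2
    rw [div_le_iff₀ hw0, hw]
    have h3 : (0:ℝ) < 3 ^ J := by positivity
    have : (3:ℝ) ^ J / 4 * (8 * V / 3 ^ J) = 2 * V := by field_simp; ring
    rw [this]
    linarith
  have hcardlt : (Finset.range (nb + 1)).card < good.card := by
    rw [Finset.card_range]
    rcases Nat.lt_or_ge J 2 with h | h
    · have hJ1 : J = 1 := by omega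
      have h1 : nb = 0 := by
        rw [hnb, hJ1, Nat.floor_eq_zero]; norm_num
      rw [h1]
      have h0 : (3:ℝ) ^ J = 3 := by rw [hJ1]; norm_num
      have h3 : (1:ℝ) < good.card := by linarith
      exact_mod_cast h3
    · have h1 : (nb : ℝ) ≤ 3 ^ J / 4 := Nat.floor_le (by positivity)
      have h2 : (9:ℝ) ≤ 3 ^ J := by
        calc (9:ℝ) = 3 ^ 2 := by norm_num
          _ ≤ 3 ^ J := pow_le_pow_right₀ (by norm_num) h
      have h3 : ((nb + 1 : ℕ) : ℝ) < good.card := by push_cast; linarith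
      exact_mod_cast h3
  obtain ⟨P, hP, P', hP', hne, heq⟩ := Finset.exists_ne_map_eq_of_card_lt_of_maps_to hcardlt hmaps
  refine ⟨fun j => sg (P j) - sg (P' j), ?_, ?_, ?_, ?_⟩
  · intro h
    apply hne
    funext j
    have h1 := congrFun h j
    simp only [Pi.zero_apply, sg] at h1
    apply Fin.ext
    omega
  · intro j
    have h : ∀ c c' : Fin 3, |sg c - sg c'| ≤ 2 := by decide
    exact h _ _
  · intro k hk
    have h1 := hgoodspec P hP k hk
    have h2 := hgoodspec P' hP' k hk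
    have h3 : ∑ j, ((sg (P j) - sg (P' j) : ℤ) : ℝ) * a k j =
        ∑ j, (sg (P j) : ℝ) * a k j - ∑ j, (sg (P' j) : ℝ) * a k j := by
      rw [← Finset.sum_sub_distrib]
      apply Finset.sum_congr rfl
      intro j _
      push_cast; ring
    rw [h3]
    rw [abs_lt] at h1 h2 ⊢
    constructor <;> linarith
  · have h3 : ∑ j, ((sg (P j) - sg (P' j) : ℤ) : ℝ) * β ^ (j:ℕ) =
        ∑ j, (sg (P j) : ℝ) * β ^ (j:ℕ) - ∑ j, (sg (P' j) : ℝ) * β ^ (j:ℕ) := by
      rw [← Finset.sum_sub_distrib]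
      apply Finset.sum_congr rfl
      intro j _
      push_cast; ring
    rw [h3]
    set X := ∑ j, (sg (P j) : ℝ) * β ^ (j:ℕ)
    set X' := ∑ j, (sg (P' j) : ℝ) * β ^ (j:ℕ)
    have hX := (abs_le.mp (hval P)).1
    have hX' := (abs_le.mp (hval P')).1
    have e1 : ⌊(X + V) / w⌋₊ = ⌊(X' + V) / w⌋₊ := heq
    have f1 : ((⌊(X + V) / w⌋₊ : ℕ) : ℝ) ≤ (X + V) / w := Nat.floor_le (div_nonneg (by linarith) hw0.le)
    have f2 := Nat.lt_floor_add_one ((X + V) / w)
    have f3 : ((⌊(X' + V) / w⌋₊ : ℕ) : ℝ) ≤ (X' + V) / w := Nat.floor_le (div_nonneg (by linarith) hw0.le)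
    have f4 := Nat.lt_floor_add_one ((X' + V) / w)
    rw [e1] at f1 f2
    have g1 : |(X + V) / w - (X' + V) / w| < 1 := by
      rw [abs_lt]; constructor <;> linarith
    have g2 : |X - X'| < w := by
      have : (X + V) / w - (X' + V) / w = (X - X') / w := by ring
      rw [this, abs_div, abs_of_pos hw0, div_lt_one hw0] at g1
      exact g1
    refine g2.trans_le ?_
    rw [hw, div_pow]
    have h5 : (0:ℝ) < 3 ^ J := by positivity
    have h6 : 0 < β - 1 := by linarith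
    calc 8 * V / 3 ^ J ≤ 8 * (β ^ J / (β - 1)) / 3 ^ J := by gcongr
      _ = 8 / (β - 1) * (β ^ J / 3 ^ J) := by field_simp

end Pool.Agent.H417_rb
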