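import Pool.Agent.H417_rb.AuxPoly

set_option autoImplicit false

/-!
# Short polynomials which are small at `β`, with one more value controlled by the pigeonhole
-/

namespace Pool.Agent.H417_rb

open Finset Real

/-- Pigeonhole: a nonzero polynomial with coefficients in `{-2, …, 2}`, small at `β`, with small
correlations with the sequences `a k`, `k < K`, and with a bounded value on one further sequence. -/
theorem exists_poly_two {J K : ℕ} (hJ : 1 ≤ J) {β : ℝ} (hβ : 1 < β) (a : ℕ → Fin J → ℝ)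
    {A t : ℝ} (hA : 0 < A) (ht : 0 < t) (ha : ∀ k < K, ∀ j, |a k j| ≤ A)
    {E : ℝ} (hE : E ≤ t ^ 2 / (2 * J * A ^ 2))
    (hbig : 4 * (K:ℝ) ≤ exp E) (s : Fin J → ℝ) {S : ℝ} (hS : 0 ≤ S) (hs : ∀ j, |s j| ≤ S)
    (hSJ : 4 * (4 * J * S + 1) < 3 ^ J) :
    ∃ Q : Fin J → ℤ, Q ≠ 0 ∧ (∀ j, |Q j| ≤ 2) ∧
      (∀ k < K, |∑ j, (Q j : ℝ) * a k j| < 2 * t) ∧
      |∑ j, (Q j : ℝ) * s j| < 1 / 2 ∧
      |∑ j, (Q j : ℝ) * β ^ (j:ℕ)| < 8 * (4 * J * S + 1) / (β - 1) * (β / 3) ^ J := by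
  classical
  -- the good set
  set bad := (Finset.range K).biUnion (fun k =>
    (Finset.univ.filter (fun P : Fin J → Fin 3 => t ≤ |∑ j, (sg (P j) : ℝ) * a k j|))) with hbad
  have hbadcard : (bad.card : ℝ) ≤ 3 ^ J / 2 := by
    have h1 : (bad.card : ℝ) ≤ ∑ k ∈ Finset.range K,
        ((Finset.univ.filter (fun P : Fin J → Fin 3 => t ≤ |∑ j, (sg (P j) : ℝ) * a k j|)).card : ℝ) := by
      exact_mod_cast Finset.card_biUnion_le
    have h2 : ∀ k ∈ Finset.range K,
        ((Finset.univ.filter (fun P : Fin J → Fin 3 => t ≤ |∑ j, (sg (P j) : ℝ) * a k j|)).card : ℝ) ≤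
        2 * (3 ^ J * exp (- E)) := by
      intro k hk
      have hk' : k < K := Finset.mem_range.mp hk
      refine (tail_two hJ (a k) hA ht (ha k hk')).trans ?_
      gcongr
    have h3 := h1.trans (Finset.sum_le_sum h2)
    rw [Finset.sum_const, Finset.card_range, nsmul_eq_mul] at h3
    have h4 : exp (-E) * exp E = 1 := by rw [← Real.exp_add]; simp
    have h5 : 4 * (K:ℝ) * exp (-E) ≤ 1 := by
      calc 4 * (K:ℝ) * exp (-E) ≤ exp E * exp (-E) := by gcongr
        _ = 1 := by rw [mul_comm]; exact h4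
    have h6 : (0:ℝ) < 3 ^ J := by positivity
    nlinarith
  set good := (Finset.univ \ bad : Finset (Fin J → Fin 3)) with hgood
  have hgoodcard : (3:ℝ) ^ J / 2 ≤ good.card := by
    have h1 : good.card + bad.card = 3 ^ J := by
      rw [hgood, Finset.card_sdiff_add_card_eq_card (Finset.subset_univ _), Finset.card_univ]
      simp
    have h2 : (good.card : ℝ) + bad.card = 3 ^ J := by exact_mod_cast h1
    linarith
  have hgoodspec : ∀ P ∈ good, ∀ k < K, |∑ j, (sg (P j) : ℝ) * a k j| < t := by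
    intro P hP k hk
    by_contra hcon
    push Not at hcon
    have h1 : P ∈ bad := by
      rw [hbad, Finset.mem_biUnion]
      exact ⟨k, Finset.mem_range.mpr hk, Finset.mem_filter.mpr ⟨Finset.mem_univ _, hcon⟩⟩
    exact (Finset.mem_sdiff.mp hP).2 h1
  -- values
  set V := ∑ j ∈ Finset.range J, β ^ j with hV
  have hV1 : 1 ≤ V := by
    have : β ^ 0 ≤ V := Finset.single_le_sum (f := fun j => β ^ j) (fun i _ => by positivity)
      (Finset.mem_range.mpr hJ)
    simpa using this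
  have hVle : V ≤ β ^ J / (β - 1) := by
    rw [hV, geom_sum_eq hβ.ne']
    gcongr
    · linarith
  set B := 4 * J * S + 1 with hB
  have hB1 : 1 ≤ B := by rw [hB]; have : 0 ≤ 4 * (J:ℝ) * S := by positivity
                         linarith
  set w := 8 * V * B / 3 ^ J with hw
  have hw0 : 0 < w := by positivity
  have hsgle : ∀ c : Fin 3, |(sg c : ℝ)| ≤ 1 := by
    intro c
    have h : ∀ c : Fin 3, |sg c| ≤ 1 := by decide
    exact_mod_cast h c
  have hval : ∀ P : Fin J → Fin 3, |∑ j, (sg (P j) : ℝ) * β ^ (j:ℕ)| ≤ V := by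
    intro P
    calc |∑ j, (sg (P j) : ℝ) * β ^ (j:ℕ)| ≤ ∑ j : Fin J, |(sg (P j) : ℝ) * β ^ (j:ℕ)| :=
          Finset.abs_sum_le_sum_abs _ _
      _ ≤ ∑ j : Fin J, β ^ (j:ℕ) := by
          apply Finset.sum_le_sum
          intro j _
          rw [abs_mul, abs_of_pos (by positivity : 0 < β ^ (j:ℕ))]
          have := hsgle (P j)
          have h2 : 0 < β ^ (j:ℕ) := by positivity
          nlinarith
      _ = V := by rw [hV, Finset.sum_range]
  have hval2 : ∀ P : Fin J → Fin 3, |∑ j, (sg (P j) : ℝ) * s j| ≤ J * S := by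
    intro P
    calc |∑ j, (sg (P j) : ℝ) * s j| ≤ ∑ j : Fin J, |(sg (P j) : ℝ) * s j| :=
          Finset.abs_sum_le_sum_abs _ _
      _ ≤ ∑ j : Fin J, S := by
          apply Finset.sum_le_sum
          intro j _
          rw [abs_mul]
          have h1 := hsgle (P j)
          have h2 := hs j
          have h3 : 0 ≤ |s j| := abs_nonneg _
          nlinarith
      _ = J * S := by rw [Finset.sum_const, Finset.card_univ, Fintype.card_fin, nsmul_eq_mul]
  -- pigeonhole
  set box := fun P : Fin J → Fin 3 => (⌊(∑ j, (sg (P j) : ℝ) * β ^ (j:ℕ) + V) / w⌋₊,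
    ⌊(∑ j, (sg (P j) : ℝ) * s j + J * S) * 2⌋₊) with hbox
  set nb := ⌊(3:ℝ) ^ J / (4 * B)⌋₊ with hnb
  set nc := ⌊4 * (J:ℝ) * S⌋₊ with hnc
  have hmaps : ∀ P ∈ good, box P ∈ Finset.range (nb + 1) ×ˢ Finset.range (nc + 1) := by
    intro P _
    rw [Finset.mem_product]
    constructor
    · rw [Finset.mem_range, Nat.lt_succ_iff, hbox, hnb]
      apply Nat.floor_le_floor
      have h1 := (abs_le.mp (hval P)).2
      rw [div_le_iff₀ hw0, hw]
      have h3 : (0:ℝ) < 3 ^ J := by positivity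
      have : (3:ℝ) ^ J / (4 * B) * (8 * V * B / 3 ^ J) = 2 * V := by field_simp; ring
      rw [this]
      linarith
    · rw [Finset.mem_range, Nat.lt_succ_iff, hbox, hnc]
      apply Nat.floor_le_floor
      have h1 := (abs_le.mp (hval2 P)).2
      linarith
  have hcardlt : (Finset.range (nb + 1) ×ˢ Finset.range (nc + 1)).card < good.card := by
    rw [Finset.card_product, Finset.card_range, Finset.card_range]
    have h1 : (nb : ℝ) ≤ 3 ^ J / (4 * B) := Nat.floor_le (by positivity)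
    have h2 : (nc : ℝ) + 1 ≤ B := by
      have : (nc : ℝ) ≤ 4 * (J:ℝ) * S := Nat.floor_le (by positivity)
      rw [hB]; linarith
    have h3 : (((nb + 1) * (nc + 1) : ℕ) : ℝ) < good.card := by
      push_cast
      calc ((nb:ℝ) + 1) * ((nc:ℝ) + 1) ≤ (3 ^ J / (4 * B) + 1) * B := by gcongr
        _ = 3 ^ J / 4 + B := by field_simp
        _ < 3 ^ J / 2 := by linarith
        _ ≤ good.card := hgoodcard
    exact_mod_cast h3
  obtain ⟨P, hP, P', hP', hne, heq⟩ := Finset.exists_ne_map_eq_of_card_lt_of_maps_to hcardlt hmaps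
  have heq1 : ⌊(∑ j, (sg (P j) : ℝ) * β ^ (j:ℕ) + V) / w⌋₊ = ⌊(∑ j, (sg (P' j) : ℝ) * β ^ (j:ℕ) + V) / w⌋₊ :=
    congrArg Prod.fst heq
  have heq2 : ⌊(∑ j, (sg (P j) : ℝ) * s j + J * S) * 2⌋₊ = ⌊(∑ j, (sg (P' j) : ℝ) * s j + J * S) * 2⌋₊ :=
    congrArg Prod.snd heq
  have hfloor : ∀ a b : ℝ, 0 ≤ a → 0 ≤ b → ⌊a⌋₊ = ⌊b⌋₊ → |a - b| < 1 := by
    intro a b ha hb h
    have f1 : ((⌊a⌋₊ : ℕ) : ℝ) ≤ a := Nat.floor_le ha
    have f2 := Nat.lt_floor_add_one a
    have f3 : ((⌊b⌋₊ : ℕ) : ℝ) ≤ b := Nat.floor_le hb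
    have f4 := Nat.lt_floor_add_one b
    rw [h] at f1 f2
    rw [abs_lt]; constructor <;> linarith
  have hsub : ∀ c : Fin J → ℝ, ∑ j, ((sg (P j) - sg (P' j) : ℤ) : ℝ) * c j =
        ∑ j, (sg (P j) : ℝ) * c j - ∑ j, (sg (P' j) : ℝ) * c j := by
    intro c
    rw [← Finset.sum_sub_distrib]
    apply Finset.sum_congr rfl
    intro j _
    push_cast; ring
  refine ⟨fun j => sg (P j) - sg (P' j), ?_, ?_, ?_, ?_, ?_⟩
  · intro h
    apply hne
    funext j
    have h1 := congrFun h j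
    simp only [Pi.zero_apply, sg] at h1
    apply Fin.ext
    omega
  · intro j
    have h : ∀ c c' : Fin 3, |sg c - sg c'| ≤ 2 := by decide
    exact h _ _
  · intro k hk
    have h1 := hgoodspec P hP k hk
    have h2 := hgoodspec P' hP' k hk
    rw [hsub (a k)]
    rw [abs_lt] at h1 h2 ⊢
    constructor <;> linarith
  · rw [hsub s]
    have g1 := hfloor _ _ (by have := (abs_le.mp (hval2 P)).1; linarith)
      (by have := (abs_le.mp (hval2 P')).1; linarith) heq2
    rw [abs_lt] at g1 ⊢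
    constructor <;> linarith
  · rw [hsub (fun j => β ^ (j:ℕ))]
    set X := ∑ j, (sg (P j) : ℝ) * β ^ (j:ℕ)
    set X' := ∑ j, (sg (P' j) : ℝ) * β ^ (j:ℕ)
    have hX := (abs_le.mp (hval P)).1
    have hX' := (abs_le.mp (hval P')).1
    have g1 := hfloor _ _ (div_nonneg (by linarith : 0 ≤ X + V) hw0.le)
      (div_nonneg (by linarith : 0 ≤ X' + V) hw0.le) heq1
    have g2 : |X - X'| < w := by
      have : (X + V) / w - (X' + V) / w = (X - X') / w := by ring
      rw [this, abs_div, abs_of_pos hw0, div_lt_one hw0] at g1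
      exact g1
    refine g2.trans_le ?_
    rw [hw, div_pow]
    have h5 : (0:ℝ) < 3 ^ J := by positivity
    have h6 : 0 < β - 1 := by linarith
    calc 8 * V * B / 3 ^ J ≤ 8 * (β ^ J / (β - 1)) * B / 3 ^ J := by gcongr
      _ = 8 * B / (β - 1) * (β ^ J / 3 ^ J) := by field_simp

end Pool.Agent.H417_rb
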