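import Pool.Agent.H417_rb.Defs

set_option autoImplicit false

/-!
# Expansions of reals in a rational base: basic lemmas
-/

namespace Pool.Agent.H417_rb

open Filter Topology

section
variable {p q : ℕ}

lemma beta_gt_one (hq : 1 ≤ q) (hpq : q < p) : (1:ℝ) < (p:ℝ)/q := by
  have h1 : (0:ℝ) < q := by exact_mod_cast hq
  rw [lt_div_iff₀ h1, one_mul]
  exact_mod_cast hpq

/-- If the nodes at level `l` agree then the prefixes of length `l` agree. -/
lemma prefix_eq {u u' n n' : ℕ → ℕ} (hu : ∀ k, u k < p) (hu' : ∀ k, u' k < p)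
    (hn : NodesOf p q u n) (hn' : NodesOf p q u' n') :
    ∀ l, n l = n' l → ∀ i < l, u i = u' i := by
  intro l
  induction l with
  | zero => intro _ i hi; omega
  | succ l ih =>
    intro h i hi
    have e1 := hn.2 l
    have e2 := hn'.2 l
    rw [h, e2] at e1
    -- p * n' l + u' l = p * n l + u l
    have h3 : n l = n' l := by
      have a1 : (p * n' l + u' l) / p = n' l := by
        rw [Nat.mul_add_div (by have := hu 0; omega), Nat.div_eq_of_lt (hu' l)]; simp
      have a2 : (p * n l + u l) / p = n l := by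
        rw [Nat.mul_add_div (by have := hu 0; omega), Nat.div_eq_of_lt (hu l)]; simp
      rw [← a1, ← a2, e1]
    have h4 : u l = u' l := by
      rw [h3] at e1; omega
    rcases Nat.lt_succ_iff_lt_or_eq.mp hi with h5 | h5
    · exact ih h3 i h5
    · rw [h5]; exact h4

/-- Partial sums of the value. -/
lemma partial_sum (hq : 1 ≤ q) (hpq : q < p) {u n : ℕ → ℕ} (hn : NodesOf p q u n) (k : ℕ) :
    ∑ i ∈ Finset.range k, (u i : ℝ) / q * (((p : ℝ) / q) ^ (i + 1))⁻¹
      = (n k : ℝ) * (((p : ℝ) / q) ^ k)⁻¹ := by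
  have hq0 : (0:ℝ) < q := by exact_mod_cast hq
  have hp0 : (0:ℝ) < p := by exact_mod_cast (by omega : 0 < p)
  induction k with
  | zero => simp [hn.1]
  | succ k ih =>
    rw [Finset.sum_range_succ, ih]
    have e : (q:ℝ) * n (k+1) = p * n k + u k := by exact_mod_cast hn.2 k
    have e' : (n (k+1) : ℝ) = (p * n k + u k) / q := by
      rw [← e]; field_simp
    rw [e']
    have hb : ((p:ℝ)/q)^k ≠ 0 := by positivity
    rw [pow_succ]
    field_simp

lemma summable_val (hq : 1 ≤ q) (hpq : q < p) {u : ℕ → ℕ} (hu : ∀ k, u k < p) :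
    Summable (fun i : ℕ => (u i : ℝ) / q * (((p : ℝ) / q) ^ (i + 1))⁻¹) := by
  have hb := beta_gt_one hq hpq
  have hq0 : (0:ℝ) < q := by exact_mod_cast hq
  have hs : Summable (fun i : ℕ => (p : ℝ) / q * (((p : ℝ) / q)⁻¹ ^ i)) := by
    apply Summable.mul_left
    apply summable_geometric_of_lt_one (by positivity)
    exact inv_lt_one_of_one_lt₀ hb
  refine Summable.of_nonneg_of_le (fun i => by positivity) (fun i => ?_) hs
  have h1 : (u i : ℝ) ≤ p := by exact_mod_cast (hu i).le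
  have h2 : (((p : ℝ) / q) ^ (i + 1))⁻¹ ≤ ((p : ℝ) / q)⁻¹ ^ i := by
    rw [inv_pow]
    apply inv_anti₀ (by positivity)
    exact pow_le_pow_right₀ hb.le (Nat.le_succ i)
  gcongr

lemma node_le (hq : 1 ≤ q) (hpq : q < p) {u n : ℕ → ℕ} (hu : ∀ k, u k < p)
    (hn : NodesOf p q u n) (k : ℕ) : (n k : ℝ) ≤ ((p:ℝ)/q)^k * val p q u := by
  have hb := beta_gt_one hq hpq
  have h1 := (summable_val hq hpq hu).sum_le_tsum (Finset.range k) (fun i _ => by positivity)
  rw [partial_sum hq hpq hn] at h1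
  have hb' : 0 < ((p:ℝ)/q)^k := by positivity
  unfold val
  rw [← div_eq_mul_inv, div_le_iff₀ hb'] at h1
  linarith

/-- Upper bound for the value when the digits from `k` on are at most `M`. -/
lemma le_node (hq : 1 ≤ q) (hpq : q < p) {u n : ℕ → ℕ} (hu : ∀ k, u k < p)
    (hn : NodesOf p q u n) (k : ℕ) {M : ℝ} (hM : ∀ i ≥ k, (u i : ℝ) ≤ M) :
    ((p:ℝ)/q)^k * val p q u ≤ n k + M / ((p:ℝ) - q) := by
  have hb := beta_gt_one hq hpq
  have hq0 : (0:ℝ) < q := by exact_mod_cast hq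
  have hp0 : (0:ℝ) < p := by exact_mod_cast (by omega : 0 < p)
  have hr : (0:ℝ) < (p:ℝ) - q := by
    have : (q:ℝ) < p := by exact_mod_cast hpq
    linarith
  have hb' : 0 < ((p:ℝ)/q)^k := by positivity
  -- antitone upper sums
  have key : ∀ i, (n (k+i) : ℝ) * (((p : ℝ) / q) ^ (k+i))⁻¹ +
      M / ((p:ℝ) - q) * (((p : ℝ) / q) ^ (k+i))⁻¹ ≤
      (n k : ℝ) * (((p : ℝ) / q) ^ k)⁻¹ + M / ((p:ℝ) - q) * (((p : ℝ) / q) ^ k)⁻¹ := by
    intro i
    induction i with
    | zero => simp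
    | succ i ih =>
      refine le_trans ?_ ih
      have e : (q:ℝ) * n (k+i+1) = p * n (k+i) + u (k+i) := by exact_mod_cast hn.2 (k+i)
      have e' : (n (k+i+1) : ℝ) = (p * n (k+i) + u (k+i)) / q := by
        rw [← e]; field_simp
      rw [← add_assoc, e', ← add_mul, ← add_mul]
      have hMi := hM (k+i) (by omega)
      have hpow : (((p : ℝ) / q) ^ (k+i+1))⁻¹ = (((p : ℝ) / q) ^ (k+i))⁻¹ * (q / p) := by
        rw [pow_succ, mul_inv, inv_div]
      rw [hpow]
      have hc : 0 < (((p : ℝ) / q) ^ (k+i))⁻¹ := by positivity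
      have : ((p * n (k+i) + u (k+i)) / q + M / ((p:ℝ) - q)) * (q/p) ≤ n (k+i) + M / ((p:ℝ) - q) := by
        have e3 : ((p * n (k+i) + u (k+i)) / q + M / ((p:ℝ) - q)) * (q/p)
            = n (k+i) + (u (k+i) + M * q / ((p:ℝ) - q)) / p := by
          field_simp
          ring
        rw [e3]
        have e4 : (u (k+i) + M * q / ((p:ℝ) - q)) / p ≤ M / ((p:ℝ) - q) := by
          rw [div_le_div_iff₀ hp0 hr]
          have : (u (k+i) + M * q / ((p:ℝ) - q)) * ((p:ℝ) - q) = u (k+i) * ((p:ℝ) - q) + M * q := by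
            field_simp
          rw [this]
          nlinarith
        linarith
      calc _ = (((p : ℝ) / q) ^ (k+i))⁻¹ * (((p * n (k+i) + u (k+i)) / q + M / ((p:ℝ) - q)) * (q/p)) := by ring
        _ ≤ (((p : ℝ) / q) ^ (k+i))⁻¹ * (n (k+i) + M / ((p:ℝ) - q)) := by gcongr
        _ = _ := by ring
  have hM0 : 0 ≤ M := le_trans (by positivity) (hM k le_rfl)
  have hlim : Tendsto (fun i => ∑ j ∈ Finset.range i, (u j : ℝ) / q * (((p : ℝ) / q) ^ (j + 1))⁻¹)
      atTop (𝓝 (val p q u)) := (summable_val hq hpq hu).hasSum.tendsto_sum_nat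
  have hle : val p q u ≤ (n k : ℝ) * (((p : ℝ) / q) ^ k)⁻¹ + M / ((p:ℝ) - q) * (((p : ℝ) / q) ^ k)⁻¹ := by
    refine le_of_tendsto hlim ?_
    filter_upwards [eventually_ge_atTop k] with i hi
    obtain ⟨j, rfl⟩ := Nat.exists_eq_add_of_le hi
    rw [partial_sum hq hpq hn]
    refine le_trans ?_ (key j)
    have : 0 ≤ M / ((p:ℝ) - q) * (((p : ℝ) / q) ^ (k+j))⁻¹ := by positivity
    linarith
  calc ((p:ℝ)/q)^k * val p q u ≤ ((p:ℝ)/q)^k * ((n k : ℝ) * (((p : ℝ) / q) ^ k)⁻¹ + M / ((p:ℝ) - q) * (((p : ℝ) / q) ^ k)⁻¹) := by gcongr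
    _ = n k + M / ((p:ℝ) - q) := by field_simp

lemma le_node' (hq : 1 ≤ q) (hpq : q < p) {u n : ℕ → ℕ} (hu : ∀ k, u k < p)
    (hn : NodesOf p q u n) (k : ℕ) :
    ((p:ℝ)/q)^k * val p q u ≤ n k + ((p:ℝ) - 1) / ((p:ℝ) - q) := by
  apply le_node hq hpq hu hn
  intro i _
  have := hu i
  have h2 : u i + 1 ≤ p := this
  have : ((u i : ℝ) + 1) ≤ p := by exact_mod_cast h2
  linarith

end

end Pool.Agent.H417_rb
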