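import Pool.Agent.H417_rb.Basic

set_option autoImplicit false

/-!
# The map `n ↦ ⌈p n / q⌉` and the number of descendants of a node
-/

namespace Pool.Agent.H417_rb

open Filter Topology Finset

/-- The smallest child `⌈p n / q⌉` of the node `n`. -/
def g (p q n : ℕ) : ℕ := (p * n + q - 1) / q

section
variable {p q : ℕ}

lemma g_lower (hq : 1 ≤ q) (n : ℕ) : p * n ≤ q * g p q n := by
  unfold g
  have h := Nat.div_add_mod (p * n + q - 1) q
  have h2 := Nat.mod_lt (p * n + q - 1) hq
  omega

lemma g_upper (hq : 1 ≤ q) (n : ℕ) : q * g p q n < p * n + q := by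
  unfold g
  have h := Nat.mul_div_le (p * n + q - 1) q
  omega

lemma g_le {m n : ℕ} (hq : 1 ≤ q) (h : p * n ≤ q * m) : g p q n ≤ m := by
  have := g_upper (p := p) hq n
  by_contra hc
  push Not at hc
  have h2 : q * (m + 1) ≤ q * g p q n := Nat.mul_le_mul_left q hc
  rw [mul_add] at h2
  omega

lemma lt_g {m n : ℕ} (hq : 1 ≤ q) (h : q * m < p * n) : m < g p q n := by
  have := g_lower (p := p) hq n
  have h2 : q * m < q * g p q n := by omega
  exact Nat.lt_of_mul_lt_mul_left h2

lemma g_eq {m n : ℕ} (hq : 1 ≤ q) (h1 : p * n ≤ q * m) (h2 : q * m < p * n + q) : g p q n = m := by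
  apply le_antisymm (g_le hq h1)
  by_contra hc
  push Not at hc
  have h3 : q * (g p q n + 1) ≤ q * m := Nat.mul_le_mul_left q hc
  rw [mul_add] at h3
  have := g_lower (p := p) hq n
  omega

lemma g_mono (hq : 1 ≤ q) {m n : ℕ} (h : m ≤ n) : g p q m ≤ g p q n := by
  apply g_le hq
  exact le_trans (Nat.mul_le_mul_left p h) (g_lower hq n)

lemma g_iter_mono (hq : 1 ≤ q) {m n : ℕ} (h : m ≤ n) (i : ℕ) : (g p q)^[i] m ≤ (g p q)^[i] n := by
  induction i with
  | zero => simpa
  | succ i ih => rw [Function.iterate_succ_apply', Function.iterate_succ_apply']; exact g_mono hq ih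

lemma g_iter_pos (hq : 1 ≤ q) (hp : 1 ≤ p) {n : ℕ} (h : 1 ≤ n) (i : ℕ) : 1 ≤ (g p q)^[i] n := by
  induction i with
  | zero => simpa
  | succ i ih =>
    rw [Function.iterate_succ_apply']
    have : 0 < g p q ((g p q)^[i] n) := lt_g hq (by nlinarith)
    exact this

lemma top_ge (hq : 1 ≤ q) {w : ℕ → ℕ} {a : ℕ} (h0 : a ≤ w 0) (h : ∀ i, p * w i ≤ q * w (i+1)) (i : ℕ) :
    (g p q)^[i] a ≤ w i := by
  induction i with
  | zero => simpa
  | succ i ih =>
    rw [Function.iterate_succ_apply']
    exact le_trans (g_mono hq ih) (g_le hq (h i))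

lemma bot_lt (hq : 1 ≤ q) {v : ℕ → ℕ} {a : ℕ} (h0 : v 0 < a)
    (h : ∀ i, q * v (i+1) < p * v i + p) (i : ℕ) :
    v i < (g p q)^[i] a := by
  induction i with
  | zero => simpa
  | succ i ih =>
    rw [Function.iterate_succ_apply']
    apply lt_g hq
    have h1 : p * (v i + 1) ≤ p * (g p q)^[i] a := Nat.mul_le_mul_left p ih
    have := h i
    rw [mul_add] at h1
    omega

/-- The recursive count of residues modulo `q ^ K`. -/
def F (p q D0 : ℕ) : ℕ → ℕ → ℕ
  | 0, D => if D ≤ D0 then 1 else 0
  | K + 1, D => if D ≤ D0 then (q - (p - q) * D) * F p q D0 K D + ((p - q) * D) * F p q D0 K (D + 1) else 0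

/-- digit of the smallest child -/
def dig (p q n : ℕ) : ℕ := q * g p q n - p * n

lemma dig_lt (hq : 1 ≤ q) (n : ℕ) : dig p q n < q := by
  unfold dig
  have := g_upper (p := p) hq n
  omega

lemma dig_spec (hq : 1 ≤ q) (n : ℕ) : q * g p q n = p * n + dig p q n := by
  unfold dig
  have := g_lower (p := p) hq n
  omega

lemma g_add_of_ge (hq : 1 ≤ q) (hpq : q < p) {n D : ℕ} (h : (p - q) * D ≤ dig p q n) :
    g p q (n + D) = g p q n + D := by
  have h1 := dig_spec (p := p) hq n
  have h2 := dig_lt (p := p) hq n
  have e : p * (n + D) = p * n + q * D + (p - q) * D := by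
    have : p = q + (p - q) := by omega
    calc p * (n + D) = p * n + p * D := by ring
      _ = p * n + (q + (p - q)) * D := by rw [← this]
      _ = _ := by ring
  apply g_eq hq
  · rw [mul_add q, h1, e]; omega
  · rw [mul_add q, h1, e]; omega

lemma g_add_of_lt (hq : 1 ≤ q) (hpq : q < p) {n D : ℕ} (h : dig p q n < (p - q) * D)
    (hD : (p - q) * D < q) :
    g p q (n + D) = g p q n + (D + 1) := by
  have h1 := dig_spec (p := p) hq n
  have h2 := dig_lt (p := p) hq n
  have e : p * (n + D) = p * n + q * D + (p - q) * D := by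
    have : p = q + (p - q) := by omega
    calc p * (n + D) = p * n + p * D := by ring
      _ = p * n + (q + (p - q)) * D := by rw [← this]
      _ = _ := by ring
  apply g_eq hq
  · rw [mul_add q, h1, e, mul_add q]; omega
  · rw [mul_add q, h1, e, mul_add q]; omega

lemma g_inj_on_dig (hq : 1 ≤ q) (hpq : q < p) {m n : ℕ} (h : dig p q m = dig p q n)
    (hg : g p q m = g p q n) : m = n := by
  have h1 := dig_spec (p := p) hq m
  have h2 := dig_spec (p := p) hq n
  rw [h, hg, h2] at h1
  have : p * n = p * m := by omega
  exact (Nat.eq_of_mul_eq_mul_left (by omega) this).symm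

lemma g_congr (hq : 1 ≤ q) (hc : p.Coprime q) {m n K : ℕ} (h : dig p q m = dig p q n)
    (hg : g p q m ≡ g p q n [MOD q ^ K]) : m ≡ n [MOD q ^ (K+1)] := by
  have h1 := dig_spec (p := p) hq m
  have h2 := dig_spec (p := p) hq n
  have h3 : q * g p q m ≡ q * g p q n [MOD q * q ^ K] := Nat.ModEq.mul_left' q hg
  rw [h1, h2, h] at h3
  have h4 : p * m ≡ p * n [MOD q * q ^ K] := Nat.ModEq.add_right_cancel' _ h3
  have h5 : q * q ^ K = q ^ (K+1) := by ring
  rw [h5] at h4
  exact Nat.ModEq.cancel_left_of_coprime (Nat.Coprime.pow_left (K+1) hc.symm) h4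

theorem card_le_F (hq : 1 ≤ q) (hpq : q < p) (hc : p.Coprime q) {D0 : ℕ} (hD0 : (p - q) * D0 < q) :
    ∀ (K D : ℕ) (S : Finset ℕ), (∀ m ∈ S, ∀ n ∈ S, m ≡ n [MOD q ^ K] → m = n) →
      (∀ n ∈ S, ∀ i, (g p q)^[i] (n + D) ≤ (g p q)^[i] n + D0) → S.card ≤ F p q D0 K D := by
  intro K
  induction K with
  | zero =>
    intro D S hS hgood
    rcases S.eq_empty_or_nonempty with rfl | ⟨n, hn⟩
    · simp
    · have hD : D ≤ D0 := by
        have := hgood n hn 0
        simp at this
        exact this
      simp only [F, if_pos hD]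
      rw [Finset.card_le_one]
      intro a ha b hb
      apply hS a ha b hb
      simp [Nat.modEq_one]
  | succ K ih =>
    intro D S hS hgood
    rcases S.eq_empty_or_nonempty with rfl | ⟨n, hn⟩
    · simp
    · have hD : D ≤ D0 := by
        have := hgood n hn 0
        simp at this
        exact this
      have hrD : (p - q) * D < q := lt_of_le_of_lt (Nat.mul_le_mul_left _ hD) hD0
      simp only [F, if_pos hD]
      -- partition by digit
      have hmap : ∀ m ∈ S, dig p q m ∈ Finset.range q := fun m _ =>
        Finset.mem_range.mpr (dig_lt hq m)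
      rw [Finset.card_eq_sum_card_fiberwise hmap]
      have hfib : ∀ a ∈ Finset.range q, (S.filter (fun m => dig p q m = a)).card ≤
          if a < (p - q) * D then F p q D0 K (D + 1) else F p q D0 K D := by
        intro a _
        have hinj : Set.InjOn (g p q) (S.filter (fun m => dig p q m = a) : Finset ℕ) := by
          intro m hm m' hm' he
          simp only [Finset.coe_filter, Set.mem_ofPred_eq] at hm hm'
          exact g_inj_on_dig hq hpq (hm.2.trans hm'.2.symm) he
        rw [← Finset.card_image_of_injOn hinj]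
        have hmod : ∀ m ∈ (S.filter (fun m => dig p q m = a)).image (g p q),
            ∀ n ∈ (S.filter (fun m => dig p q m = a)).image (g p q), m ≡ n [MOD q ^ K] → m = n := by
          intro m hm m' hm' he
          simp only [Finset.mem_image, Finset.mem_filter] at hm hm'
          obtain ⟨x, ⟨hxS, hx⟩, rfl⟩ := hm
          obtain ⟨y, ⟨hyS, hy⟩, rfl⟩ := hm'
          rw [hS x hxS y hyS (g_congr hq hc (hx.trans hy.symm) he)]
        split_ifs with hlt
        · apply ih (D + 1) _ hmod
          intro m hm i
          simp only [Finset.mem_image, Finset.mem_filter] at hm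
          obtain ⟨x, ⟨hxS, hx⟩, rfl⟩ := hm
          have := hgood x hxS (i + 1)
          rw [Function.iterate_succ_apply, Function.iterate_succ_apply,
            g_add_of_lt hq hpq (by rw [hx]; exact hlt) hrD] at this
          exact this
        · apply ih D _ hmod
          intro m hm i
          simp only [Finset.mem_image, Finset.mem_filter] at hm
          obtain ⟨x, ⟨hxS, hx⟩, rfl⟩ := hm
          have := hgood x hxS (i + 1)
          rw [Function.iterate_succ_apply, Function.iterate_succ_apply,
            g_add_of_ge hq hpq (by rw [hx]; omega)] at this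
          exact this
      refine le_trans (Finset.sum_le_sum hfib) ?_
      rw [Finset.sum_ite]
      simp only [Finset.sum_const, smul_eq_mul]
      have c1 : ((Finset.range q).filter (fun a => a < (p - q) * D)).card = (p - q) * D := by
        have : (Finset.range q).filter (fun a => a < (p - q) * D) = Finset.range ((p - q) * D) := by
          ext a; simp only [Finset.mem_filter, Finset.mem_range]; omega
        rw [this, Finset.card_range]
      have c2 : ((Finset.range q).filter (fun a => ¬ a < (p - q) * D)).card = q - (p - q) * D := by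
        have h5 := Finset.card_filter_add_card_filter_not (s := Finset.range q) (fun a => a < (p - q) * D)
        rw [c1, Finset.card_range] at h5
        omega
      rw [c1, c2]
      omega

theorem F_le {D0 : ℕ} (hD0 : (p - q) * D0 < q) :
    ∀ e D : ℕ, D + e = D0 → ∃ C : ℕ, 1 ≤ C ∧ ∀ K, F p q D0 K D ≤ C * (q - (p - q) * D) ^ K := by
  intro e
  induction e with
  | zero =>
    intro D hD
    have hDD : D = D0 := by omega
    subst hDD
    refine ⟨1, le_rfl, fun K => ?_⟩
    rw [one_mul]
    have hz : ∀ K, F p q D K (D + 1) = 0 := by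
      intro K
      cases K with
      | zero => simp [F]
      | succ K => simp [F]
    induction K with
    | zero => simp [F]
    | succ K ih =>
      simp only [F, if_pos le_rfl, hz K, mul_zero, add_zero]
      rw [pow_succ']
      exact Nat.mul_le_mul_left _ ih
  | succ e ih =>
    intro D hD
    obtain ⟨C', hC', hb⟩ := ih (D + 1) (by omega)
    refine ⟨1 + D * C', by omega, ?_⟩
    have hDle : D ≤ D0 := by omega
    have hD1 : (p - q) * (D + 1) < q := lt_of_le_of_lt (Nat.mul_le_mul_left _ (by omega)) hD0
    have hsub : q - (p - q) * (D + 1) + (p - q) = q - (p - q) * D := by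
      rw [mul_add, mul_one] at hD1 ⊢
      omega
    have key : ∀ K, F p q D0 K D + D * C' * (q - (p - q) * (D + 1)) ^ K ≤
        (1 + D * C') * (q - (p - q) * D) ^ K := by
      intro K
      induction K with
      | zero => simp [F, hDle]
      | succ K ihK =>
        simp only [F, if_pos hDle]
        have h1 := hb K
        set A := q - (p - q) * (D + 1) with hA
        set B := q - (p - q) * D with hB
        set X := F p q D0 K D
        set Y := F p q D0 K (D + 1)
        calc B * X + (p - q) * D * Y + D * C' * A ^ (K+1)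
            ≤ B * X + (p - q) * D * (C' * A ^ K) + D * C' * A ^ (K+1) := by gcongr
          _ = B * X + D * C' * A ^ K * (A + (p - q)) := by ring
          _ = B * (X + D * C' * A ^ K) := by rw [hsub]; ring
          _ ≤ B * ((1 + D * C') * B ^ K) := Nat.mul_le_mul_left _ ihK
          _ = (1 + D * C') * B ^ (K+1) := by ring
    intro K
    exact le_trans (Nat.le_add_right _ _) (key K)

end

end Pool.Agent.H417_rb
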