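import Pool.Agent.H417_rb.Saving

set_option autoImplicit false

/-!
# Power saving: choice of the parameters
-/

namespace Pool.Agent.H417_rb

open Finset Filter Topology

/-- the trivial bound for a set in a short interval -/
lemma card_le_of_range {H : ℕ} (N : Finset ℕ) (hN : ∀ m ∈ N, ∀ n ∈ N, n < m + H) : N.card ≤ H := by
  rcases N.eq_empty_or_nonempty with rfl | hne
  · simp
  obtain ⟨a, haT, hamin⟩ := Finset.exists_min_image N id hne
  simp only [id_eq] at hamin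
  have : N ⊆ Finset.Ico a (a + H) := by
    intro n hn
    rw [Finset.mem_Ico]
    exact ⟨hamin n hn, hN a haT n hn⟩
  have h2 := Finset.card_le_card this
  rw [Nat.card_Ico] at h2
  omega

/-- **Power saving.** Let `D ⊂ {0, …, q-1}` be a set of at least two and at most `q - 1` digits and
`Λ ≥ 1`. In an interval of length `q^k` there are at most `C (κ |D|)^k` integers `n`, `κ < 1`, such
that the first `K` digits of the minimal word of `n` belong to `D`, where `K ≥ (1 + 1/Λ) k`. -/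
theorem count_restricted {p q : ℕ} (hq : 2 ≤ q) (hpq : q < p) (hc : p.Coprime q) {D : Finset ℕ}
    (hDq : ∀ b ∈ D, b < q) (hD2 : 2 ≤ D.card) (hDlt : D.card < q) {Λ : ℕ} (hΛ : 1 ≤ Λ) :
    ∃ C κ : ℝ, 0 < C ∧ 0 < κ ∧ κ < 1 ∧ ∀ k K : ℕ, k ≤ Λ * (K - k) → ∀ N : Finset ℕ,
      (∀ m ∈ N, ∀ n ∈ N, n < m + q ^ k) →
      (∀ n ∈ N, ∀ i < K, dig p q ((g p q)^[i] n) ∈ D) → (N.card : ℝ) ≤ C * (κ * D.card) ^ k := by
  -- two digits
  obtain ⟨x0, hx0, y0, hy0, hne⟩ := Finset.one_lt_card.mp hD2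
  obtain ⟨b0, b1, hb0, hb1, h01⟩ : ∃ b0 b1, b0 ∈ D ∧ b1 ∈ D ∧ b0 < b1 := by
    rcases lt_or_gt_of_ne hne with h | h
    · exact ⟨x0, y0, hx0, hy0, h⟩
    · exact ⟨y0, x0, hy0, hx0, h⟩
  have hb1q := hDq b1 hb1
  set B : ℝ := (D.card : ℝ) with hB
  have hB2 : (2:ℝ) ≤ B := by rw [hB]; exact_mod_cast hD2
  have hBq : B < q := by rw [hB]; exact_mod_cast hDlt
  have hq0 : (0:ℝ) < q := by exact_mod_cast (by omega : 0 < q)
  have hp0 : (0:ℝ) < p := by exact_mod_cast (by omega : 0 < p)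
  have hβ : 1 < (p:ℝ) / q := by
    rw [lt_div_iff₀ hq0, one_mul]; exact_mod_cast hpq
  -- c
  obtain ⟨c0, hc0⟩ := pow_unbounded_of_one_lt (p:ℝ) hβ
  obtain ⟨c, hc1, hcq⟩ : ∃ c : ℕ, 1 ≤ c ∧ q ^ c ≤ p ^ (c - 1) := by
    have h1 : (p:ℝ) * q ^ c0 < p ^ c0 := by
      rw [div_pow, lt_div_iff₀ (by positivity)] at hc0
      exact hc0
    have h2 : p * q ^ c0 < p ^ c0 := by exact_mod_cast h1
    have hc01 : 1 ≤ c0 := by
      rcases Nat.eq_zero_or_pos c0 with h0 | h0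
      · subst h0; simp at h2; omega
      · exact h0
    refine ⟨c0, hc01, ?_⟩
    have h3 : p ^ c0 = p * p ^ (c0 - 1) := by rw [← pow_succ']; congr 1; omega
    rw [h3] at h2
    exact (Nat.lt_of_mul_lt_mul_left h2).le
  -- C1
  obtain ⟨C1, hC1⟩ : ∃ C1 : ℕ, 2 * p ^ (q + 1) * q ^ 2 * q ^ C1 ≤ p ^ C1 := by
    obtain ⟨C1, hC1⟩ := pow_unbounded_of_one_lt ((2 * p ^ (q + 1) * q ^ 2 : ℕ) : ℝ) hβ
    refine ⟨C1, ?_⟩
    rw [div_pow, lt_div_iff₀ (by positivity)] at hC1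
    have : 2 * p ^ (q + 1) * q ^ 2 * q ^ C1 < p ^ C1 := by exact_mod_cast hC1
    exact this.le
  -- z
  obtain ⟨z, hz0, hz1, hz⟩ : ∃ z : ℝ, 0 < z ∧ z ≤ 1 ∧ (1 + 2 * ((p + q : ℕ) : ℝ) * z) ^ C1 * B < q := by
    have ht : Tendsto (fun z : ℝ => (1 + 2 * ((p + q : ℕ) : ℝ) * z) ^ C1 * B) (𝓝[>] 0)
        (𝓝 ((1 + 2 * ((p + q : ℕ) : ℝ) * 0) ^ C1 * B)) := by
      apply Tendsto.mono_left _ nhdsWithin_le_nhds
      apply Continuous.tendsto
      fun_prop
    rw [mul_zero, add_zero, one_pow, one_mul] at ht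
    have h1 := ht.eventually_lt_const hBq
    have h2 : ∀ᶠ z : ℝ in 𝓝[>] 0, z < 1 := by
      apply eventually_nhdsWithin_of_eventually_nhds
      exact eventually_lt_nhds (by norm_num)
    obtain ⟨z, hz⟩ := (h1.and (h2.and self_mem_nhdsWithin)).exists
    exact ⟨z, hz.2.2, hz.2.1.le, hz.1⟩
  set V : ℝ := 1 + 2 * ((p + q : ℕ) : ℝ) * z with hV
  have hV0 : 0 < V := by positivity
  set θ : ℝ := V ^ C1 * B / q with hθ
  have hθ0 : 0 < θ := by positivity
  have hθ1 : θ < 1 := by rw [hθ, div_lt_one hq0]; exact hz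
  -- L
  obtain ⟨L, hL3, hL⟩ : ∃ L : ℕ, 3 ≤ L ∧ θ ^ L ≤ z ^ 2 / 2 := by
    obtain ⟨L0, hL0⟩ := exists_pow_lt_of_lt_one (by positivity : 0 < z ^ 2 / 2) hθ1
    refine ⟨L0 + 3, by omega, ?_⟩
    exact (pow_le_pow_of_le_one hθ0.le hθ1.le (by omega)).trans hL0.le
  -- ρ
  set ρ : ℝ := 1 - 4 / (B * (p + q) ^ 2) with hρ
  have hp2 : (3:ℝ) ≤ p := by exact_mod_cast (by omega : 3 ≤ p)
  have hq2 : (2:ℝ) ≤ q := by exact_mod_cast hq
  have hρ0 : 0 ≤ ρ := by
    rw [hρ, sub_nonneg, div_le_one (by positivity)]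
    nlinarith
  have hρ1 : ρ < 1 := by
    rw [hρ]
    have : 0 < 4 / (B * ((p:ℝ) + q) ^ 2) := by positivity
    linarith
  -- h
  obtain ⟨h, hh⟩ : ∃ h : ℕ, B ^ L * ρ ^ h ≤ 1/2 := by
    obtain ⟨h, hh⟩ := exists_pow_lt_of_lt_one (by positivity : 0 < (1/2) / B ^ L) hρ1
    refine ⟨h, ?_⟩
    rw [lt_div_iff₀ (by positivity)] at hh
    linarith
  -- C4
  set M := C1 * L + 2 * q * L + 2 with hM
  set C4 := (2 * c) ^ h * M + Λ * L with hC4
  have hC41 : 1 ≤ C4 := by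
    have : 1 ≤ Λ * L := Nat.mul_pos hΛ (by omega)
    omega
  set κ : ℝ := (1/2 : ℝ) ^ ((1:ℝ) / C4) with hκ
  have hC4r : (1:ℝ) ≤ C4 := by exact_mod_cast hC41
  have hκ0 : 0 < κ := by positivity
  have hκ1 : κ < 1 := Real.rpow_lt_one (by norm_num) (by norm_num) (by positivity)
  have hκC4 : κ ^ C4 = 1/2 := by
    rw [hκ, ← Real.rpow_natCast, ← Real.rpow_mul (by norm_num)]
    rw [one_div_mul_cancel (by positivity), Real.rpow_one]
  have hκhalf : 1/2 ≤ κ := by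
    rw [← hκC4]
    exact pow_le_of_le_one hκ0.le hκ1.le (by omega)
  refine ⟨4 * (h * q ^ 3 + 1) + q ^ C4, κ, by positivity, hκ0, hκ1, ?_⟩
  intro k K hkK N hN hdig
  set n := k / C4 with hn
  have hκB : 1 ≤ κ * B := by nlinarith
  rcases Nat.eq_zero_or_pos n with hn0 | hn0
  · -- small k
    have hkC : k < C4 := by
      by_contra hcon
      push Not at hcon
      have := Nat.div_pos hcon (by omega)
      omega
    have h1 := card_le_of_range N hN
    have h2 : q ^ k ≤ q ^ C4 := Nat.pow_le_pow_right (by omega) hkC.le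
    have h3 : (N.card : ℝ) ≤ (q:ℝ) ^ C4 := by exact_mod_cast h1.trans h2
    have h4 : 1 ≤ (κ * B) ^ k := one_le_pow₀ hκB
    calc (N.card : ℝ) ≤ (q:ℝ) ^ C4 := h3
      _ ≤ 4 * (h * (q:ℝ) ^ 3 + 1) + (q:ℝ) ^ C4 := by
        have : 0 ≤ 4 * (h * (q:ℝ) ^ 3 + 1) := by positivity
        linarith
      _ = (4 * (h * (q:ℝ) ^ 3 + 1) + (q:ℝ) ^ C4) * 1 := (mul_one _).symm
      _ ≤ _ := by gcongr
  · have hnk : C4 * n ≤ k := Nat.mul_div_le k C4
    have hkn : k < C4 * (n + 1) := by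
      rw [hn]
      have := Nat.lt_mul_div_succ k (by omega : 0 < C4)
      exact this
    set l := L * n with hl
    have hl3 : 3 ≤ l := by rw [hl]; nlinarith
    have hlk : Λ * l ≤ k := by
      calc Λ * l = Λ * L * n := by rw [hl]; ring
        _ ≤ C4 * n := Nat.mul_le_mul_right _ (by rw [hC4]; exact Nat.le_add_left _ _)
        _ ≤ k := hnk
    have hlK : k + l ≤ K := by
      have h1 : Λ * l ≤ Λ * (K - k) := hlk.trans hkK
      have h2 := Nat.le_of_mul_le_mul_left h1 hΛ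
      omega
    set R := q ^ (l - 3) with hR
    have hR1 : 1 ≤ R := Nat.one_le_pow _ _ (by omega)
    set a := q * l with ha
    set S := q * R with hS
    have hSl : S ≤ q ^ l := by
      rw [hS, hR, ← pow_succ']
      exact Nat.pow_le_pow_right (by omega) (by omega)
    have hSa : S ≤ 2 ^ a := by
      refine hSl.trans ?_
      calc q ^ l ≤ (2 ^ q) ^ l := Nat.pow_le_pow_left (Nat.lt_two_pow_self).le _
        _ = 2 ^ a := (pow_mul 2 q l).symm
    set T := 2 * p ^ (a + 1) * S ^ 2 with hT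
    set w := C1 * l with hw
    have hTw : T * q ^ w ≤ p ^ w := by
      have h1 : T ≤ (2 * p ^ (q + 1) * q ^ 2) ^ l := by
        calc T ≤ 2 * p ^ (a + 1) * (q ^ l) ^ 2 := by rw [hT]; gcongr
          _ ≤ 2 ^ l * p ^ ((q + 1) * l) * (q ^ l) ^ 2 := by
            have h2 : 2 ≤ 2 ^ l := by
              calc 2 = 2 ^ 1 := by norm_num
                _ ≤ 2 ^ l := Nat.pow_le_pow_right (by norm_num) (by omega)
            have h3 : p ^ (a + 1) ≤ p ^ ((q + 1) * l) := by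
              apply Nat.pow_le_pow_right (by omega)
              rw [ha, add_mul, one_mul]; omega
            gcongr
          _ = _ := by rw [mul_pow, mul_pow, ← pow_mul, ← pow_mul, ← pow_mul, mul_comm l 2]
      calc T * q ^ w ≤ (2 * p ^ (q + 1) * q ^ 2) ^ l * q ^ w := Nat.mul_le_mul_right _ h1
        _ = (2 * p ^ (q + 1) * q ^ 2 * q ^ C1) ^ l := by
            rw [mul_pow (2 * p ^ (q + 1) * q ^ 2) (q ^ C1) l, ← pow_mul q C1 l]
        _ ≤ (p ^ C1) ^ l := Nat.pow_le_pow_left hC1 _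
        _ = p ^ w := by rw [← pow_mul]
    set Z := w + 2 + 2 * a with hZ
    have hZM : Z ≤ M * n := by
      rw [hZ, hM, hw, ha, hl]
      nlinarith
    have hKbig : (2 * c) ^ h * Z ≤ k + l := by
      calc (2 * c) ^ h * Z ≤ (2 * c) ^ h * (M * n) := Nat.mul_le_mul_left _ hZM
        _ = (2 * c) ^ h * M * n := by ring
        _ ≤ C4 * n := Nat.mul_le_mul_right _ (by rw [hC4]; exact Nat.le_add_right _ _)
        _ ≤ k := hnk
        _ ≤ k + l := Nat.le_add_right _ _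
    have hRH : 8 * R * q ^ k ≤ q ^ (k + l) := by
      have h8 : 8 ≤ q ^ 3 := by
        calc 8 = 2 ^ 3 := by norm_num
          _ ≤ q ^ 3 := Nat.pow_le_pow_left hq _
      calc 8 * R * q ^ k ≤ q ^ 3 * R * q ^ k := by gcongr
        _ = q ^ (k + l) := by
          rw [hR, ← pow_add, ← pow_add]; congr 1; omega
    have hcore := core_bound (K := k + l) (r := n) hq hpq hc hb0 hb1 h01 hb1q hR1 hS hSa hT hTw hc1 hcq
      (le_refl Z) hKbig hRH N hN (fun m hm i hi => hdig m hm i (by omega))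
    rw [← hB, ← hρ] at hcore
    -- pattern bound
    have hE0 := E0_le w (2 * n) (p + q) hz0 hz1
    rw [← hV] at hE0
    set E : ℝ := (E0 w (2 * n) (p + q) : ℝ) with hE
    have hRr : (R:ℝ) * q ^ 3 = q ^ l := by
      have : R * q ^ 3 = q ^ l := by rw [hR, ← pow_add]; congr 1; omega
      exact_mod_cast this
    have hRpos : (0:ℝ) < R := by exact_mod_cast hR1
    have hzn : 0 < z ^ (2 * n) := by positivity
    -- B^l E ≤ R q^3 (1/2)^n
    have hterm1 : B ^ l * E ≤ (R * q ^ 3) * (1/2) ^ n := by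
      rw [hRr]
      have h1 : B ^ l * E * z ^ (2 * n) ≤ (q:ℝ) ^ l * θ ^ l := by
        have e1 : (q:ℝ) ^ l * θ ^ l = B ^ l * V ^ w := by
          rw [← mul_pow, hθ, mul_div_cancel₀ _ hq0.ne', mul_pow, hw, pow_mul]; ring
        rw [e1, mul_assoc]
        gcongr
      have h2 : θ ^ l ≤ (z ^ 2 / 2) ^ n := by
        rw [hl, pow_mul]
        gcongr
      have h3 : (z ^ 2 / 2) ^ n = z ^ (2 * n) * (1/2) ^ n := by
        rw [pow_mul, ← mul_pow]; congr 1; ring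
      have h4 : B ^ l * E * z ^ (2 * n) ≤ ((q:ℝ) ^ l * (1/2) ^ n) * z ^ (2 * n) := by
        calc B ^ l * E * z ^ (2 * n) ≤ (q:ℝ) ^ l * θ ^ l := h1
          _ ≤ (q:ℝ) ^ l * (z ^ (2 * n) * (1/2) ^ n) := by rw [← h3]; gcongr
          _ = _ := by ring
      exact le_of_mul_le_mul_right h4 hzn
    have hterm2 : B ^ l * ρ ^ (n * h) ≤ (1/2) ^ n := by
      calc B ^ l * ρ ^ (n * h) = (B ^ L * ρ ^ h) ^ n := by
            rw [mul_pow, ← pow_mul, ← pow_mul, hl, mul_comm n h]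
        _ ≤ (1/2) ^ n := by
            have : 0 ≤ B ^ L * ρ ^ h := by positivity
            gcongr
    have hmain : (N.card : ℝ) * R ≤ (2 * B ^ k * ((h * q ^ 3 + 1) * (1/2) ^ n)) * R := by
      calc (N.card : ℝ) * R ≤ 2 * B ^ (k + l) * (h * E + R * ρ ^ (n * h)) := hcore
        _ = 2 * B ^ k * (h * (B ^ l * E) + R * (B ^ l * ρ ^ (n * h))) := by rw [pow_add]; ring
        _ ≤ 2 * B ^ k * (h * ((R * q ^ 3) * (1/2) ^ n) + R * (1/2) ^ n) := by gcongr
        _ = _ := by ring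
    have hmain2 := le_of_mul_le_mul_right hmain hRpos
    -- (1/2)^n ≤ 2 κ^k
    have hhalf : (1/2 : ℝ) ^ n ≤ 2 * κ ^ k := by
      have h1 : (1/2 : ℝ) ^ n * (1/2) = κ ^ (C4 * (n + 1)) := by
        rw [pow_mul, hκC4, pow_succ]
      have h2 : κ ^ (C4 * (n + 1)) ≤ κ ^ k := pow_le_pow_of_le_one hκ0.le hκ1.le hkn.le
      linarith
    calc (N.card : ℝ) ≤ 2 * B ^ k * ((h * (q:ℝ) ^ 3 + 1) * (1/2) ^ n) := hmain2
      _ ≤ 2 * B ^ k * ((h * (q:ℝ) ^ 3 + 1) * (2 * κ ^ k)) := by gcongr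
      _ = 4 * (h * (q:ℝ) ^ 3 + 1) * (κ * B) ^ k := by rw [mul_pow]; ring
      _ ≤ (4 * (h * (q:ℝ) ^ 3 + 1) + (q:ℝ) ^ C4) * (κ * B) ^ k := by
          have : 0 ≤ (q:ℝ) ^ C4 := by positivity
          have h2 : 0 ≤ (κ * B) ^ k := by positivity
          nlinarith

end Pool.Agent.H417_rb
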