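import Mathlib

set_option autoImplicit false

/-!
# Expansions of reals in a rational base: definitions

`u : ℕ → ℕ` is an infinite word, `u k` being its digit number `k + 1`.
-/

namespace Pool.Agent.H417_rb

/-- `NodesOf p q u n`: the sequence `n 0 = 0`, `n (k+1) = (p * n k + u k) / q` consists of
non-negative integers and `n` is this sequence (the nodes on the path labelled `u`). -/
def NodesOf (p q : ℕ) (u n : ℕ → ℕ) : Prop :=
  n 0 = 0 ∧ ∀ k, q * n (k + 1) = p * n k + u k

/-- The set `W_{p/q}` of the labels of the infinite paths from the root: words `u` over the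
alphabet `{0, …, p-1}` for which the sequence `n 0 = 0`, `n (k+1) = (p * n k + u k) / q`
consists of non-negative integers. -/
def W (p q : ℕ) : Set (ℕ → ℕ) :=
  {u | (∀ k, u k < p) ∧ ∃ n : ℕ → ℕ, NodesOf p q u n}

/-- The value `∑_{i ≥ 1} (a_i / q) (p/q)^{-i}` of a word (`a_{k+1} = u k`). -/
noncomputable def val (p q : ℕ) (u : ℕ → ℕ) : ℝ :=
  ∑' k : ℕ, (u k : ℝ) / q * (((p : ℝ) / q) ^ (k + 1))⁻¹

/-- The `p/q`-expansions of the real number `x`. -/
def Expansions (p q : ℕ) (x : ℝ) : Set (ℕ → ℕ) :=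
  {u | u ∈ W p q ∧ val p q u = x}

/-- `Multi p q j k` is the set of the real numbers having `j` expansions whose prefixes of
length `k` are pairwise distinct. -/
def Multi (p q j k : ℕ) : Set ℝ :=
  {x | ∃ u : Fin j → ℕ → ℕ, (∀ i, u i ∈ Expansions p q x) ∧
    ∀ i i', i ≠ i' → ∃ l < k, u i l ≠ u i' l}

end Pool.Agent.H417_rb
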