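import Pool.Agent.H417_rb.Ceil

set_option autoImplicit false

/-!
# Points with several expansions separated at level `k`
-/

namespace Pool.Agent.H417_rb

open Filter Topology Finset

section
variable {p q : ℕ}

lemma nonpos_of_bdd {β x A : ℝ} (hβ : 1 < β) {k : ℕ} (h : ∀ l ≥ k, β ^ l * x ≤ A) : x ≤ 0 := by
  by_contra hc
  push Not at hc
  have h1 : Tendsto (fun l : ℕ => β ^ l * x) atTop atTop :=
    (tendsto_pow_atTop_atTop_of_one_lt hβ).atTop_mul_const hc
  have h2 := (h1.eventually_gt_atTop A).and (eventually_ge_atTop k)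
  obtain ⟨l, hl1, hl2⟩ := h2.exists
  have := h l hl2
  linarith

/-- nodes increase with the words: strict order is kept. -/
lemma node_lt_next {u u' n n' : ℕ → ℕ} (hu : ∀ k, u k < p)
    (hn : NodesOf p q u n) (hn' : NodesOf p q u' n') {l : ℕ} (h : n l < n' l) :
    n (l+1) < n' (l+1) := by
  have h1 := hn.2 l
  have h2 := hn'.2 l
  have h3 := hu l
  have h4 : p * (n l + 1) ≤ p * n' l := Nat.mul_le_mul_left p h
  rw [mul_add] at h4
  have h5 : q * n (l+1) < q * n' (l+1) := by omega
  exact Nat.lt_of_mul_lt_mul_left h5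

/-- `B + 1` distinct natural numbers: some two differ by at least `B`. -/
lemma spread {B : ℕ} (f : Fin (B + 1) → ℕ) (hf : Function.Injective f) :
    ∃ i j, f i + B ≤ f j := by
  obtain ⟨i, -, hi⟩ := Finset.exists_min_image Finset.univ f ⟨0, Finset.mem_univ _⟩
  obtain ⟨j, -, hj⟩ := Finset.exists_max_image Finset.univ f ⟨0, Finset.mem_univ _⟩
  refine ⟨i, j, ?_⟩
  have h : (Finset.univ.image f).card ≤ (Finset.Icc (f i) (f j)).card := by
    apply Finset.card_le_card
    intro x hx
    simp only [Finset.mem_image, Finset.mem_univ, true_and] at hx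
    obtain ⟨a, rfl⟩ := hx
    exact Finset.mem_Icc.mpr ⟨hi a (Finset.mem_univ _), hj a (Finset.mem_univ _)⟩
  rw [Finset.card_image_of_injective _ hf, Finset.card_univ, Fintype.card_fin, Nat.card_Icc] at h
  have := hi j (Finset.mem_univ _)
  omega

/-- `n` anchors the point `x`: the paths of two expansions of `x` pass at level `k` at `n - 1`
or lower, and at `n + j` or higher. -/
structure Anchor (p q j k : ℕ) (x : ℝ) (n : ℕ) : Prop where
  up : ∀ i, ((p:ℝ)/q)^(k+i) * x ≤ ((g p q)^[i] n : ℝ) + (((p:ℝ) - 1) / ((p:ℝ) - q) - 1)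
  lo : ∀ i, ((g p q)^[i] (n + j) : ℝ) ≤ ((p:ℝ)/q)^(k+i) * x
  pos : 1 ≤ n
  node : ∃ u w : ℕ → ℕ, (∀ l, u l < p) ∧ NodesOf p q u w ∧ n + j ≤ w k

lemma exists_anchor (hq : 1 ≤ q) (hpq : q < p) {j k : ℕ} {x : ℝ} (hx : x ∈ Multi p q (j+2) k) :
    ∃ n, Anchor p q j k x n := by
  obtain ⟨u, hu, hdist⟩ := hx
  choose n hn using fun i => (hu i).1.2
  have hup : ∀ i k, u i k < p := fun i => (hu i).1.1
  have hux : ∀ i, val p q (u i) = x := fun i => (hu i).2
  have hinj : Function.Injective (fun i => n i k) := by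
    intro i j hij
    by_contra hne
    obtain ⟨a, ha, hne'⟩ := hdist i j hne
    exact hne' (prefix_eq (hup i) (hup j) (hn i) (hn j) k hij a ha)
  obtain ⟨a, b, hab⟩ := spread (B := j + 1) _ hinj
  refine ⟨n a k + 1, ?_, ?_, by omega, u b, n b, hup b, hn b, by simpa [add_assoc, add_comm 1 j] using hab⟩
  · intro i
    have h1 := le_node' hq hpq (hup a) (hn a) (k + i)
    rw [hux] at h1
    have h2 : n a (k+i) < (g p q)^[i] (n a k + 1) := by
      apply bot_lt (v := fun i => n a (k + i)) hq (by simp)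
      intro i
      have := (hn a).2 (k+i)
      have h3 := hup a (k+i)
      show q * n a (k + (i+1)) < _
      rw [← add_assoc, this]
      omega
    have h3 : (n a (k+i) : ℝ) + 1 ≤ ((g p q)^[i] (n a k + 1) : ℕ) := by exact_mod_cast h2
    linarith
  · intro i
    have h1 := node_le hq hpq (hup b) (hn b) (k + i)
    rw [hux] at h1
    have h2 : (g p q)^[i] (n a k + 1 + j) ≤ n b (k+i) := by
      apply top_ge (w := fun i => n b (k + i)) hq (by simpa [add_assoc, add_comm 1 j] using hab)
      intro i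
      have := (hn b).2 (k+i)
      show _ ≤ q * n b (k + (i+1))
      rw [← add_assoc, this]
      omega
    have h3 : (((g p q)^[i] (n a k + 1 + j) : ℕ) : ℝ) ≤ n b (k+i) := by exact_mod_cast h2
    linarith

lemma Anchor.le_of_le (hq : 1 ≤ q) (hpq : q < p) {j j' k : ℕ} {x y : ℝ} {m n : ℕ}
    (hx : Anchor p q j k x m) (hy : Anchor p q j' k y n) (h : m ≤ n) : x ≤ y := by
  have hb := beta_gt_one hq hpq
  have key : x - y ≤ 0 := by
    apply nonpos_of_bdd (A := ((p:ℝ) - 1) / ((p:ℝ) - q) - 1) hb (k := k)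
    intro l hl
    obtain ⟨i, rfl⟩ := Nat.exists_eq_add_of_le hl
    have h1 := hx.up i
    have h2 := hy.lo i
    have h3 : (g p q)^[i] m ≤ (g p q)^[i] (n + j') := g_iter_mono hq (by omega) i
    have h4 : (((g p q)^[i] m : ℕ) : ℝ) ≤ ((g p q)^[i] (n + j') : ℕ) := by exact_mod_cast h3
    rw [mul_sub]
    linarith
  linarith

lemma Anchor.inj (hq : 1 ≤ q) (hpq : q < p) {j j' k : ℕ} {x y : ℝ} {n : ℕ}
    (hx : Anchor p q j k x n) (hy : Anchor p q j' k y n) : x = y :=
  le_antisymm (hx.le_of_le hq hpq hy le_rfl) (hy.le_of_le hq hpq hx le_rfl)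

lemma Anchor.good (hq : 1 ≤ q) (hpq : q < p) {j k : ℕ} {x : ℝ} {n : ℕ}
    (hx : Anchor p q j k x n) (i : ℕ) :
    (g p q)^[i] (n + j) ≤ (g p q)^[i] n + (q - 1) / (p - q) := by
  have h1 := hx.up i
  have h2 := hx.lo i
  have hr : (0:ℝ) < (p:ℝ) - q := by
    have : (q:ℝ) < p := by exact_mod_cast hpq
    linarith
  have h3 : ((g p q)^[i] (n + j) : ℝ) ≤ ((g p q)^[i] n : ℝ) + ((q:ℝ) - 1) / ((p:ℝ) - q) := by
    have : ((p:ℝ) - 1) / ((p:ℝ) - q) - 1 = ((q:ℝ) - 1) / ((p:ℝ) - q) := by
      field_simp
      ring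
    rw [this] at h1
    linarith
  have h4 : (((g p q)^[i] (n + j) : ℝ) - ((g p q)^[i] n : ℝ)) * ((p:ℝ) - q) ≤ (q:ℝ) - 1 := by
    rw [← le_div_iff₀ hr]
    linarith
  have hle : (g p q)^[i] n ≤ (g p q)^[i] (n + j) := g_iter_mono hq (by omega) i
  have h5 : ((g p q)^[i] (n + j) - (g p q)^[i] n) * (p - q) ≤ q - 1 := by
    have : ((((g p q)^[i] (n + j) - (g p q)^[i] n) * (p - q) : ℕ) : ℝ) ≤ ((q - 1 : ℕ) : ℝ) := by
      rw [Nat.cast_mul, Nat.cast_sub hle, Nat.cast_sub hpq.le, Nat.cast_sub hq]
      simpa using h4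
    exact_mod_cast this
  have h6 : (g p q)^[i] (n + j) - (g p q)^[i] n ≤ (q - 1) / (p - q) := by
    rw [Nat.le_div_iff_mul_le (by omega)]
    exact h5
  omega

/-- parent of a node -/
def par (p q n : ℕ) : ℕ := q * n / p

lemma par_mono {m n : ℕ} (h : m ≤ n) : par p q m ≤ par p q n :=
  Nat.div_le_div_right (Nat.mul_le_mul_left q h)

lemma par_iter_mono {m n : ℕ} (h : m ≤ n) (i : ℕ) : (par p q)^[i] m ≤ (par p q)^[i] n := by
  induction i with
  | zero => simpa
  | succ i ih => rw [Function.iterate_succ_apply', Function.iterate_succ_apply']; exact par_mono ih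

lemma par_node {u n : ℕ → ℕ} (hu : ∀ k, u k < p) (hn : NodesOf p q u n) (l : ℕ) :
    par p q (n (l+1)) = n l := by
  unfold par
  rw [hn.2 l, Nat.mul_add_div (by have := hu 0; omega), Nat.div_eq_of_lt (hu l)]
  simp

lemma par_iter_node {u n : ℕ → ℕ} (hu : ∀ k, u k < p) (hn : NodesOf p q u n) (k : ℕ) :
    (par p q)^[k] (n k) = 0 := by
  induction k with
  | zero => simp [hn.1]
  | succ k ih => rw [Function.iterate_succ_apply, par_node hu hn, ih]

/-- A sequence of nodes gives a word of `W`. -/
lemma word_of_nodes {N : ℕ → ℕ} (h0 : N 0 = 0)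
    (h : ∀ l, p * N l ≤ q * N (l+1) ∧ q * N (l+1) < p * N l + p) :
    (∀ l, (fun l => q * N (l+1) - p * N l) l < p) ∧
      NodesOf p q (fun l => q * N (l+1) - p * N l) N := by
  refine ⟨fun l => ?_, h0, fun l => ?_⟩
  · have := h l
    show q * N (l+1) - p * N l < p
    omega
  · have := h l
    show q * N (l+1) = p * N l + (q * N (l+1) - p * N l)
    omega

/-- the path through `m` at level `k` continued by a sequence `G` with `G 0 = m` -/
def glue (p q k m : ℕ) (G : ℕ → ℕ) : ℕ → ℕ :=
  fun l => if l < k then (par p q)^[k - l] m else G (l - k)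

lemma glue_spec (hp : 1 ≤ p) {k m : ℕ} {G : ℕ → ℕ} (hm : (par p q)^[k] m = 0)
    (h0 : G 0 = m) (h : ∀ l, p * G l ≤ q * G (l+1) ∧ q * G (l+1) < p * G l + p) :
    glue p q k m G 0 = 0 ∧ ∀ l, p * glue p q k m G l ≤ q * glue p q k m G (l+1) ∧
      q * glue p q k m G (l+1) < p * glue p q k m G l + p := by
  constructor
  · unfold glue
    rcases Nat.eq_zero_or_pos k with rfl | hk
    · simpa [h0] using hm
    · simp [hk, hm]
  · intro l
    have hpar : ∀ a, p * par p q a ≤ q * a ∧ q * a < p * par p q a + p := by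
      intro a
      unfold par
      have h1 := Nat.div_add_mod (q * a) p
      have h2 := Nat.mod_lt (q * a) hp
      omega
    unfold glue
    rcases lt_trichotomy (l + 1) k with h1 | h1 | h1
    · rw [if_pos (by omega), if_pos h1]
      have e : k - l = (k - (l+1)) + 1 := by omega
      rw [e, Function.iterate_succ_apply']
      exact hpar _
    · rw [if_pos (by omega), if_neg (by omega)]
      have e : k - l = 1 := by omega
      have e' : l + 1 - k = 0 := by omega
      rw [e, e', h0]
      exact hpar _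
    · rw [if_neg (by omega), if_neg (by omega)]
      have e : l + 1 - k = (l - k) + 1 := by omega
      rw [e]
      exact h _

/-- Every integer `1 ≤ n ≤` (a node at level `k`) anchors a point with two expansions. -/
lemma double_point (hq : 1 ≤ q) (hpq : q < p) {k n : ℕ} (hn : 1 ≤ n)
    (hnode : (par p q)^[k] n = 0) :
    ∃ x, x ∈ Multi p q 2 k ∧ Anchor p q 0 k x n := by
  have hp : 1 ≤ p := by omega
  have hb := beta_gt_one hq hpq
  have hnode' : (par p q)^[k] (n - 1) = 0 := by
    have := par_iter_mono (p := p) (q := q) (Nat.sub_le n 1) k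
    omega
  -- min path from n
  have hG : ∀ l, p * (g p q)^[l] n ≤ q * (g p q)^[l+1] n ∧
      q * (g p q)^[l+1] n < p * (g p q)^[l] n + p := by
    intro l
    rw [Function.iterate_succ_apply']
    have h1 := g_lower (p := p) hq ((g p q)^[l] n)
    have h2 := g_upper (p := p) hq ((g p q)^[l] n)
    omega
  have hG' : ∀ l, p * ((g p q)^[l] n - 1) ≤ q * ((g p q)^[l+1] n - 1) ∧
      q * ((g p q)^[l+1] n - 1) < p * ((g p q)^[l] n - 1) + p := by
    intro l
    rw [Function.iterate_succ_apply']
    have h1 := g_lower (p := p) hq ((g p q)^[l] n)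
    have h2 := g_upper (p := p) hq ((g p q)^[l] n)
    have h3 := g_iter_pos (p := p) hq hp hn l
    have h4 : 1 ≤ g p q ((g p q)^[l] n) := by
      have := g_iter_pos (p := p) hq hp hn (l+1)
      rwa [Function.iterate_succ_apply'] at this
    generalize g p q ((g p q)^[l] n) = y at *
    generalize (g p q)^[l] n = z at *
    obtain ⟨a, rfl⟩ := Nat.exists_eq_add_of_le h3
    obtain ⟨b, rfl⟩ := Nat.exists_eq_add_of_le h4
    have e1 : 1 + a - 1 = a := by omega
    have e2 : 1 + b - 1 = b := by omega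
    rw [mul_add, mul_add] at h1 h2
    rw [e1, e2]
    omega
  obtain ⟨s0, s1⟩ := glue_spec (q := q) (G := fun l => (g p q)^[l] n) hp hnode rfl hG
  obtain ⟨t0, t1⟩ := glue_spec (q := q) (G := fun l => (g p q)^[l] n - 1) hp hnode' rfl hG'
  obtain ⟨hu, hun⟩ := word_of_nodes s0 s1
  obtain ⟨hv, hvn⟩ := word_of_nodes t0 t1
  set N := glue p q k n (fun l => (g p q)^[l] n) with hN
  set N' := glue p q k (n-1) (fun l => (g p q)^[l] n - 1) with hN'
  set u := (fun l => q * N (l+1) - p * N l) with hudef
  set v := (fun l => q * N' (l+1) - p * N' l) with hvdef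
  have eN : ∀ i, N (k + i) = (g p q)^[i] n := by
    intro i
    rw [hN]; unfold glue
    rw [if_neg (by omega)]
    have : k + i - k = i := by omega
    rw [this]
  have eN' : ∀ i, N' (k + i) = (g p q)^[i] n - 1 := by
    intro i
    rw [hN']; unfold glue
    rw [if_neg (by omega)]
    have : k + i - k = i := by omega
    rw [this]
  have hval : val p q v = val p q u := by
    apply le_antisymm
    · have : val p q v - val p q u ≤ 0 := by
        apply nonpos_of_bdd (A := ((p:ℝ) - 1) / ((p:ℝ) - q)) hb (k := k)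
        intro l hl
        obtain ⟨i, rfl⟩ := Nat.exists_eq_add_of_le hl
        have h1 := le_node' hq hpq hv hvn (k+i)
        have h2 := node_le hq hpq hu hun (k+i)
        rw [eN'] at h1
        rw [eN] at h2
        have h3 : (((g p q)^[i] n - 1 : ℕ) : ℝ) ≤ ((g p q)^[i] n : ℕ) := by exact_mod_cast Nat.sub_le _ _
        rw [mul_sub]
        linarith
      linarith
    · have : val p q u - val p q v ≤ 0 := by
        apply nonpos_of_bdd (A := 1 + ((p:ℝ) - 1) / ((p:ℝ) - q)) hb (k := k)
        intro l hl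
        obtain ⟨i, rfl⟩ := Nat.exists_eq_add_of_le hl
        have h1 := le_node' hq hpq hu hun (k+i)
        have h2 := node_le hq hpq hv hvn (k+i)
        rw [eN'] at h2
        rw [eN] at h1
        have h3 : (g p q)^[i] n ≤ ((g p q)^[i] n - 1) + 1 := by omega
        have h4 : (((g p q)^[i] n : ℕ) : ℝ) ≤ (((g p q)^[i] n - 1 : ℕ) : ℝ) + 1 := by exact_mod_cast h3
        rw [mul_sub]
        linarith
      linarith
  refine ⟨val p q u, ?_, ?_⟩
  · refine ⟨![v, u], ?_, ?_⟩
    · intro i
      fin_cases i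
      · exact ⟨⟨hv, N', hvn⟩, hval⟩
      · exact ⟨⟨hu, N, hun⟩, rfl⟩
    · -- prefixes are distinct
      have hex : ∃ l < k, v l ≠ u l := by
        by_contra hcon
        push Not at hcon
        have : ∀ l ≤ k, N' l = N l := by
          intro l
          induction l with
          | zero => intro _; rw [hvn.1, hun.1]
          | succ l ih =>
            intro hl
            have h1 := hvn.2 l
            have h2 := hun.2 l
            rw [ih (by omega), hcon l (by omega), ← h2] at h1
            exact Nat.eq_of_mul_eq_mul_left hq h1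
        have h3 := this k le_rfl
        have h4 := eN 0
        have h5 := eN' 0
        simp only [add_zero, Function.iterate_zero, id_eq] at h4 h5
        omega
      obtain ⟨l, hl, hne⟩ := hex
      intro i i' hii
      fin_cases i <;> fin_cases i'
      · exact absurd rfl hii
      · exact ⟨l, hl, hne⟩
      · exact ⟨l, hl, hne.symm⟩
      · exact absurd rfl hii
  · refine ⟨?_, ?_, hn, u, N, hu, hun, ?_⟩
    · intro i
      have h1 := le_node' hq hpq hv hvn (k+i)
      rw [eN', hval] at h1
      have h3 := g_iter_pos (p := p) hq hp hn i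
      rw [Nat.cast_sub h3] at h1
      push_cast at h1
      linarith
    · intro i
      have h1 := node_le hq hpq hu hun (k+i)
      rw [eN] at h1
      simpa using h1
    · have := eN 0
      simp only [add_zero, Function.iterate_zero, id_eq] at this
      omega

end

end Pool.Agent.H417_rb
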