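import Pool.Agent.H417_rb.Lattice

set_option autoImplicit false

/-!
# Frequencies with few good indices are few
-/

namespace Pool.Agent.H417_rb

open Finset

/-- `X i s` is a representative of `p^(-i-1) s` modulo `q^(K-i)`, at most half of the modulus in
absolute value. -/
def Reps (p q K : ℕ) (X : ℕ → ℤ → ℤ) : Prop :=
  ∀ i < K, ∀ s, 2 * |X i s| ≤ (q:ℤ) ^ (K - i) ∧ Lat p q K i s (X i s)

/-- `X i s / q^(K-i)` is at least `1/(p+q)` in absolute value. -/
def GoodIdx (p q K : ℕ) (X : ℕ → ℤ → ℤ) (i : ℕ) (s : ℤ) : Prop :=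
  (q:ℤ) ^ (K - i) ≤ (p + q) * |X i s|

/-- carries -/
def Car (p q K : ℕ) (X : ℕ → ℤ → ℤ) (i : ℕ) (s : ℤ) : ℤ :=
  (p * X (i+1) s - X i s) / (q:ℤ) ^ (K - (i + 1))

section
variable {p q K : ℕ} {X : ℕ → ℤ → ℤ}

lemma car_spec (hc : p.Coprime q) (hX : Reps p q K X) {i : ℕ} (hi : i + 1 < K) (s : ℤ) :
    (q:ℤ) ^ (K - (i+1)) * Car p q K X i s = p * X (i+1) s - X i s := by
  have h1 := (hX i (by omega) s).2
  have h2 := (hX (i+1) hi s).2
  unfold Lat at h1 h2
  have h3 : (q:ℤ) ^ (K - (i+1)) ∣ (p:ℤ) ^ (i+1) * (p * X (i+1) s - X i s) := by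
    have e : (p:ℤ) ^ (i+1) * (p * X (i+1) s - X i s) =
        ((p:ℤ) ^ (i+1+1) * X (i+1) s - s) - ((p:ℤ) ^ (i+1) * X i s - s) := by ring
    rw [e]
    exact dvd_sub h2 ((pow_dvd_pow _ (by omega)).trans h1)
  have hcop : IsCoprime ((q:ℤ) ^ (K - (i+1))) ((p:ℤ) ^ (i+1)) := by
    apply IsCoprime.pow
    exact (Nat.isCoprime_iff_coprime.mpr hc).symm
  unfold Car
  exact Int.mul_ediv_cancel' (hcop.dvd_of_dvd_mul_left h3)

lemma car_le (hq : 1 ≤ q) (hc : p.Coprime q) (hX : Reps p q K X) {i : ℕ} (hi : i + 1 < K) (s : ℤ) :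
    |Car p q K X i s| ≤ p + q := by
  have hspec := car_spec hc hX hi s
  have hQ : (0:ℤ) < (q:ℤ) ^ (K - (i+1)) := by positivity
  have h1 := (hX i (by omega) s).1
  have h2 := (hX (i+1) hi s).1
  have e : (q:ℤ) ^ (K - i) = q * (q:ℤ) ^ (K - (i+1)) := by
    rw [← pow_succ']; congr 1; omega
  rw [e] at h1
  have h3 : (q:ℤ) ^ (K - (i+1)) * |Car p q K X i s| ≤ p * |X (i+1) s| + |X i s| := by
    rw [← abs_of_pos hQ, ← abs_mul, hspec]
    refine (abs_sub _ _).trans ?_
    rw [abs_mul, Nat.abs_cast]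
  have hp0 : (0:ℤ) ≤ p := by positivity
  have hq0 : (0:ℤ) ≤ q := by positivity
  have h4 : (q:ℤ) ^ (K - (i+1)) * |Car p q K X i s| ≤ (q:ℤ) ^ (K - (i+1)) * (p + q) := by
    nlinarith [mul_le_mul_of_nonneg_left h2 hp0, abs_nonneg (X i s), abs_nonneg (X (i+1) s)]
  exact le_of_mul_le_mul_left h4 hQ

lemma car_zero (hq : 1 ≤ q) (hpq : q < p) (hc : p.Coprime q) (hX : Reps p q K X) {i : ℕ}
    (hi : i + 1 < K) (s : ℤ) (hg : ¬ GoodIdx p q K X i s) (hg' : ¬ GoodIdx p q K X (i+1) s) :
    Car p q K X i s = 0 := by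
  have hspec := car_spec hc hX hi s
  have hQ : (0:ℤ) < (q:ℤ) ^ (K - (i+1)) := by positivity
  unfold GoodIdx at hg hg'
  push Not at hg hg'
  have e : (q:ℤ) ^ (K - i) = q * (q:ℤ) ^ (K - (i+1)) := by
    rw [← pow_succ']; congr 1; omega
  rw [e] at hg
  have h3 : (q:ℤ) ^ (K - (i+1)) * |Car p q K X i s| ≤ p * |X (i+1) s| + |X i s| := by
    rw [← abs_of_pos hQ, ← abs_mul, hspec]
    refine (abs_sub _ _).trans ?_
    rw [abs_mul, Nat.abs_cast]
  have hp0 : (0:ℤ) < p := by exact_mod_cast (by omega : 0 < p)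
  have hq0 : (0:ℤ) < q := by exact_mod_cast hq
  have hpq0 : (0:ℤ) < p + q := by omega
  by_contra hne
  have h1 : 1 ≤ |Car p q K X i s| := Int.one_le_abs hne
  have h4 : ((p:ℤ) + q) * (q:ℤ) ^ (K - (i+1)) ≤ (p + q) * ((q:ℤ) ^ (K - (i+1)) * |Car p q K X i s|) := by
    apply mul_le_mul_of_nonneg_left _ hpq0.le
    nlinarith
  have h5 : ((p:ℤ) + q) * ((q:ℤ) ^ (K - (i+1)) * |Car p q K X i s|) ≤ (p+q) * (p * |X (i+1) s| + |X i s|) :=
    mul_le_mul_of_nonneg_left h3 hpq0.le
  have h6 := mul_lt_mul_of_pos_left hg' hp0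
  nlinarith

lemma window_inj (hq : 1 ≤ q) (hpq : q < p) (hc : p.Coprime q) (hX : Reps p q K X) {S T e w : ℕ}
    (he : e < K) (hw : w ≤ e) (hbal : Bal p q K S T e) (hTw : T * q ^ w ≤ p ^ w) {s s' : ℤ}
    (hss : |s - s'| < S) (h : ∀ i, e - w ≤ i → i < e → Car p q K X i s = Car p q K X i s') :
    s = s' := by
  by_contra hne
  have hy : ∀ j ≤ w, X (e - j) s - X (e - j) s' = (p:ℤ) ^ j * (X e s - X e s') := by
    intro j
    induction j with
    | zero => intro _; simp
    | succ j ih =>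
      intro hj
      have h1 := ih (by omega)
      have h2 := h (e - (j+1)) (by omega) (by omega)
      have h3 := car_spec hc hX (i := e - (j+1)) (by omega) s
      have h4 := car_spec hc hX (i := e - (j+1)) (by omega) s'
      rw [h2] at h3
      have e1 : e - (j+1) + 1 = e - j := by omega
      rw [e1] at h3 h4
      have h5 : (p:ℤ) * (X (e-j) s - X (e-j) s') = X (e - (j+1)) s - X (e - (j+1)) s' := by linarith
      rw [← h5, h1]; ring
  have hyw := hy w le_rfl
  have h1 := (hX (e-w) (by omega) s).1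
  have h2 := (hX (e-w) (by omega) s').1
  have hQ : (0:ℤ) < (q:ℤ) ^ (K - e) := by positivity
  have h3 : (p:ℤ) ^ w * |X e s - X e s'| ≤ (q:ℤ) ^ (K - e) * (q:ℤ) ^ w := by
    have e1 : (p:ℤ) ^ w * |X e s - X e s'| = |X (e-w) s - X (e-w) s'| := by
      rw [hyw, abs_mul, abs_of_nonneg (by positivity : (0:ℤ) ≤ (p:ℤ)^w)]
    have e2 : (q:ℤ) ^ (K - (e-w)) = (q:ℤ) ^ (K - e) * (q:ℤ) ^ w := by
      rw [← pow_add]; congr 1; omega
    rw [e1, ← e2]
    have := abs_sub (X (e-w) s) (X (e-w) s')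
    linarith
  have hlat : Lat p q K e (s - s') (X e s - X e s') := by
    have l1 := (hX e he s).2
    have l2 := (hX e he s').2
    unfold Lat at *
    have e1 : (p:ℤ) ^ (e+1) * (X e s - X e s') - (s - s') =
        ((p:ℤ) ^ (e+1) * X e s - s) - ((p:ℤ) ^ (e+1) * X e s' - s') := by ring
    rw [e1]
    exact dvd_sub l1 l2
  have h4 := hbal (s - s') _ (abs_pos.mpr (sub_ne_zero.mpr hne)) hss hlat
  have hpw : (0:ℤ) < (p:ℤ) ^ w := by
    have : (0:ℤ) < p := by exact_mod_cast (by omega : 0 < p)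
    positivity
  have hTw' : (T:ℤ) * (q:ℤ) ^ w ≤ (p:ℤ) ^ w := by exact_mod_cast hTw
  have h5 : (p:ℤ) ^ w * (q:ℤ) ^ (K - e) < (p:ℤ) ^ w * (T * |X e s - X e s'|) :=
    mul_lt_mul_of_pos_left h4 hpw
  have hT0 : (0:ℤ) ≤ T := by positivity
  have h6 : (T:ℤ) * ((p:ℤ) ^ w * |X e s - X e s'|) ≤ T * ((q:ℤ) ^ (K - e) * (q:ℤ) ^ w) :=
    mul_le_mul_of_nonneg_left h3 hT0
  have h7 : (q:ℤ) ^ (K - e) * (T * (q:ℤ) ^ w) ≤ (q:ℤ) ^ (K - e) * (p:ℤ) ^ w :=
    mul_le_mul_of_nonneg_left hTw' hQ.le
  linarith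

/-- number of the words of length `w` over `{-U, …, U}` with at most `r` nonzero letters -/
noncomputable def E0 (w r U : ℕ) : ℕ :=
  ((Fintype.piFinset (fun _ : Fin w => Finset.Icc (-(U:ℤ)) U)).filter
    (fun u => (Finset.univ.filter (fun j => u j ≠ 0)).card ≤ r)).card

lemma E0_le (w r U : ℕ) {z : ℝ} (hz0 : 0 < z) (hz1 : z ≤ 1) :
    (E0 w r U : ℝ) * z ^ r ≤ (1 + 2 * U * z) ^ w := by
  have h1 : ∏ _j : Fin w, ∑ v ∈ Finset.Icc (-(U:ℤ)) U, (if v = 0 then (1:ℝ) else z) =
      (1 + 2 * U * z) ^ w := by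
    rw [Finset.prod_const, Finset.card_univ, Fintype.card_fin]
    congr 1
    have e1 : ∀ v ∈ Finset.Icc (-(U:ℤ)) U, (if v = 0 then (1:ℝ) else z) =
        z + if v = 0 then (1 - z) else 0 := by
      intro v _
      split_ifs <;> ring
    rw [Finset.sum_congr rfl e1, Finset.sum_add_distrib, Finset.sum_const, Int.card_Icc,
      Finset.sum_ite_eq' (Finset.Icc (-(U:ℤ)) U) (0:ℤ), if_pos (by simp)]
    have e2 : ((U:ℤ) + 1 - (-(U:ℤ))).toNat = 2 * U + 1 := by omega
    rw [e2, nsmul_eq_mul]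
    push_cast
    ring
  rw [← h1, Finset.prod_univ_sum]
  unfold E0
  rw [← nsmul_eq_mul, ← Finset.sum_const]
  have h2 : ∀ u : Fin w → ℤ, (∏ j, (if u j = 0 then (1:ℝ) else z)) =
      z ^ (Finset.univ.filter (fun j => u j ≠ 0)).card := by
    intro u
    rw [Finset.prod_ite, Finset.prod_const_one, one_mul, Finset.prod_const]
  calc ∑ _u ∈ (Fintype.piFinset (fun _ : Fin w => Finset.Icc (-(U:ℤ)) U)).filter
          (fun u => (Finset.univ.filter (fun j => u j ≠ 0)).card ≤ r), z ^ r
      ≤ ∑ u ∈ (Fintype.piFinset (fun _ : Fin w => Finset.Icc (-(U:ℤ)) U)).filter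
          (fun u => (Finset.univ.filter (fun j => u j ≠ 0)).card ≤ r),
          ∏ j, (if u j = 0 then (1:ℝ) else z) := by
        apply Finset.sum_le_sum
        intro u hu
        rw [h2 u]
        exact pow_le_pow_of_le_one hz0.le hz1 (Finset.mem_filter.mp hu).2
    _ ≤ ∑ u ∈ Fintype.piFinset (fun _ : Fin w => Finset.Icc (-(U:ℤ)) U),
          ∏ j, (if u j = 0 then (1:ℝ) else z) := by
        apply Finset.sum_le_sum_of_subset_of_nonneg (Finset.filter_subset _ _)
        intro u _ _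
        rw [h2 u]
        positivity

open Classical in
lemma window_exc (hq : 1 ≤ q) (hpq : q < p) (hc : p.Coprime q) (hX : Reps p q K X) {S T e w g : ℕ}
    (he : e < K) (hw : w ≤ e) (hbal : Bal p q K S T e) (hTw : T * q ^ w ≤ p ^ w)
    (A : Finset ℤ) (hA : ∀ s ∈ A, ∀ s' ∈ A, |s - s'| < S) :
    (A.filter (fun s => ((Finset.Icc (e - w) e).filter (fun i => GoodIdx p q K X i s)).card < g)).card
      ≤ E0 w (2 * g) (p + q) := by
  unfold E0
  apply Finset.card_le_card_of_injOn (fun s => fun j : Fin w => Car p q K X (e - w + j) s)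
  · intro s hs
    simp only [Finset.coe_filter, Set.mem_ofPred_eq] at hs ⊢
    constructor
    · rw [Fintype.mem_piFinset]
      intro j
      rw [Finset.mem_Icc]
      have := car_le hq hc hX (i := e - w + j) (by omega) s
      rw [abs_le] at this
      push_cast
      exact this
    · have h1 : (Finset.univ.filter (fun j : Fin w => Car p q K X (e - w + j) s ≠ 0)).card ≤
          ((Finset.univ.filter (fun j : Fin w => GoodIdx p q K X (e - w + j) s)) ∪
          (Finset.univ.filter (fun j : Fin w => GoodIdx p q K X (e - w + j + 1) s))).card := by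
        apply Finset.card_le_card
        intro j hj
        simp only [Finset.mem_filter, Finset.mem_univ, true_and, Finset.mem_union] at hj ⊢
        by_contra hcon
        push Not at hcon
        exact hj (car_zero hq hpq hc hX (by omega) s hcon.1 hcon.2)
      have h2 : (Finset.univ.filter (fun j : Fin w => GoodIdx p q K X (e - w + j) s)).card ≤
          ((Finset.Icc (e - w) e).filter (fun i => GoodIdx p q K X i s)).card := by
        apply Finset.card_le_card_of_injOn (fun j : Fin w => e - w + j)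
        · intro j hj
          simp only [Finset.coe_filter, Finset.mem_univ, true_and, Set.mem_ofPred_eq,
            Finset.mem_Icc] at hj ⊢
          exact ⟨by omega, hj⟩
        · intro j _ j' _ h
          have : e - w + (j:ℕ) = e - w + (j':ℕ) := h
          exact Fin.ext (by omega)
      have h3 : (Finset.univ.filter (fun j : Fin w => GoodIdx p q K X (e - w + j + 1) s)).card ≤
          ((Finset.Icc (e - w) e).filter (fun i => GoodIdx p q K X i s)).card := by
        apply Finset.card_le_card_of_injOn (fun j : Fin w => e - w + j + 1)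
        · intro j hj
          simp only [Finset.coe_filter, Finset.mem_univ, true_and, Set.mem_ofPred_eq,
            Finset.mem_Icc] at hj ⊢
          exact ⟨by omega, hj⟩
        · intro j _ j' _ h
          have : e - w + (j:ℕ) + 1 = e - w + (j':ℕ) + 1 := h
          exact Fin.ext (by omega)
      have h4 := Finset.card_union_le
        (Finset.univ.filter (fun j : Fin w => GoodIdx p q K X (e - w + j) s))
        (Finset.univ.filter (fun j : Fin w => GoodIdx p q K X (e - w + j + 1) s))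
      omega
  · intro s hs s' hs' h
    simp only [Finset.coe_filter, Set.mem_ofPred_eq] at hs hs'
    apply window_inj hq hpq hc hX he hw hbal hTw (hA s hs.1 s' hs'.1)
    intro i h1 h2
    have h3 := congrFun h ⟨i - (e - w), by omega⟩
    simp only at h3
    have e1 : e - w + (i - (e - w)) = i := by omega
    rwa [e1] at h3

lemma index_bound {c M t : ℕ} (hq : 1 ≤ q) (hpq : q < p) (hc1 : 1 ≤ c) (hcq : q ^ c ≤ p ^ (c - 1))
    (hM : 1 ≤ M) (h : p ^ (t - 1) ≤ q ^ M) : M ≤ c * (M - t + 1) := by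
  by_contra hcon
  push Not at hcon
  rcases Nat.lt_or_ge M t with hMt | hMt
  · have h1 : q ^ M < p ^ M := Nat.pow_lt_pow_left hpq (by omega)
    have h2 : p ^ M ≤ p ^ (t-1) := Nat.pow_le_pow_right (by omega) (by omega)
    omega
  · obtain ⟨r, rfl⟩ := Nat.exists_eq_add_of_le hMt
    have e0 : t + r - t = r := by omega
    rw [e0] at hcon
    obtain ⟨c', rfl⟩ : ∃ c', c = c' + 1 := ⟨c - 1, by omega⟩
    have e1 : c' + 1 - 1 = c' := by omega
    rw [e1] at hcq
    rcases Nat.eq_zero_or_pos t with ht0 | ht0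
    · subst ht0
      nlinarith
    obtain ⟨t', rfl⟩ : ∃ t', t = t' + 1 := ⟨t - 1, by omega⟩
    have e2 : t' + 1 - 1 = t' := by omega
    rw [e2] at h
    have h1 : c' * (t' + 1 + r) + 1 ≤ (c' + 1) * t' := by nlinarith
    have h2 : (p ^ t') ^ (c' + 1) ≤ (q ^ (t' + 1 + r)) ^ (c' + 1) := Nat.pow_le_pow_left h _
    have h3 : (q ^ (t' + 1 + r)) ^ (c' + 1) ≤ (p ^ c') ^ (t' + 1 + r) := by
      rw [← pow_mul, mul_comm, pow_mul]
      exact Nat.pow_le_pow_left hcq _
    have h4 : (p ^ c') ^ (t' + 1 + r) < (p ^ t') ^ (c' + 1) := by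
      rw [← pow_mul, ← pow_mul]
      apply Nat.pow_lt_pow_right (by omega)
      rw [mul_comm t']
      omega
    omega

open Classical in
/-- Frequencies with fewer than `g h` good indices. -/
theorem exc_count (hq : 2 ≤ q) (hpq : q < p) (hc : p.Coprime q) (hX : Reps p q K X)
    {S T w a c Z g : ℕ} (hS1 : 1 ≤ S) (hSa : S ≤ 2 ^ a) (hT : T = 2 * p ^ (a + 1) * S ^ 2)
    (hTw : T * q ^ w ≤ p ^ w) (hc1 : 1 ≤ c) (hcq : q ^ c ≤ p ^ (c - 1)) (hZ : w + 2 + 2 * a ≤ Z) :
    ∀ h i0 : ℕ, (2 * c) ^ h * Z ≤ K - i0 → ∀ A : Finset ℤ, (∀ s ∈ A, ∀ s' ∈ A, |s - s'| < S) →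
      (A.filter (fun s => ((Finset.Ico i0 K).filter (fun i => GoodIdx p q K X i s)).card < g * h)).card
        ≤ h * E0 w (2 * g) (p + q) := by
  intro h
  induction h with
  | zero => intro i0 _ A _; simp
  | succ h ih =>
    intro i0 hK A hA
    set Y := (2 * c) ^ h * Z with hY
    have hYZ : Z ≤ Y := Nat.le_mul_of_pos_left _ (by positivity)
    have hK' : 2 * (c * Y) ≤ K - i0 := by
      calc 2 * (c * Y) = (2 * c) ^ (h+1) * Z := by rw [hY]; ring
        _ ≤ _ := hK
    have hcY : Y ≤ c * Y := Nat.le_mul_of_pos_left _ hc1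
    have hSK : S ≤ q ^ (K - (i0 + w)) := by
      refine hSa.trans ?_
      calc 2 ^ a ≤ q ^ a := Nat.pow_le_pow_left hq _
        _ ≤ _ := Nat.pow_le_pow_right (by omega) (by omega)
    obtain ⟨t, hbal, ht⟩ := exists_bal hq hpq hc hS1 hSa hSK hT
    set e := i0 + w + t with he
    have hKe : Y ≤ K - (e + 1) := by
      rcases ht with ht | ht
      · omega
      · have h1 := index_bound (by omega) hpq hc1 hcq (by omega) ht
        have h2 : K - (i0 + w) - t = K - e := by omega
        rw [h2] at h1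
        have h3 : c * (2 * Y) ≤ c * (K - e + 1 + w) := by
          have : w ≤ c * w := Nat.le_mul_of_pos_left _ hc1
          calc c * (2 * Y) = 2 * (c * Y) := by ring
            _ ≤ K - i0 := hK'
            _ ≤ K - (i0 + w) + w := by omega
            _ ≤ c * (K - e + 1) + c * w := by omega
            _ = _ := by ring
        have h4 := Nat.le_of_mul_le_mul_left h3 hc1
        omega
    have heK : e < K := by omega
    have hwin := window_exc (g := g) (by omega) hpq hc hX heK (by omega) hbal hTw A hA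
    have hrec := ih (e + 1) hKe A hA
    have hsub : A.filter (fun s => ((Finset.Ico i0 K).filter (fun i => GoodIdx p q K X i s)).card < g * (h+1)) ⊆
        A.filter (fun s => ((Finset.Icc (e - w) e).filter (fun i => GoodIdx p q K X i s)).card < g) ∪
        A.filter (fun s => ((Finset.Ico (e+1) K).filter (fun i => GoodIdx p q K X i s)).card < g * h) := by
      intro s hs
      simp only [Finset.mem_filter, Finset.mem_union] at hs ⊢
      by_contra hcon
      push Not at hcon
      have h1 := hcon.1 hs.1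
      have h2 := hcon.2 hs.1
      have h3 : ((Finset.Icc (e - w) e).filter (fun i => GoodIdx p q K X i s)).card +
          ((Finset.Ico (e+1) K).filter (fun i => GoodIdx p q K X i s)).card ≤
          ((Finset.Ico i0 K).filter (fun i => GoodIdx p q K X i s)).card := by
        rw [← Finset.card_union_of_disjoint]
        · apply Finset.card_le_card
          intro i hi
          simp only [Finset.mem_union, Finset.mem_filter, Finset.mem_Icc, Finset.mem_Ico] at hi ⊢
          rcases hi with hi | hi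
          · exact ⟨by omega, hi.2⟩
          · exact ⟨by omega, hi.2⟩
        · rw [Finset.disjoint_left]
          intro i hi hi'
          simp only [Finset.mem_filter, Finset.mem_Icc, Finset.mem_Ico] at hi hi'
          omega
      have h4 := hs.2
      rw [mul_add, mul_one] at h4
      omega
    calc _ ≤ _ := Finset.card_le_card hsub
      _ ≤ _ := Finset.card_union_le _ _
      _ ≤ E0 w (2 * g) (p + q) + h * E0 w (2 * g) (p + q) := Nat.add_le_add hwin hrec
      _ = (h + 1) * E0 w (2 * g) (p + q) := by ring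

end

end Pool.Agent.H417_rb
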