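import Pool.Agent.H417_rb.Ceil
import Pool.Agent.H417_rb.Windows

set_option autoImplicit false

/-!
# Counting orbits with restricted digits by exponential sums
-/

namespace Pool.Agent.H417_rb

open Finset Complex

/-- `e(x)` -/
noncomputable def ee (x : ℝ) : ℂ := Complex.exp (((2 * Real.pi * x : ℝ) : ℂ) * I)

lemma ee_zero : ee 0 = 1 := by simp [ee]

lemma ee_add (x y : ℝ) : ee (x + y) = ee x * ee y := by
  unfold ee
  rw [← Complex.exp_add]
  congr 1
  push_cast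
  ring

lemma ee_int (n : ℤ) : ee n = 1 := by
  unfold ee
  have := Complex.exp_int_mul_two_pi_mul_I n
  rw [← this]
  congr 1
  push_cast
  ring

lemma ee_congr {x y : ℝ} (n : ℤ) (h : x - y = n) : ee x = ee y := by
  have : x = y + n := by linarith
  rw [this, ee_add, ee_int, mul_one]

lemma norm_ee (x : ℝ) : ‖ee x‖ = 1 := Complex.norm_exp_ofReal_mul_I _

lemma conj_ee (x : ℝ) : (starRingEnd ℂ) (ee x) = ee (-x) := by
  unfold ee
  rw [← Complex.exp_conj]
  congr 1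
  rw [map_mul, Complex.conj_ofReal, Complex.conj_I]
  push_cast
  ring

lemma ee_sum {ι : Type*} (s : Finset ι) (f : ι → ℝ) : ee (∑ i ∈ s, f i) = ∏ i ∈ s, ee (f i) := by
  classical
  induction s using Finset.induction_on with
  | empty => simp [ee_zero]
  | insert a s ha ih => rw [Finset.sum_insert ha, Finset.prod_insert ha, ee_add, ih]

lemma ee_re (x : ℝ) : (ee x).re = Real.cos (2 * Real.pi * x) := by
  unfold ee
  exact Complex.exp_ofReal_mul_I_re _

lemma ee_im (x : ℝ) : (ee x).im = Real.sin (2 * Real.pi * x) := by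
  unfold ee
  exact Complex.exp_ofReal_mul_I_im _

/-- `|1 + e(t)| ≤ 2 - 4 t²` for `|t| ≤ 1/2` -/
lemma norm_one_add_ee {t : ℝ} (ht : |t| ≤ 1/2) : ‖1 + ee t‖ ≤ 2 - 4 * t ^ 2 := by
  have ht2 : t ^ 2 ≤ 1/4 := by
    have := sq_le_sq' (by linarith [abs_nonneg t] : -(1/2:ℝ) ≤ |t|) ht
    rw [sq_abs] at this
    linarith
  have h1 : ‖1 + ee t‖ ^ 2 = 2 + 2 * Real.cos (2 * Real.pi * t) := by
    rw [← Complex.normSq_eq_norm_sq, Complex.normSq_apply]
    simp only [Complex.add_re, Complex.one_re, Complex.add_im, Complex.one_im, ee_re, ee_im, zero_add]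
    have := Real.sin_sq_add_cos_sq (2 * Real.pi * t)
    nlinarith
  have hpi := Real.pi_pos
  have h2 : Real.cos (2 * Real.pi * t) ≤ 1 - 8 * t ^ 2 := by
    have h3 := Real.cos_le_one_sub_mul_cos_sq (x := 2 * Real.pi * t) (by
      rw [abs_mul, abs_of_pos (by positivity)]
      nlinarith)
    refine h3.trans (le_of_eq ?_)
    field_simp
    ring
  have h4 : ‖1 + ee t‖ ^ 2 ≤ (2 - 4 * t ^ 2) ^ 2 := by
    rw [h1]
    nlinarith [sq_nonneg (t^2)]
  exact (abs_le_of_sq_le_sq' h4 (by linarith)).2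

lemma digit_sum {p q : ℕ} (hq : 1 ≤ q) (n K : ℕ) :
    p ^ K * n + ∑ i ∈ Finset.range K, dig p q ((g p q)^[i] n) * p ^ (K - 1 - i) * q ^ i =
      q ^ K * (g p q)^[K] n := by
  induction K with
  | zero => simp
  | succ K ih =>
    have e0 : q ^ (K+1) * g p q ((g p q)^[K] n) =
        q ^ K * (p * (g p q)^[K] n + dig p q ((g p q)^[K] n)) := by
      rw [← dig_spec (p := p) hq ((g p q)^[K] n), pow_succ]; ring
    rw [Finset.sum_range_succ, Function.iterate_succ_apply', e0]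
    have e1 : ∑ i ∈ Finset.range K, dig p q ((g p q)^[i] n) * p ^ (K + 1 - 1 - i) * q ^ i =
        p * ∑ i ∈ Finset.range K, dig p q ((g p q)^[i] n) * p ^ (K - 1 - i) * q ^ i := by
      rw [Finset.mul_sum]
      apply Finset.sum_congr rfl
      intro i hi
      have hi := Finset.mem_range.mp hi
      have e : K + 1 - 1 - i = (K - 1 - i) + 1 := by omega
      rw [e, pow_succ]
      ring
    rw [e1]
    have e2 : K + 1 - 1 - K = 0 := by omega
    rw [e2, pow_zero, mul_one, mul_add, ← mul_assoc, mul_comm (q ^ K) p, mul_assoc, ← ih]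
    ring

/-- Lower bound of the kernel near the origin. -/
lemma kernel_lower {R : ℕ} {y : ℝ} (h0 : 0 ≤ y) (h1 : R * y ≤ 1/8) :
    (R:ℝ) ^ 2 ≤ 2 * Complex.normSq (∑ j ∈ Finset.range R, ee (j * y)) := by
  have hpi := Real.pi_pos
  have hre : (R:ℝ) * (Real.sqrt 2 / 2) ≤ (∑ j ∈ Finset.range R, ee (j * y)).re := by
    rw [Complex.re_sum]
    have h2 : ∀ j ∈ Finset.range R, Real.sqrt 2 / 2 ≤ (ee (j * y)).re := by
      intro j hj
      have hj := Finset.mem_range.mp hj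
      rw [ee_re, ← Real.cos_pi_div_four]
      have hj2 : (j:ℝ) * y ≤ 1/8 := by
        refine le_trans ?_ h1
        have : (j:ℝ) ≤ R := by exact_mod_cast hj.le
        gcongr
      have hj0 : 0 ≤ (j:ℝ) * y := by positivity
      apply Real.cos_le_cos_of_nonneg_of_le_pi (by positivity) (by linarith)
      nlinarith
    calc (R:ℝ) * (Real.sqrt 2 / 2) = ∑ _j ∈ Finset.range R, Real.sqrt 2 / 2 := by
          rw [Finset.sum_const, Finset.card_range, nsmul_eq_mul]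
      _ ≤ _ := Finset.sum_le_sum h2
  rw [Complex.normSq_apply]
  have hs : Real.sqrt 2 ^ 2 = 2 := Real.sq_sqrt (by norm_num)
  have hR0 : 0 ≤ (R:ℝ) * (Real.sqrt 2 / 2) := by positivity
  have h3 := mul_self_le_mul_self hR0 hre
  nlinarith [mul_self_nonneg (∑ j ∈ Finset.range R, ee (j * y)).im]

/-- expansion of the kernel -/
lemma kernel_expand (R : ℕ) (y : ℝ) :
    ((Complex.normSq (∑ j ∈ Finset.range R, ee (j * y)) : ℝ) : ℂ) =
      ∑ j ∈ Finset.range R, ∑ j' ∈ Finset.range R, ee (((j:ℤ) - (j':ℤ) : ℤ) * y) := by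
  rw [← Complex.mul_conj, map_sum, Finset.sum_mul_sum]
  apply Finset.sum_congr rfl
  intro j _
  apply Finset.sum_congr rfl
  intro j' _
  rw [conj_ee, ← ee_add]
  congr 1
  push_cast
  ring

section
variable {p q K : ℕ} {X : ℕ → ℤ → ℤ}

/-- bound for one factor -/
lemma factor_bound (hq : 1 ≤ q) {P : ℕ} (hP : (q:ℤ) ^ K ∣ (P:ℤ) * p ^ K - 1) (hX : Reps p q K X)
    {D : Finset ℕ} {b0 b1 : ℕ} (h0 : b0 ∈ D) (h1 : b1 ∈ D) (h01 : b0 < b1) {i : ℕ} (hi : i < K)
    (s : ℤ) :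
    ‖∑ b ∈ D, ee (-((b:ℝ) * ((s:ℝ) * P * p ^ (K - 1 - i) / q ^ (K - i))))‖ ≤
      (D.card : ℝ) - 4 * ((X i ((b1 - b0 : ℕ) * s) : ℝ) / q ^ (K - i)) ^ 2 := by
  classical
  have hq0 : (0:ℝ) < q := by exact_mod_cast hq
  set y := (s:ℝ) * P * p ^ (K - 1 - i) / q ^ (K - i) with hy
  set Δ := b1 - b0 with hΔ
  set t := (X i (Δ * s) : ℝ) / q ^ (K - i) with ht
  have hXi := hX i hi (Δ * s)
  have htabs : |t| ≤ 1/2 := by
    rw [ht, abs_div, abs_of_pos (by positivity : (0:ℝ) < (q:ℝ) ^ (K-i)), div_le_iff₀ (by positivity)]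
    have := hXi.1
    have h2 : 2 * |(X i (Δ * s) : ℝ)| ≤ (q:ℝ) ^ (K - i) := by exact_mod_cast this
    linarith
  -- Δ y - t is an integer
  have hint : ∃ n : ℤ, (Δ:ℝ) * y - t = n := by
    have hl := hXi.2
    unfold Lat at hl
    have hd : (q:ℤ) ^ (K - i) ∣ Δ * s * P * p ^ (K - 1 - i) - X i (Δ * s) := by
      have e1 : (Δ:ℤ) * s * P * p ^ (K - 1 - i) - X i (Δ * s) =
          ((P:ℤ) * p ^ K - 1) * X i (Δ * s) -
          (P:ℤ) * p ^ (K - 1 - i) * ((p:ℤ) ^ (i+1) * X i (Δ * s) - Δ * s) := by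
        have e2 : (p:ℤ) ^ K = p ^ (K - 1 - i) * p ^ (i+1) := by
          rw [← pow_add]; congr 1; omega
        rw [e2]; ring
      rw [e1]
      exact dvd_sub (((pow_dvd_pow _ (by omega)).trans hP).mul_right _) (hl.mul_left _)
    obtain ⟨n, hn⟩ := hd
    refine ⟨n, ?_⟩
    rw [hy, ht]
    have hn' : (Δ:ℝ) * s * P * p ^ (K - 1 - i) - X i (Δ * s) = (q:ℝ) ^ (K - i) * n := by
      exact_mod_cast hn
    have hQ : (q:ℝ) ^ (K - i) ≠ 0 := by positivity
    field_simp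
    linarith
  obtain ⟨n, hn⟩ := hint
  have hpair : {b0, b1} ⊆ D := by
    intro b hb
    simp only [Finset.mem_insert, Finset.mem_singleton] at hb
    rcases hb with rfl | rfl <;> assumption
  rw [← Finset.sum_sdiff hpair]
  have hrest : ‖∑ b ∈ D \ {b0, b1}, ee (-((b:ℝ) * y))‖ ≤ (D.card : ℝ) - 2 := by
    refine (norm_sum_le _ _).trans ?_
    have e1 : ∀ b ∈ D \ {b0, b1}, ‖ee (-((b:ℝ) * y))‖ = 1 := fun b _ => norm_ee _
    rw [Finset.sum_congr rfl e1, Finset.sum_const, nsmul_eq_mul, mul_one,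
      Finset.card_sdiff_of_subset hpair, Finset.card_pair h01.ne]
    have : 2 ≤ D.card := by
      have := Finset.card_le_card hpair
      rwa [Finset.card_pair h01.ne] at this
    rw [Nat.cast_sub this]
    push_cast
    exact le_rfl
  have hpairsum : ‖∑ b ∈ {b0, b1}, ee (-((b:ℝ) * y))‖ ≤ 2 - 4 * t ^ 2 := by
    rw [Finset.sum_pair h01.ne]
    have e1 : ee (-((b1:ℝ) * y)) = ee (-((b0:ℝ) * y)) * ee (-t) := by
      rw [← ee_add]
      apply ee_congr (-n)
      have : (b1:ℝ) = b0 + Δ := by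
        rw [hΔ, Nat.cast_sub h01.le]; ring
      rw [this]
      push_cast
      linarith
    rw [e1]
    have e2 : ee (-((b0:ℝ) * y)) + ee (-((b0:ℝ) * y)) * ee (-t) = ee (-((b0:ℝ) * y)) * (1 + ee (-t)) := by
      ring
    rw [e2, norm_mul, norm_ee, one_mul]
    have := norm_one_add_ee (t := -t) (by rwa [abs_neg])
    rwa [neg_sq] at this
  calc _ ≤ ‖∑ b ∈ D \ {b0, b1}, ee (-((b:ℝ) * y))‖ + ‖∑ b ∈ {b0, b1}, ee (-((b:ℝ) * y))‖ := norm_add_le _ _
    _ ≤ ((D.card : ℝ) - 2) + (2 - 4 * t ^ 2) := add_le_add hrest hpairsum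
    _ = _ := by ring

/-- The counting inequality. -/
theorem card_mul_sq_le (hq : 2 ≤ q) {P : ℕ} (hP : (q:ℤ) ^ K ∣ (P:ℤ) * p ^ K - 1)
    (hX : Reps p q K X) {D : Finset ℕ} {b0 b1 : ℕ} (h0 : b0 ∈ D) (h1 : b1 ∈ D) (h01 : b0 < b1)
    {R H : ℕ} (hR : 1 ≤ R) (hRH : 8 * R * H ≤ q ^ K) (T : Finset ℕ) (hT : ∀ m ∈ T, ∀ n ∈ T, n < m + H)
    (hdig : ∀ n ∈ T, ∀ i < K, dig p q ((g p q)^[i] n) ∈ D) :
    (T.card : ℝ) * R ^ 2 ≤ 2 * ∑ j ∈ Finset.range R, ∑ j' ∈ Finset.range R,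
      ∏ i ∈ Finset.range K, ((D.card : ℝ) -
        4 * ((X i ((b1 - b0 : ℕ) * ((j:ℤ) - (j':ℤ))) : ℝ) / q ^ (K - i)) ^ 2) := by
  classical
  have hq0 : (0:ℝ) < q := by exact_mod_cast (by omega : 0 < q)
  have hfac0 : ∀ (j j' : ℕ), ∀ i ∈ Finset.range K, 0 ≤ (D.card : ℝ) -
        4 * ((X i ((b1 - b0 : ℕ) * ((j:ℤ) - (j':ℤ))) : ℝ) / q ^ (K - i)) ^ 2 := by
    intro j j' i hi
    exact (norm_nonneg _).trans (factor_bound (by omega) hP hX h0 h1 h01 (Finset.mem_range.mp hi)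
      ((j:ℤ) - (j':ℤ)))
  rcases T.eq_empty_or_nonempty with rfl | hne
  · simp only [Finset.card_empty, Nat.cast_zero, zero_mul]
    apply mul_nonneg (by norm_num)
    apply Finset.sum_nonneg
    intro j _
    apply Finset.sum_nonneg
    intro j' _
    exact Finset.prod_nonneg (hfac0 j j')
  obtain ⟨a, haT, hamin⟩ := Finset.exists_min_image T id hne
  simp only [id_eq] at hamin
  -- the phase of a word
  set θ : (Fin K → ℕ) → ℝ := fun v =>
    -(((P:ℝ) * ∑ i : Fin K, (v i : ℝ) * p ^ (K - 1 - (i:ℕ)) * q ^ (i:ℕ)) + a) / q ^ K with hθ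
  set word : ℕ → (Fin K → ℕ) := fun n => fun i => dig p q ((g p q)^[(i:ℕ)] n) with hword
  have hwordsum : ∀ n, ∑ i : Fin K, word n i * p ^ (K - 1 - (i:ℕ)) * q ^ (i:ℕ) =
      ∑ i ∈ Finset.range K, dig p q ((g p q)^[i] n) * p ^ (K - 1 - i) * q ^ i := by
    intro n
    rw [Finset.sum_range]
  have hcong : ∀ n : ℕ, ∃ z : ℤ, (((n:ℝ) - a) / q ^ K) - θ (word n) = z := by
    intro n
    have h2 := digit_sum (p := p) (q := q) (by omega) n K
    rw [← hwordsum] at h2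
    set Wn := ∑ i : Fin K, word n i * p ^ (K - 1 - (i:ℕ)) * q ^ (i:ℕ) with hWn
    have hd : (q:ℤ) ^ K ∣ (n:ℤ) + P * Wn := by
      have e1 : (n:ℤ) + P * Wn = P * ((p:ℤ) ^ K * n + Wn) - ((P:ℤ) * p ^ K - 1) * n := by ring
      rw [e1]
      have h3 : ((p:ℤ) ^ K * n + Wn) = (q:ℤ) ^ K * ((g p q)^[K] n : ℕ) := by exact_mod_cast h2
      rw [h3]
      exact dvd_sub ((dvd_mul_right _ _).mul_left _) (hP.mul_right _)
    obtain ⟨z, hz⟩ := hd
    refine ⟨z, ?_⟩
    have hz' : (n:ℝ) + P * Wn = (q:ℝ) ^ K * z := by exact_mod_cast hz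
    have hWr : (Wn : ℝ) = ∑ i : Fin K, (word n i : ℝ) * p ^ (K - 1 - (i:ℕ)) * q ^ (i:ℕ) := by
      rw [hWn]; push_cast; rfl
    simp only [hθ]
    rw [← hWr]
    have hQ : (q:ℝ) ^ K ≠ 0 := by positivity
    field_simp
    linarith
  -- the kernel of the words
  set Fw : (Fin K → ℕ) → ℝ := fun v =>
    Complex.normSq (∑ j ∈ Finset.range R, ee (j * θ v)) with hFw
  have hstep1 : ∀ n ∈ T, (R:ℝ) ^ 2 ≤ 2 * Fw (word n) := by
    intro n hn
    obtain ⟨z, hz⟩ := hcong n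
    have h2 : ∑ j ∈ Finset.range R, ee (j * θ (word n)) =
        ∑ j ∈ Finset.range R, ee (j * (((n:ℝ) - a) / q ^ K)) := by
      apply Finset.sum_congr rfl
      intro j _
      apply ee_congr (-(j * z))
      push_cast
      rw [← hz]; ring
    simp only [hFw]
    rw [h2]
    have hna : a ≤ n := hamin n hn
    have hnH : n < a + H := hT a haT n hn
    have hnr : 0 ≤ (n:ℝ) - a := by
      have : (a:ℝ) ≤ n := by exact_mod_cast hna
      linarith
    apply kernel_lower (by positivity)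
    have h3 : (n:ℝ) - a ≤ H := by
      have : (n:ℝ) < a + H := by exact_mod_cast hnH
      linarith
    have h4 : (8:ℝ) * R * H ≤ (q:ℝ) ^ K := by exact_mod_cast hRH
    rw [← mul_div_assoc, div_le_iff₀ (by positivity)]
    have : (R:ℝ) * ((n:ℝ) - a) ≤ R * H := by gcongr
    linarith
  have hinj : Set.InjOn word (T : Set ℕ) := by
    intro n hn n' hn' h
    have hn := Finset.mem_coe.mp hn
    have hn' := Finset.mem_coe.mp hn'
    have h2 := digit_sum (p := p) (q := q) (by omega) n K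
    have h3 := digit_sum (p := p) (q := q) (by omega) n' K
    rw [← hwordsum] at h2 h3
    rw [h] at h2
    -- q^K ∣ n - n'
    have hd : (q:ℤ) ^ K ∣ (n:ℤ) - n' := by
      set Wn := ∑ i : Fin K, word n' i * p ^ (K - 1 - (i:ℕ)) * q ^ (i:ℕ) with hWn
      have e2 : ((p:ℤ) ^ K * n + Wn) = (q:ℤ) ^ K * ((g p q)^[K] n : ℕ) := by exact_mod_cast h2
      have e3 : ((p:ℤ) ^ K * n' + Wn) = (q:ℤ) ^ K * ((g p q)^[K] n' : ℕ) := by exact_mod_cast h3
      have e1 : (n:ℤ) - n' = P * (((p:ℤ) ^ K * n + Wn) - ((p:ℤ) ^ K * n' + Wn)) -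
          ((P:ℤ) * p ^ K - 1) * (n - n') := by ring
      rw [e1, e2, e3]
      exact dvd_sub ((dvd_sub (dvd_mul_right _ _) (dvd_mul_right _ _)).mul_left _) (hP.mul_right _)
    have hlt : |(n:ℤ) - n'| < (q:ℤ) ^ K := by
      have h4 := hT n hn n' hn'
      have h5 := hT n' hn' n hn
      have h6 : (H:ℤ) ≤ (q:ℤ) ^ K := by
        have : H ≤ q ^ K := by nlinarith
        exact_mod_cast this
      rw [abs_lt]
      constructor <;> omega
    have h0' := Int.eq_zero_of_abs_lt_dvd hd hlt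
    omega
  have hstep2 : ∑ n ∈ T, Fw (word n) ≤ ∑ v ∈ Fintype.piFinset (fun _ : Fin K => D), Fw v := by
    rw [← Finset.sum_image hinj]
    apply Finset.sum_le_sum_of_subset_of_nonneg
    · intro v hv
      rw [Finset.mem_image] at hv
      obtain ⟨n, hn, rfl⟩ := hv
      rw [Fintype.mem_piFinset]
      intro i
      exact hdig n hn i i.2
    · intro v _ _
      exact Complex.normSq_nonneg _
  -- the sum over all words
  have hword_sum : ∀ s : ℤ, ‖∑ v ∈ Fintype.piFinset (fun _ : Fin K => D), ee ((s:ℝ) * θ v)‖ ≤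
      ∏ i ∈ Finset.range K, ((D.card : ℝ) -
        4 * ((X i ((b1 - b0 : ℕ) * s) : ℝ) / q ^ (K - i)) ^ 2) := by
    intro s
    have e1 : ∀ v : Fin K → ℕ, ee ((s:ℝ) * θ v) = ee (-((s:ℝ) * a / q ^ K)) *
        ∏ i : Fin K, ee (-((v i:ℝ) * ((s:ℝ) * P * p ^ (K - 1 - (i:ℕ)) / q ^ (K - (i:ℕ))))) := by
      intro v
      rw [← ee_sum, ← ee_add]
      congr 1
      simp only [hθ]
      have e2 : ∀ i : Fin K, (v i:ℝ) * ((s:ℝ) * P * p ^ (K - 1 - (i:ℕ)) / q ^ (K - (i:ℕ))) =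
          (s:ℝ) * (P * ((v i:ℝ) * p ^ (K - 1 - (i:ℕ)) * q ^ (i:ℕ))) / q ^ K := by
        intro i
        have e3 : (q:ℝ) ^ K = q ^ (K - (i:ℕ)) * q ^ (i:ℕ) := by
          rw [← pow_add]; congr 1; have := i.2; omega
        rw [e3]
        field_simp
      rw [Finset.sum_neg_distrib, Finset.sum_congr rfl (fun i _ => e2 i), ← Finset.sum_div,
        ← Finset.mul_sum, ← Finset.mul_sum]
      ring
    rw [Finset.sum_congr rfl (fun v _ => e1 v), ← Finset.mul_sum, norm_mul, norm_ee, one_mul,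
      ← Finset.prod_univ_sum (fun _ : Fin K => D) (fun i b =>
        ee (-((b:ℝ) * ((s:ℝ) * P * p ^ (K - 1 - (i:ℕ)) / q ^ (K - (i:ℕ)))))), norm_prod,
      Finset.prod_range]
    apply Finset.prod_le_prod
    · intro i _; exact norm_nonneg _
    · intro i _
      exact factor_bound (by omega) hP hX h0 h1 h01 i.2 s
  have hstep3 : ∑ v ∈ Fintype.piFinset (fun _ : Fin K => D), Fw v ≤
      ∑ j ∈ Finset.range R, ∑ j' ∈ Finset.range R,
      ∏ i ∈ Finset.range K, ((D.card : ℝ) -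
        4 * ((X i ((b1 - b0 : ℕ) * ((j:ℤ) - (j':ℤ))) : ℝ) / q ^ (K - i)) ^ 2) := by
    have e1 : ((∑ v ∈ Fintype.piFinset (fun _ : Fin K => D), Fw v : ℝ) : ℂ) =
        ∑ j ∈ Finset.range R, ∑ j' ∈ Finset.range R,
          ∑ v ∈ Fintype.piFinset (fun _ : Fin K => D), ee (((j:ℤ) - (j':ℤ) : ℤ) * θ v) := by
      rw [Complex.ofReal_sum]
      simp only [hFw]
      rw [Finset.sum_congr rfl (fun v _ => kernel_expand R (θ v)), Finset.sum_comm]
      apply Finset.sum_congr rfl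
      intro j _
      rw [Finset.sum_comm]
    have e2 : ∑ v ∈ Fintype.piFinset (fun _ : Fin K => D), Fw v ≤
        ‖((∑ v ∈ Fintype.piFinset (fun _ : Fin K => D), Fw v : ℝ) : ℂ)‖ := by
      rw [Complex.norm_real]
      exact le_abs_self _
    refine e2.trans ?_
    rw [e1]
    refine (norm_sum_le _ _).trans ?_
    apply Finset.sum_le_sum
    intro j _
    refine (norm_sum_le _ _).trans ?_
    apply Finset.sum_le_sum
    intro j' _
    exact hword_sum ((j:ℤ) - (j':ℤ))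
  calc (T.card : ℝ) * R ^ 2 = ∑ _n ∈ T, (R:ℝ) ^ 2 := by rw [Finset.sum_const, nsmul_eq_mul]
    _ ≤ ∑ n ∈ T, 2 * Fw (word n) := Finset.sum_le_sum hstep1
    _ = 2 * ∑ n ∈ T, Fw (word n) := by rw [Finset.mul_sum]
    _ ≤ 2 * ∑ v ∈ Fintype.piFinset (fun _ : Fin K => D), Fw v := by linarith
    _ ≤ _ := by linarith

end

end Pool.Agent.H417_rb
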