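import Pool.Agent.H417_rb.Double

set_option autoImplicit false

/-!
# Reals all of whose expansions are separated at level `k`
-/

namespace Pool.Agent.H417_rb

open Filter Topology Finset

/-- Any two distinct `p/q`-expansions of `x` differ in one of their first `k` digits. -/
def AllSeparated (p q k : ℕ) (x : ℝ) : Prop :=
  ∀ u ∈ Expansions p q x, ∀ v ∈ Expansions p q x, u ≠ v → ∃ l < k, u l ≠ v l

section
variable {p q : ℕ}

lemma g_succ_le (hq : 1 ≤ q) (hpq : q < p) (n : ℕ) : g p q n + 1 ≤ g p q (n + 1) := by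
  have h1 := g_upper (p := p) hq n
  have h2 := g_lower (p := p) hq (n + 1)
  rw [mul_add, mul_one] at h2
  have h3 : q * g p q n < q * g p q (n + 1) := by omega
  exact Nat.lt_of_mul_lt_mul_left h3

lemma g_add_le (hq : 1 ≤ q) (hpq : q < p) (n j : ℕ) : g p q n + j ≤ g p q (n + j) := by
  induction j with
  | zero => simp
  | succ j ih =>
    have := g_succ_le hq hpq (n + j)
    rw [← add_assoc n j 1]
    omega

lemma g_iter_add_le (hq : 1 ≤ q) (hpq : q < p) (n j i : ℕ) :
    (g p q)^[i] n + j ≤ (g p q)^[i] (n + j) := by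
  induction i with
  | zero => simp
  | succ i ih =>
    rw [Function.iterate_succ_apply', Function.iterate_succ_apply']
    exact (g_add_le hq hpq _ _).trans (g_mono hq ih)

/-- the words of a path from `n` at level `l` along smallest children -/
lemma exists_min_path (hq : 1 ≤ q) (hpq : q < p) {l n : ℕ} (hnode : (par p q)^[l] n = 0) :
    ∃ u N : ℕ → ℕ, (∀ k, u k < p) ∧ NodesOf p q u N ∧ N l = n := by
  have hp : 1 ≤ p := by omega
  have hG : ∀ i, p * (g p q)^[i] n ≤ q * (g p q)^[i+1] n ∧
      q * (g p q)^[i+1] n < p * (g p q)^[i] n + p := by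
    intro i
    rw [Function.iterate_succ_apply']
    have h1 := g_lower (p := p) hq ((g p q)^[i] n)
    have h2 := g_upper (p := p) hq ((g p q)^[i] n)
    omega
  obtain ⟨s0, s1⟩ := glue_spec (q := q) (G := fun l => (g p q)^[l] n) hp hnode rfl hG
  obtain ⟨hu, hun⟩ := word_of_nodes s0 s1
  refine ⟨_, _, hu, hun, ?_⟩
  unfold glue
  rw [if_neg (by omega)]
  simp

lemma val_le_of_nodes (hq : 1 ≤ q) (hpq : q < p) {u u' n n' : ℕ → ℕ} (hu : ∀ k, u k < p)
    (hn : NodesOf p q u n) (hu' : ∀ k, u' k < p) (hn' : NodesOf p q u' n') {l : ℕ}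
    (h : ∀ i, n (l + i) ≤ n' (l + i)) : val p q u ≤ val p q u' := by
  have hb := beta_gt_one hq hpq
  have : val p q u - val p q u' ≤ 0 := by
    apply nonpos_of_bdd (A := ((p:ℝ) - 1) / ((p:ℝ) - q)) hb (k := l)
    intro k hk
    obtain ⟨i, rfl⟩ := Nat.exists_eq_add_of_le hk
    have h1 := le_node' hq hpq hu hn (l+i)
    have h2 := node_le hq hpq hu' hn' (l+i)
    have h3 : (n (l+i) : ℝ) ≤ n' (l+i) := by exact_mod_cast h i
    rw [mul_sub]
    linarith
  linarith

/-- Every integer between two nodes of `x` at level `l` is a node of an expansion of `x`. -/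
lemma mid_path (hq : 1 ≤ q) (hpq : q < p) {x : ℝ} {u u' n n' : ℕ → ℕ}
    (hu : u ∈ Expansions p q x) (hu' : u' ∈ Expansions p q x)
    (hn : NodesOf p q u n) (hn' : NodesOf p q u' n') {l a : ℕ} (h1 : n l ≤ a) (h2 : a ≤ n' l) :
    ∃ v N, v ∈ Expansions p q x ∧ NodesOf p q v N ∧ N l = a := by
  rcases Nat.eq_or_lt_of_le h1 with h1 | h1
  · exact ⟨u, n, hu, hn, h1⟩
  rcases Nat.eq_or_lt_of_le h2 with h2 | h2
  · exact ⟨u', n', hu', hn', h2.symm⟩
  have hup := hu.1.1
  have hup' := hu'.1.1
  have hnode : (par p q)^[l] a = 0 := by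
    have e1 := par_iter_node hup' hn' l
    have e2 := par_iter_mono (p := p) (q := q) h2.le l
    omega
  obtain ⟨v, N, hv, hN, hNl⟩ := exists_min_path hq hpq hnode
  have hlt1 : ∀ i, n (l + i) < N (l + i) := by
    intro i
    induction i with
    | zero => simpa [hNl] using h1
    | succ i ih => exact node_lt_next hup hn hN ih
  have hlt2 : ∀ i, N (l + i) < n' (l + i) := by
    intro i
    induction i with
    | zero => simpa [hNl] using h2
    | succ i ih => exact node_lt_next hv hN hn' ih
  refine ⟨v, N, ⟨⟨hv, N, hN⟩, ?_⟩, hN, hNl⟩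
  apply le_antisymm
  · rw [← hu'.2]
    exact val_le_of_nodes hq hpq hv hN hup' hn' (fun i => (hlt2 i).le)
  · rw [← hu.2]
    exact val_le_of_nodes hq hpq hup hn hv hN (fun i => (hlt1 i).le)

/-- Top path of a point whose expansions, at least `j + 2` in number, are separated at level `k`. -/
lemma top_path_sep (hq : 1 ≤ q) (hpq : q < p) {j m : ℕ} (hqj : q = (p - q) * j + m + 1)
    {k : ℕ} {x : ℝ} (hx : AllSeparated p q k x) (hcard : ((j + 2 : ℕ) : ℕ∞) ≤ (Expansions p q x).encard) :
    ∃ N b : ℕ → ℕ, 1 ≤ N 0 ∧ (∀ i, q * N (i+1) = p * N i + b i) ∧ (∀ i, b i ≤ m) ∧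
      (∀ i, (N i : ℝ) ≤ ((p:ℝ)/q)^(k+i) * x) ∧
      (∀ i, ((p:ℝ)/q)^(k+i) * x ≤ N i + (m:ℝ) / ((p:ℝ) - q)) := by
  -- nodes of the expansions
  have hnodes : ∀ u : Expansions p q x, ∃ n, NodesOf p q u.1 n := fun u => u.2.1.2
  choose n hn using hnodes
  have hup : ∀ u : Expansions p q x, ∀ k, u.1 k < p := fun u => u.2.1.1
  have hux : ∀ u : Expansions p q x, val p q u.1 = x := fun u => u.2.2
  have hinj : Function.Injective (fun u : Expansions p q x => n u k) := by
    intro u v huv
    by_contra hne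
    have hne' : u.1 ≠ v.1 := fun h => hne (Subtype.ext h)
    obtain ⟨l, hl, hd⟩ := hx u.1 u.2 v.1 v.2 hne'
    exact hd (prefix_eq (hup u) (hup v) (hn u) (hn v) k huv l hl)
  have hbd : ∀ u : Expansions p q x, n u k ≤ ⌊((p:ℝ)/q)^k * x⌋₊ := by
    intro u
    apply Nat.le_floor
    have := node_le hq hpq (hup u) (hn u) k
    rwa [hux] at this
  have hfin : Finite (Expansions p q x) := by
    apply Finite.of_injective (fun u : Expansions p q x =>
      (⟨n u k, Nat.lt_succ_of_le (hbd u)⟩ : Fin (⌊((p:ℝ)/q)^k * x⌋₊ + 1)))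
    intro u v huv
    apply hinj
    simpa using huv
  have hfinS : (Expansions p q x).Finite := hfin
  obtain ⟨D, hD⟩ : ∃ D, Nat.card (Expansions p q x) = D := ⟨_, rfl⟩
  have hDj : j + 2 ≤ D := by
    have h1 := hfinS.encard_eq_coe_toFinset_card
    rw [h1] at hcard
    have h2 : j + 2 ≤ hfinS.toFinset.card := by exact_mod_cast hcard
    have h3 : Nat.card (Expansions p q x) = hfinS.toFinset.card := Set.ncard_eq_toFinset_card _ hfinS
    omega
  obtain ⟨D', rfl⟩ : ∃ D', D = D' + 1 := ⟨D - 1, by omega⟩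
  obtain ⟨e⟩ : Nonempty (Fin (D'+1) ≃ Expansions p q x) := by
    have := Finite.equivFin (Expansions p q x)
    rw [hD] at this
    exact ⟨this.symm⟩
  obtain ⟨a', b', hab⟩ := spread (B := D') (fun i => n (e i) k) (fun i i' h => e.injective (hinj h))
  set a := e a'
  set b := e b'
  have hgap : ∀ i, n a (k+i) + D' ≤ n b (k+i) := by
    intro i
    rcases Nat.eq_zero_or_pos D' with h0 | h0
    · omega
    have h2 : n a (k+i) < (g p q)^[i] (n a k + 1) := by
      apply bot_lt (v := fun i => n a (k + i)) hq (by simp)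
      intro i
      have := (hn a).2 (k+i)
      have h3 := hup a (k+i)
      show q * n a (k + (i+1)) < _
      rw [← add_assoc, this]
      omega
    have h3 : (g p q)^[i] (n a k + 1 + (D' - 1)) ≤ n b (k+i) := by
      apply top_ge (w := fun i => n b (k + i)) hq
      · show n a k + 1 + (D' - 1) ≤ n b (k + 0)
        rw [add_zero]
        omega
      intro i
      have := (hn b).2 (k+i)
      show _ ≤ q * n b (k + (i+1))
      rw [← add_assoc, this]
      omega
    have h4 := g_iter_add_le hq hpq (n a k + 1) (D' - 1) i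
    omega
  have hgap2 : ∀ i, n b (k+i) = n a (k+i) + D' := by
    intro i
    apply le_antisymm _ (hgap i)
    -- more integers than expansions otherwise
    have hmid : ∀ c ∈ Finset.Icc (n a (k+i)) (n b (k+i)), ∃ v : Expansions p q x, n v (k+i) = c := by
      intro c hc
      rw [Finset.mem_Icc] at hc
      obtain ⟨v, N, hv, hN, hNc⟩ := mid_path hq hpq a.2 b.2 (hn a) (hn b) hc.1 hc.2
      refine ⟨⟨v, hv⟩, ?_⟩
      -- nodes are unique
      have huniq : ∀ l, n ⟨v, hv⟩ l = N l := by
        intro l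
        induction l with
        | zero => rw [(hn ⟨v, hv⟩).1, hN.1]
        | succ l ih =>
          have h1 := (hn ⟨v, hv⟩).2 l
          have h2 := hN.2 l
          rw [ih, ← h2] at h1
          exact Nat.eq_of_mul_eq_mul_left hq h1
      rw [huniq, hNc]
    have : Nonempty (Expansions p q x) := ⟨a⟩
    choose! f hf using hmid
    have hinjf : Set.InjOn f (Finset.Icc (n a (k+i)) (n b (k+i)) : Finset ℕ) := by
      intro c hc c' hc' h
      have h1 := hf c (Finset.mem_coe.mp hc)
      have h2 := hf c' (Finset.mem_coe.mp hc')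
      rw [← h1, ← h2, h]
    have hcardle := Set.ncard_le_ncard (s := f '' (Finset.Icc (n a (k+i)) (n b (k+i)) : Finset ℕ))
      (t := Set.univ) (Set.subset_univ _) (Set.toFinite _)
    rw [hinjf.ncard_image, Set.ncard_coe_finset, Nat.card_Icc, Set.ncard_univ, hD] at hcardle
    omega
  have hdig : ∀ i, b.1 (k+i) ≤ m := by
    intro i
    have h1 := (hn b).2 (k+i)
    have h2 := (hn a).2 (k+i)
    have h3 := hup a (k+i)
    have e1 := hgap2 i
    have e2 := hgap2 (i+1)
    rw [← add_assoc] at e2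
    rw [e1, e2] at h1
    have h4 : (p - q) * (j + 1) ≤ (p - q) * D' := Nat.mul_le_mul_left _ (by omega)
    have h5 : p * D' = q * D' + (p - q) * D' := by
      rw [← add_mul]
      congr 1
      omega
    rw [mul_add q, mul_add p, h2, h5] at h1
    rw [mul_add, mul_one] at h4
    omega
  refine ⟨fun i => n b (k+i), fun i => b.1 (k+i), ?_, ?_, hdig, ?_, ?_⟩
  · have := hgap 0
    simp only [add_zero] at this ⊢
    omega
  · intro i
    exact (hn b).2 (k+i)
  · intro i
    have h1 := node_le hq hpq (hup b) (hn b) (k + i)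
    rwa [hux] at h1
  · intro i
    have h1 := le_node hq hpq (hup b) (hn b) (k + i) (M := (m:ℝ)) (by
      intro l hl
      obtain ⟨e, rfl⟩ := Nat.exists_eq_add_of_le hl
      rw [add_assoc]
      exact_mod_cast hdig (i + e))
    rwa [hux] at h1

end

end Pool.Agent.H417_rb
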