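import Pool.Agent.H417_rb.Ceil
import Pool.Agent.H417_rb.Sep

set_option autoImplicit false

/-!
# Gaps between two orbits
-/

namespace Pool.Agent.H417_rb

open Finset

section
variable {p q : ℕ}

lemma g_iter_inj (hq : 1 ≤ q) (hpq : q < p) (i : ℕ) : Function.Injective ((g p q)^[i]) := by
  apply Function.Injective.iterate
  intro m n h
  rcases lt_trichotomy m n with h1 | h1 | h1
  · have h2 := g_succ_le hq hpq m
    have h3 := g_mono (p := p) hq (show m + 1 ≤ n from h1)
    omega
  · exact h1
  · have h2 := g_succ_le hq hpq n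
    have h3 := g_mono (p := p) hq (show n + 1 ≤ m from h1)
    omega

/-- distance of two orbits -/
lemma dist_iter (hq : 1 ≤ q) (hpq : q < p) {m n : ℕ} (h : m ≤ n) (i : ℕ) :
    q ^ i * ((g p q)^[i] n - (g p q)^[i] m + q) ≤ p ^ i * (n - m + q) := by
  induction i with
  | zero => simp
  | succ i ih =>
    rw [Function.iterate_succ_apply', Function.iterate_succ_apply']
    set a := (g p q)^[i] m with ha
    set b := (g p q)^[i] n with hb
    have hab : a ≤ b := g_iter_mono hq h i
    have h1 := g_upper (p := p) hq b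
    have h2 := g_lower (p := p) hq a
    have h3 := g_mono (p := p) hq hab
    obtain ⟨d, hd⟩ := Nat.exists_eq_add_of_le hab
    obtain ⟨e, he⟩ := Nat.exists_eq_add_of_le h3
    have e1 : b - a = d := by omega
    have e2 : g p q b - g p q a = e := by omega
    rw [e1] at ih
    rw [e2]
    have h4 : q * (e + q) ≤ p * (d + q) := by
      rw [he, mul_add] at h1
      have h7 : p * b = p * a + p * d := by rw [hd, mul_add]
      have h5 : q * e < p * d + q := by omega
      have h6 : q + q * q ≤ p * q := by
        have : (q + 1) * q ≤ p * q := Nat.mul_le_mul_right _ hpq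
        linarith
      rw [mul_add, mul_add]
      omega
    calc q ^ (i+1) * (e + q) = q ^ i * (q * (e + q)) := by ring
      _ ≤ q ^ i * (p * (d + q)) := Nat.mul_le_mul_left _ h4
      _ = p * (q ^ i * (d + q)) := by ring
      _ ≤ p * (p ^ i * (n - m + q)) := Nat.mul_le_mul_left _ ih
      _ = _ := by ring

/-- digits as long as the gap is constant -/
lemma digits_of_gap (hq : 1 ≤ q) (hpq : q < p) {n j K : ℕ} (hj : (p - q) * j < q)
    (h : (g p q)^[K] (n + j) = (g p q)^[K] n + j) :
    ∀ i < K, dig p q ((g p q)^[i] n) ∈ Finset.Ico ((p - q) * j) q := by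
  intro i hi
  rw [Finset.mem_Ico]
  refine ⟨?_, dig_lt hq _⟩
  by_contra hcon
  push Not at hcon
  have h1 : (g p q)^[i] n + j ≤ (g p q)^[i] (n + j) := g_iter_add_le hq hpq n j i
  have h2 := g_add_of_lt hq hpq hcon hj
  have h3 : (g p q)^[i+1] n + (j + 1) ≤ (g p q)^[i+1] (n + j) := by
    rw [Function.iterate_succ_apply', Function.iterate_succ_apply', ← h2]
    exact g_mono hq h1
  obtain ⟨r, hr⟩ := Nat.exists_eq_add_of_le (show i + 1 ≤ K from hi)
  have h4 : (g p q)^[K] n + (j + 1) ≤ (g p q)^[K] (n + j) := by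
    rw [hr, add_comm (i+1) r, Function.iterate_add_apply (g p q) r (i+1),
      Function.iterate_add_apply (g p q) r (i+1)]
    exact (g_iter_add_le hq hpq _ _ r).trans (g_iter_mono hq h3 r)
  omega

end

end Pool.Agent.H417_rb
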