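import Pool.Agent.H417_rb.Gaps

set_option autoImplicit false

/-!
# Nodes whose gap grows late
-/

namespace Pool.Agent.H417_rb

open Finset

lemma log_strict {q r B' : ℕ} (hB' : 1 ≤ B') (hBq : B' < q) (hr : 1 ≤ r) :
    Real.log B' * Real.log ((q + r : ℕ) : ℝ) < Real.log ((B' + r : ℕ) : ℝ) * Real.log q := by
  have hB0 : (0:ℝ) < B' := by exact_mod_cast hB'
  have hq0 : (0:ℝ) < q := by exact_mod_cast (by omega : 0 < q)
  have hr0 : (0:ℝ) < r := by exact_mod_cast hr
  have hq1 : (1:ℝ) < q := by exact_mod_cast (by omega : 1 < q)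
  have hlq : 0 < Real.log q := Real.log_pos hq1
  have e1 : Real.log ((q + r : ℕ) : ℝ) = Real.log q + Real.log (1 + r / q) := by
    rw [← Real.log_mul (by positivity) (by positivity)]
    congr 1
    push_cast
    field_simp
  have e2 : Real.log ((B' + r : ℕ) : ℝ) = Real.log B' + Real.log (1 + r / B') := by
    rw [← Real.log_mul (by positivity) (by positivity)]
    congr 1
    push_cast
    field_simp
  have hBq' : (B':ℝ) < q := by exact_mod_cast hBq
  have h1 : Real.log (1 + r / q) < Real.log (1 + r / B') := by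
    apply Real.log_lt_log (by positivity)
    have : (r:ℝ) / q < r / B' := div_lt_div_of_pos_left hr0 hB0 hBq'
    linarith
  have h2 : 0 ≤ Real.log (1 + r / q) := Real.log_nonneg (by
    have : 0 ≤ (r:ℝ) / q := by positivity
    linarith)
  have h3 : Real.log B' ≤ Real.log q := Real.log_le_log hB0 hBq'.le
  rw [e1, e2]
  have h4 : Real.log B' * Real.log (1 + r / q) ≤ Real.log q * Real.log (1 + r / q) :=
    mul_le_mul_of_nonneg_right h3 h2
  have h5 : Real.log q * Real.log (1 + r / q) < Real.log q * Real.log (1 + r / B') :=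
    mul_lt_mul_of_pos_left h1 hlq
  nlinarith

/-- Count of the nodes `n` in an interval of length `q^K0` whose gap is at least `j + 1` at time
`K0 + (K0 / Λ + 1)`. -/
theorem late_count {p q j : ℕ} (hpq : q < p) (hc : p.Coprime q) (hj : (p - q) * j + 2 ≤ q)
    (hj1 : 1 ≤ j) :
    ∃ (C κ : ℝ) (Λ : ℕ), 0 < C ∧ 0 < κ ∧ κ < 1 ∧ 1 ≤ Λ ∧ ∀ (K0 : ℕ) (N : Finset ℕ),
      (∀ m ∈ N, ∀ n ∈ N, n < m + q ^ K0) →
      (∀ n ∈ N, (g p q)^[K0 + (K0 / Λ + 1)] n + (j + 1) ≤ (g p q)^[K0 + (K0 / Λ + 1)] (n + j)) →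
      (∀ n ∈ N, ∀ i, (g p q)^[i] (n + j) ≤ (g p q)^[i] n + (q - 1) / (p - q)) →
      (N.card : ℝ) ≤ C * (κ * ((q - (p - q) * j : ℕ) : ℝ)) ^ K0 := by
  have hq : 2 ≤ q := by omega
  have hq1 : 1 ≤ q := by omega
  set B := q - (p - q) * j with hB
  have hB2 : 2 ≤ B := by omega
  have hr1 : 1 ≤ p - q := by omega
  rcases Nat.lt_or_ge ((p - q) * (j + 1)) q with hlt | hge
  swap
  · -- no gap `j + 1`
    refine ⟨1, 1/2, 1, by norm_num, by norm_num, by norm_num, le_rfl, ?_⟩
    intro K0 N _ h2 h3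
    have hemp : N = ∅ := by
      by_contra hne
      obtain ⟨n, hn⟩ := Finset.nonempty_iff_ne_empty.mpr hne
      have a1 := h2 n hn
      have a2 := h3 n hn (K0 + (K0 / 1 + 1))
      have a3 : (q - 1) / (p - q) ≤ j := by
        rw [← Nat.lt_succ_iff, Nat.div_lt_iff_lt_mul (by omega), mul_comm]
        have : (p - q) * (j + 1) = (p - q) * j.succ := rfl
        omega
      omega
    rw [hemp]
    simp only [Finset.card_empty, Nat.cast_zero]
    positivity
  · set B' := q - (p - q) * (j + 1) with hB'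
    have hB'1 : 1 ≤ B' := by omega
    have hB'q : B' < q := by
      have : 1 ≤ (p - q) * (j + 1) := Nat.mul_pos hr1 (by omega)
      omega
    have hBB' : B = B' + (p - q) := by
      rw [hB, hB', mul_add, mul_one] at *
      omega
    have hpr : p = q + (p - q) := by omega
    have hq0 : (0:ℝ) < q := by exact_mod_cast (by omega : 0 < q)
    have hp0 : (0:ℝ) < p := by exact_mod_cast (by omega : 0 < p)
    have hq1' : (1:ℝ) < q := by exact_mod_cast (by omega : 1 < q)
    have hlq : 0 < Real.log q := Real.log_pos hq1'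
    have hB'0 : (0:ℝ) < B' := by exact_mod_cast hB'1
    have hB0 : (0:ℝ) < B := by exact_mod_cast (by omega : 0 < B)
    have hβ := beta_gt_one hq1 hpq
    have hlβ : 0 < Real.log ((p:ℝ)/q) := Real.log_pos hβ
    have hlB' : 0 ≤ Real.log B' := Real.log_nonneg (by exact_mod_cast hB'1)
    have hstrict := log_strict hB'1 hB'q hr1
    rw [← hpr, ← hBB'] at hstrict
    -- Λ
    obtain ⟨Λ, hΛ1, hΛ⟩ : ∃ Λ : ℕ, 1 ≤ Λ ∧
        Real.log B' * (Real.log p + 1 / Λ * Real.log ((p:ℝ)/q)) < Real.log B * Real.log q := by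
      obtain ⟨Λ, hΛ⟩ := exists_nat_gt (Real.log B' * Real.log ((p:ℝ)/q) /
        (Real.log B * Real.log q - Real.log B' * Real.log p))
      have hd : 0 < Real.log B * Real.log q - Real.log B' * Real.log p := by linarith
      refine ⟨Λ + 1, by omega, ?_⟩
      have h1 : Real.log B' * Real.log ((p:ℝ)/q) <
          (Λ + 1) * (Real.log B * Real.log q - Real.log B' * Real.log p) := by
        rw [div_lt_iff₀ hd] at hΛ
        nlinarith
      have hL : (0:ℝ) < Λ + 1 := by positivity
      have h2 : Real.log B' * Real.log ((p:ℝ)/q) / (Λ + 1) <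
          Real.log B * Real.log q - Real.log B' * Real.log p := by
        rw [div_lt_iff₀ hL]; linarith
      push_cast
      have e : Real.log B' * (Real.log p + 1 / ((Λ:ℝ) + 1) * Real.log ((p:ℝ)/q)) =
          Real.log B' * Real.log p + Real.log B' * Real.log ((p:ℝ)/q) / (Λ + 1) := by
        field_simp
      rw [e]; linarith
    have hΛ0 : (0:ℝ) < Λ := by exact_mod_cast hΛ1
    set E := Real.log B' * (Real.log p + 1 / Λ * Real.log ((p:ℝ)/q)) / Real.log q with hE
    have hEB : E < Real.log B := by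
      rw [hE, div_lt_iff₀ hlq]; exact hΛ
    set κ := Real.exp (E - Real.log B) with hκ
    have hκB : κ * B = Real.exp E := by
      rw [hκ, Real.exp_sub, Real.exp_log hB0]; field_simp
    -- the counting constant
    set D0 := (q - 1) / (p - q) with hD0def
    have hD0 : (p - q) * D0 < q := by
      have : (p - q) * D0 ≤ q - 1 := Nat.mul_div_le _ _
      omega
    have hjD0 : j + 1 ≤ D0 := by
      rw [hD0def, Nat.le_div_iff_mul_le (by omega), mul_comm]
      omega
    obtain ⟨Cf, hCf1, hCf⟩ := F_le hD0 (D0 - (j + 1)) (j + 1) (by omega)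
    set A := Real.log B' * ((Real.log ((p:ℝ)/q) + Real.log (1 + q)) / Real.log q + 1) with hA
    refine ⟨Cf * Real.exp A, κ, Λ, by positivity, by positivity, ?_, hΛ1, ?_⟩
    · rw [hκ, Real.exp_lt_one_iff]; linarith
    intro K0 N h1 h2 h3
    set K := K0 + (K0 / Λ + 1) with hK
    set x : ℝ := ((p:ℝ)/q) ^ K * ((q:ℝ) ^ K0 + q) with hx
    have hx1 : 1 ≤ x := by
      have a1 : 1 ≤ ((p:ℝ)/q) ^ K := one_le_pow₀ hβ.le
      have a2 : 1 ≤ (q:ℝ) ^ K0 := one_le_pow₀ hq1'.le
      have a3 : (1:ℝ) ≤ (q:ℝ) ^ K0 + q := by linarith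
      calc (1:ℝ) = 1 * 1 := by norm_num
        _ ≤ _ := by rw [hx]; gcongr
    have hx0 : 0 < x := by linarith
    set K2 := ⌈Real.log x / Real.log q⌉₊ with hK2
    have hK2a : Real.log x ≤ K2 * Real.log q := by
      have := Nat.le_ceil (Real.log x / Real.log q)
      rwa [div_le_iff₀ hlq] at this
    have hK2b : (K2:ℝ) ≤ Real.log x / Real.log q + 1 := by
      have := Nat.ceil_lt_add_one (a := Real.log x / Real.log q)
        (div_nonneg (Real.log_nonneg hx1) hlq.le)
      exact this.le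
    have hxq : x ≤ (q:ℝ) ^ K2 := by
      rw [← Real.exp_log hx0, ← Real.exp_log (by positivity : 0 < (q:ℝ) ^ K2), Real.log_pow]
      exact Real.exp_le_exp.mpr hK2a
    have hxq' : p ^ K * (q ^ K0 + q) ≤ q ^ K * q ^ K2 := by
      have a1 : (p:ℝ) ^ K * ((q:ℝ) ^ K0 + q) ≤ (q:ℝ) ^ K * (q:ℝ) ^ K2 := by
        have a2 : (p:ℝ) ^ K * ((q:ℝ) ^ K0 + q) = (q:ℝ) ^ K * x := by
          rw [hx, div_pow]; field_simp
        rw [a2]; gcongr
      exact_mod_cast a1
    -- images
    have hcard : N.card = (N.image ((g p q)^[K])).card :=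
      (Finset.card_image_of_injective _ (g_iter_inj hq1 hpq K)).symm
    have hclose : ∀ m ∈ N, ∀ n ∈ N, m ≤ n → (g p q)^[K] n - (g p q)^[K] m < q ^ K2 := by
      intro m hm n hn hmn
      have a1 := dist_iter hq1 hpq hmn K
      have a2 : n - m < q ^ K0 := by
        have := h1 m hm n hn
        omega
      have a3 : p ^ K * (n - m + q) ≤ p ^ K * (q ^ K0 + q) := Nat.mul_le_mul_left _ (by omega)
      have a4 := Nat.le_of_mul_le_mul_left (a1.trans (a3.trans hxq')) (by positivity : 0 < q ^ K)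
      omega
    have hF : (N.image ((g p q)^[K])).card ≤ F p q D0 K2 (j + 1) := by
      apply card_le_F hq1 hpq hc hD0
      · intro m hm m' hm' he
        simp only [Finset.mem_image] at hm hm'
        obtain ⟨x, hx, rfl⟩ := hm
        obtain ⟨y, hy, rfl⟩ := hm'
        rcases le_total x y with h | h
        · have a1 := hclose x hx y hy h
          have a2 := g_iter_mono (p := p) hq1 h K
          by_contra hcon
          have h5 := (Nat.modEq_iff_dvd' a2).mp he
          have h6 := Nat.le_of_dvd (by omega) h5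
          omega
        · have a1 := hclose y hy x hx h
          have a2 := g_iter_mono (p := p) hq1 h K
          by_contra hcon
          have h5 := (Nat.modEq_iff_dvd' a2).mp he.symm
          have h6 := Nat.le_of_dvd (by omega) h5
          omega
      · intro m hm i
        simp only [Finset.mem_image] at hm
        obtain ⟨x, hx, rfl⟩ := hm
        have a1 := h3 x hx (i + K)
        rw [Function.iterate_add_apply (g p q) i K, Function.iterate_add_apply (g p q) i K] at a1
        exact (g_iter_mono hq1 (h2 x hx) i).trans a1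
    have hfin : (N.card : ℝ) ≤ Cf * (B':ℝ) ^ K2 := by
      rw [hcard]
      exact_mod_cast hF.trans (hCf K2)
    -- estimate B'^K2
    have hKle : (K:ℝ) ≤ K0 * (1 + 1 / Λ) + 1 := by
      have a1 : ((K0 / Λ : ℕ) : ℝ) ≤ (K0:ℝ) / Λ := Nat.cast_div_le
      rw [hK]
      push_cast
      have : (K0:ℝ) * (1 + 1 / Λ) = K0 + K0 / Λ := by field_simp
      rw [this]; linarith
    have hlogx : Real.log x ≤ K0 * (Real.log p + 1 / Λ * Real.log ((p:ℝ)/q)) +
        (Real.log ((p:ℝ)/q) + Real.log (1 + q)) := by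
      have a1 : x ≤ ((p:ℝ)/q) ^ K * ((q:ℝ) ^ K0 * (1 + q)) := by
        rw [hx]
        have : (1:ℝ) ≤ (q:ℝ) ^ K0 := one_le_pow₀ hq1'.le
        have : (q:ℝ) ^ K0 + q ≤ (q:ℝ) ^ K0 * (1 + q) := by nlinarith
        gcongr
      have a2 := Real.log_le_log hx0 a1
      have a5 : Real.log (((p:ℝ)/q) ^ K * ((q:ℝ) ^ K0 * (1 + q))) =
          K * Real.log ((p:ℝ)/q) + (K0 * Real.log q + Real.log (1 + q)) := by
        rw [Real.log_mul (by positivity) (by positivity), Real.log_mul (by positivity) (by positivity),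
          Real.log_pow, Real.log_pow]
      rw [a5] at a2
      have a3 : Real.log p = Real.log ((p:ℝ)/q) + Real.log q := by
        rw [← Real.log_mul (by positivity) (by positivity)]; congr 1; field_simp
      have a4 : (K:ℝ) * Real.log ((p:ℝ)/q) ≤ (K0 * (1 + 1 / Λ) + 1) * Real.log ((p:ℝ)/q) :=
        mul_le_mul_of_nonneg_right hKle hlβ.le
      rw [a3]
      linarith
    have hBK2 : (B':ℝ) ^ K2 ≤ Real.exp A * Real.exp E ^ K0 := by
      rw [← Real.exp_log (by positivity : 0 < (B':ℝ) ^ K2), Real.log_pow, ← Real.exp_nat_mul, ← Real.exp_add]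
      apply Real.exp_le_exp.mpr
      calc (K2:ℝ) * Real.log B' ≤ (Real.log x / Real.log q + 1) * Real.log B' :=
            mul_le_mul_of_nonneg_right hK2b hlB'
        _ ≤ ((K0 * (Real.log p + 1 / Λ * Real.log ((p:ℝ)/q)) +
              (Real.log ((p:ℝ)/q) + Real.log (1 + q))) / Real.log q + 1) * Real.log B' := by gcongr
        _ = A + K0 * E := by
            rw [hA, hE]; field_simp; ring
    calc (N.card : ℝ) ≤ Cf * (B':ℝ) ^ K2 := hfin
      _ ≤ Cf * (Real.exp A * Real.exp E ^ K0) := by gcongr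
      _ = Cf * Real.exp A * (κ * B) ^ K0 := by rw [hκB]; ring

end Pool.Agent.H417_rb
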