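import Mathlib

set_option autoImplicit false

/-!
# Balanced lattices

For a base `p/q` and a length `K` let `L_i` be the lattice of the integer pairs `(s, x)` with
`p^(i+1) x ≡ s` modulo `q^(K-i)`. We find indices `i` for which `L_i` has no short vector.
-/

namespace Pool.Agent.H417_rb

/-- the lattice `L_i` -/
def Lat (p q K i : ℕ) (s x : ℤ) : Prop := (q:ℤ) ^ (K - i) ∣ (p:ℤ) ^ (i + 1) * x - s

/-- no short vector in `L_e` -/
def Bal (p q K S T e : ℕ) : Prop :=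
  ∀ s x : ℤ, 0 < |s| → |s| < S → Lat p q K e s x → (q:ℤ) ^ (K - e) < T * |x|

lemma dvd_pow_of_lt {q d N a : ℕ} (hq : 1 ≤ q) (hd : d ∣ q ^ N) (hda : d ≤ 2 ^ a) : d ∣ q ^ a := by
  have hd0 : d ≠ 0 := by
    rintro rfl
    have := Nat.eq_zero_of_zero_dvd hd
    have h2 : 0 < q ^ N := by positivity
    omega
  rw [← Nat.factorization_le_iff_dvd hd0 (by positivity)]
  intro l
  rcases Nat.eq_zero_or_pos (d.factorization l) with h0 | h0
  · rw [h0]; exact Nat.zero_le _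
  have hl : l.Prime := Nat.prime_of_mem_primeFactors (Nat.support_factorization d ▸ Finsupp.mem_support_iff.mpr h0.ne')
  have h1 : l ^ (d.factorization l) ∣ d := Nat.ordProj_dvd d l
  have h2 : l ^ (d.factorization l) ≤ 2 ^ a := (Nat.le_of_dvd (Nat.pos_of_ne_zero hd0) h1).trans hda
  have h3 : 2 ^ (d.factorization l) ≤ 2 ^ a := (Nat.pow_le_pow_left hl.two_le _).trans h2
  have h4 : d.factorization l ≤ a := (Nat.pow_le_pow_iff_right (by norm_num)).mp h3
  have h5 : l ∣ q := by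
    have : l ∣ q ^ N := (dvd_pow_self l h0.ne').trans (h1.trans hd)
    exact hl.dvd_of_dvd_pow this
  have h6 : 1 ≤ q.factorization l := (hl.dvd_iff_one_le_factorization (by omega)).mp h5
  rw [Nat.factorization_pow]
  simp only [Finsupp.smul_apply, smul_eq_mul]
  nlinarith

lemma dvd_of_dvd_mul_small {q c N a : ℕ} {Y : ℤ} (hq : 1 ≤ q) (hc0 : 1 ≤ c) (hca : c ≤ 2 ^ a)
    (h : (q:ℤ) ^ N ∣ c * Y) : (q:ℤ) ^ (N - a) ∣ Y := by
  -- work with natural numbers
  have h' : q ^ N ∣ c * Y.natAbs := by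
    have := Int.natAbs_dvd_natAbs.mpr h
    rwa [Int.natAbs_mul, Int.natAbs_pow, Int.natAbs_natCast, Int.natAbs_natCast] at this
  suffices hs : q ^ (N - a) ∣ Y.natAbs by
    have : ((q ^ (N - a) : ℕ) : ℤ) ∣ Y := Int.natCast_dvd.mpr hs
    rwa [Nat.cast_pow] at this
  rcases Nat.lt_or_ge N a with hNa | hNa
  · have : N - a = 0 := by omega
    rw [this, pow_zero]; exact one_dvd _
  set d := Nat.gcd (q ^ N) c with hd
  have hd0 : 0 < d := Nat.gcd_pos_of_pos_right _ hc0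
  have hdc : d ≤ 2 ^ a := (Nat.le_of_dvd hc0 (Nat.gcd_dvd_right _ _)).trans hca
  have hdq : d ∣ q ^ a := dvd_pow_of_lt hq (Nat.gcd_dvd_left _ _) hdc
  obtain ⟨A, hA⟩ := Nat.gcd_dvd_left (q ^ N) c
  obtain ⟨B, hB⟩ := Nat.gcd_dvd_right (q ^ N) c
  rw [← hd] at hA hB
  have hcop : Nat.Coprime A B := by
    have := Nat.coprime_div_gcd_div_gcd (m := q ^ N) (n := c) hd0
    rw [← hd, hA, hB, Nat.mul_div_cancel_left _ hd0, Nat.mul_div_cancel_left _ hd0] at this
    rwa [← hA, ← hB] at *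
  have h1 : A ∣ B * Y.natAbs := by
    rw [hA, hB, mul_assoc] at h'
    exact Nat.dvd_of_mul_dvd_mul_left hd0 h'
  have h2 : A ∣ Y.natAbs := hcop.dvd_of_dvd_mul_left h1
  refine dvd_trans ?_ h2
  obtain ⟨D, hD⟩ := hdq
  have h3 : q ^ N = q ^ (N - a) * q ^ a := by rw [← pow_add]; congr 1; omega
  have h4 : d * A = d * (q ^ (N - a) * D) := by
    rw [← hA, h3, hD]; ring
  have h5 := Nat.eq_of_mul_eq_mul_left hd0 h4
  exact ⟨D, h5⟩

lemma lat_det {p q K e : ℕ} (hc : p.Coprime q) {s x s' x' : ℤ} (h : Lat p q K e s x)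
    (h' : Lat p q K e s' x') : (q:ℤ) ^ (K - e) ∣ s * x' - s' * x := by
  have h1 : (q:ℤ) ^ (K - e) ∣ (p:ℤ) ^ (e+1) * (s * x' - s' * x) := by
    have e1 : (p:ℤ) ^ (e+1) * (s * x' - s' * x) =
        s * ((p:ℤ) ^ (e+1) * x' - s') - s' * ((p:ℤ) ^ (e+1) * x - s) := by ring
    rw [e1]
    exact dvd_sub (h'.mul_left _) (h.mul_left _)
  have hcop : IsCoprime ((q:ℤ) ^ (K - e)) ((p:ℤ) ^ (e+1)) := by
    apply IsCoprime.pow
    exact (Nat.isCoprime_iff_coprime.mpr hc).symm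
  exact hcop.dvd_of_dvd_mul_left h1

/-- Existence of an index without short vectors. -/
theorem exists_bal {p q K i0 a S T : ℕ} (hq : 2 ≤ q) (hpq : q < p) (hc : p.Coprime q)
    (hS1 : 1 ≤ S) (hSa : S ≤ 2 ^ a) (hSK : S ≤ q ^ (K - i0)) (hT : T = 2 * p ^ (a + 1) * S ^ 2) :
    ∃ t, Bal p q K S T (i0 + t) ∧ (t ≤ a ∨ p ^ (t - 1) ≤ q ^ (K - i0)) := by
  by_cases hbal : Bal p q K S T i0
  · exact ⟨0, hbal, Or.inl (Nat.zero_le _)⟩
  unfold Bal at hbal
  push Not at hbal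
  obtain ⟨s, x, hs0, hsS, hL, hx⟩ := hbal
  have hq0 : (0:ℤ) < q := by exact_mod_cast (by omega : 0 < q)
  have hp0 : (0:ℤ) < p := by exact_mod_cast (by omega : 0 < p)
  have hpn : 0 < p := by omega
  have hx0 : x ≠ 0 := by
    rintro rfl
    unfold Lat at hL
    rw [mul_zero, zero_sub, dvd_neg] at hL
    have h1 := Int.le_of_dvd hs0 ((dvd_abs _ _).mpr hL)
    have h2 : (S:ℤ) ≤ (q:ℤ) ^ (K - i0) := by exact_mod_cast hSK
    omega
  -- reduce to a coprime pair
  set c := Int.gcd s x with hcdef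
  have hc0 : 0 < c := Int.gcd_pos_of_ne_zero_left _ (abs_pos.mp hs0)
  obtain ⟨σ, hσ⟩ : (c:ℤ) ∣ s := Int.gcd_dvd_left ..
  obtain ⟨ξ, hξ⟩ : (c:ℤ) ∣ x := Int.gcd_dvd_right ..
  have hcop : IsCoprime σ ξ := by
    rw [Int.isCoprime_iff_gcd_eq_one]
    have h1 : Int.gcd s x = c * Int.gcd σ ξ := by
      rw [hσ, hξ, Int.gcd_mul_left, Int.natAbs_natCast]
    rw [← hcdef] at h1
    have h2 : c * 1 = c * Int.gcd σ ξ := by rw [mul_one]; exact h1
    exact (Nat.eq_of_mul_eq_mul_left hc0 h2).symm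
  have hc0z : (0:ℤ) < c := by exact_mod_cast hc0
  have hσ0 : σ ≠ 0 := by rintro rfl; rw [mul_zero] at hσ; simp [hσ] at hs0
  have hξ0 : ξ ≠ 0 := by rintro rfl; rw [mul_zero] at hξ; exact hx0 hξ
  have hσs : |σ| ≤ |s| := by
    rw [hσ, abs_mul, abs_of_pos hc0z]
    have := abs_nonneg σ
    nlinarith
  have hξx : |ξ| ≤ |x| := by
    rw [hξ, abs_mul, abs_of_pos hc0z]
    have := abs_nonneg ξ
    nlinarith
  have hcS : c ≤ 2 ^ a := by
    have h1 : (c:ℤ) ≤ |s| := by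
      rw [hσ, abs_mul, abs_of_pos hc0z]
      have : 1 ≤ |σ| := Int.one_le_abs hσ0
      nlinarith
    have h2 : (c:ℤ) < S := lt_of_le_of_lt h1 hsS
    have h3 : c < S := by exact_mod_cast h2
    omega
  have hY : (q:ℤ) ^ (K - i0 - a) ∣ (p:ℤ) ^ (i0+1) * ξ - σ := by
    apply dvd_of_dvd_mul_small (c := c) (by omega) hc0 hcS
    unfold Lat at hL
    have e1 : (p:ℤ) ^ (i0+1) * x - s = c * ((p:ℤ) ^ (i0+1) * ξ - σ) := by
      rw [hσ, hξ]; ring
    rwa [e1] at hL
  have hσ1 : 1 ≤ |σ| := Int.one_le_abs hσ0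
  have hξ1 : 1 ≤ |ξ| := Int.one_le_abs hξ0
  have hσS : |σ| < S := lt_of_le_of_lt hσs hsS
  have hTξ : (T:ℤ) * |ξ| ≤ (q:ℤ) ^ (K - i0) := by
    refine le_trans ?_ hx
    gcongr
  -- the pairs (σ p^t, ξ) / gcd (p^t, ξ)
  set G : ℕ → ℕ := fun t => Nat.gcd (p ^ t) ξ.natAbs with hG
  have hG0 : ∀ t, 0 < G t := fun t => Nat.gcd_pos_of_pos_left _ (by positivity)
  have hGp : ∀ t, G t ∣ p ^ t := fun t => Nat.gcd_dvd_left _ _
  have hGξ : ∀ t, G t ∣ ξ.natAbs := fun t => Nat.gcd_dvd_right _ _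
  have hGle : ∀ t, (G t : ℤ) ≤ |ξ| := by
    intro t
    rw [Int.abs_eq_natAbs]
    exact_mod_cast Nat.le_of_dvd (by omega) (hGξ t)
  choose A hA using hGp
  choose B' hB' using hGξ
  have hA0 : ∀ t, 0 < A t := by
    intro t
    rcases Nat.eq_zero_or_pos (A t) with h | h
    · exfalso
      have h1 := hA t
      rw [h, mul_zero] at h1
      have : 0 < p ^ t := by positivity
      omega
    · exact h
  have hmono : ∀ t, A t ≤ A (t+1) ∧ A (t+1) ≤ p * A t := by
    intro t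
    constructor
    · -- G (t+1) ∣ p * G t
      have h1 : G (t+1) ∣ p * G t := by
        show Nat.gcd (p ^ (t+1)) ξ.natAbs ∣ p * Nat.gcd (p ^ t) ξ.natAbs
        rw [← Nat.gcd_mul_left]
        apply Nat.dvd_gcd
        · rw [pow_succ'] ; exact Nat.gcd_dvd_left _ _
        · exact (Nat.gcd_dvd_right _ _).mul_left _
      have h2 : G (t+1) ≤ p * G t := Nat.le_of_dvd (by have := hG0 t; positivity) h1
      have h3 : G (t+1) * A (t+1) = p * (G t * A t) := by
        rw [← hA (t+1), ← hA t, pow_succ']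
      by_contra hcon
      push Not at hcon
      have h4 : G (t+1) * A (t+1) < p * (G t * A t) := by
        calc G (t+1) * A (t+1) ≤ (p * G t) * A (t+1) := Nat.mul_le_mul_right _ h2
          _ < (p * G t) * A t := by
              apply Nat.mul_lt_mul_of_pos_left hcon
              have := hG0 t; positivity
          _ = _ := by ring
      omega
    · have h1 : G t ∣ G (t+1) := by
        apply Nat.dvd_gcd
        · exact (Nat.gcd_dvd_left _ _).trans (pow_dvd_pow p (Nat.le_succ t))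
        · exact Nat.gcd_dvd_right _ _
      have h2 : G t ≤ G (t+1) := Nat.le_of_dvd (hG0 _) h1
      have h3 : G (t+1) * A (t+1) = p * (G t * A t) := by
        rw [← hA (t+1), ← hA t, pow_succ']
      by_contra hcon
      push Not at hcon
      have h4 : p * (G t * A t) < G (t+1) * A (t+1) := by
        calc p * (G t * A t) = G t * (p * A t) := by ring
          _ < G t * A (t+1) := Nat.mul_lt_mul_of_pos_left hcon (hG0 t)
          _ ≤ G (t+1) * A (t+1) := Nat.mul_le_mul_right _ h2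
      omega
  -- first t ≥ a with |σ| A t ≥ S
  have hex : ∃ t, a ≤ t ∧ (S:ℤ) ≤ |σ| * A t := by
    refine ⟨a + (S * ξ.natAbs), Nat.le_add_right _ _, ?_⟩
    set t := a + (S * ξ.natAbs) with ht
    have h1 : t < p ^ t := Nat.lt_pow_self (by omega)
    have h2 : S * G t ≤ G t * A t := by
      rw [← hA t]
      have h3 : G t ≤ ξ.natAbs := Nat.le_of_dvd (by omega) (Nat.gcd_dvd_right _ _)
      have h4 : S * G t ≤ S * ξ.natAbs := Nat.mul_le_mul_left _ h3
      omega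
    have h5 : S ≤ A t := by
      rw [mul_comm] at h2
      exact Nat.le_of_mul_le_mul_left h2 (hG0 t)
    have h6 : (S:ℤ) ≤ A t := by exact_mod_cast h5
    have h7 : (0:ℤ) ≤ A t := by positivity
    nlinarith
  classical
  set t := Nat.find hex with htdef
  obtain ⟨hta, htS⟩ := Nat.find_spec hex
  rw [← htdef] at hta htS
  have hprev : a < t → |σ| * A (t-1) < S := by
    intro hat
    by_contra hcon
    push Not at hcon
    have := Nat.find_min' hex ⟨(by omega : a ≤ t - 1), hcon⟩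
    omega
  have hApow : ∀ t, A t ≤ p ^ t := by
    intro t
    rw [hA t]
    exact Nat.le_mul_of_pos_left _ (hG0 t)
  have hupper : |σ| * A t < p ^ (a+1) * S := by
    rcases Nat.eq_or_lt_of_le hta with h | h
    · rw [← h]
      have h1 : (A a : ℤ) ≤ (p:ℤ) ^ a := by exact_mod_cast hApow a
      have h2 : (p:ℤ) ^ a ≤ (p:ℤ) ^ (a+1) := pow_le_pow_right₀ (by omega) (Nat.le_succ a)
      have h3 : (0:ℤ) < (p:ℤ) ^ a := by positivity
      have hA0' : (0:ℤ) ≤ A a := by positivity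
      calc |σ| * A a ≤ |σ| * (p:ℤ)^a := by gcongr
        _ < S * (p:ℤ)^a := by gcongr
        _ ≤ S * (p:ℤ)^(a+1) := by gcongr
        _ = _ := by ring
    · have h1 := hprev h
      have h2 := (hmono (t-1)).2
      have h3 : t - 1 + 1 = t := by omega
      rw [h3] at h2
      have h4 : (A t : ℤ) ≤ p * A (t-1) := by exact_mod_cast h2
      have h5 : (p:ℤ) ≤ (p:ℤ) ^ (a+1) := by
        calc (p:ℤ) = p ^ 1 := (pow_one _).symm
          _ ≤ _ := pow_le_pow_right₀ (by omega) (by omega)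
      have h6 : (0:ℤ) ≤ A (t-1) := by positivity
      calc |σ| * A t ≤ |σ| * (p * A (t-1)) := by gcongr
        _ = p * (|σ| * A (t-1)) := by ring
        _ < p * S := by gcongr
        _ ≤ p ^ (a+1) * S := by gcongr
  -- the bound for t
  have htb : t ≤ a ∨ p ^ (t-1) ≤ q ^ (K - i0) := by
    rcases Nat.lt_or_ge a t with h | h
    · right
      have h1 := hprev h
      have h2 : (p:ℤ) ^ (t-1) = G (t-1) * A (t-1) := by exact_mod_cast hA (t-1)
      have h3 := hGle (t-1)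
      have h6 : (0:ℤ) ≤ A (t-1) := by positivity
      have h4 : (p:ℤ) ^ (t-1) ≤ |ξ| * S := by
        rw [h2]
        calc (G (t-1) : ℤ) * A (t-1) ≤ |ξ| * A (t-1) := by gcongr
          _ ≤ |ξ| * (|σ| * A (t-1)) := by
              apply mul_le_mul_of_nonneg_left _ (abs_nonneg _)
              nlinarith
          _ ≤ |ξ| * S := by gcongr
      have h5 : |ξ| * S ≤ (T:ℤ) * |ξ| := by
        rw [mul_comm]
        have : (S:ℤ) ≤ T := by
          rw [hT]
          push_cast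
          have hS1' : (1:ℤ) ≤ S := by exact_mod_cast hS1
          have : (1:ℤ) ≤ (p:ℤ)^(a+1) := one_le_pow₀ (by omega)
          nlinarith [mul_nonneg (by positivity : (0:ℤ) ≤ (p:ℤ)^(a+1)) (sq_nonneg (S:ℤ))]
        gcongr
      have h7 : (p:ℤ) ^ (t-1) ≤ (q:ℤ) ^ (K - i0) := h4.trans (h5.trans hTξ)
      exact_mod_cast h7
    · left; exact h
  refine ⟨t, ?_, htb⟩
  -- balancedness
  intro s' x' hs'0 hs'S hL'
  -- signs: the vector
  obtain ⟨ε, hε, hεB⟩ : ∃ B'' : ℤ, ξ = G t * B'' ∧ |B''| = B' t := by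
    obtain ⟨B'', hB''⟩ : (G t : ℤ) ∣ ξ := Int.natCast_dvd.mpr (Nat.gcd_dvd_right _ _)
    refine ⟨B'', hB'', ?_⟩
    have h1 : ξ.natAbs = G t * B''.natAbs := by rw [hB'', Int.natAbs_mul, Int.natAbs_natCast]
    have h2 : G t * B' t = G t * B''.natAbs := by rw [← hB' t, h1]
    have h3 := Nat.eq_of_mul_eq_mul_left (hG0 t) h2
    rw [Int.abs_eq_natAbs]
    exact_mod_cast h3.symm
  have hLe : Lat p q K (i0 + t) (σ * A t) ε := by
    unfold Lat
    have h1 : (q:ℤ) ^ (K - (i0 + t)) ∣ (q:ℤ) ^ (K - i0 - a) := pow_dvd_pow _ (by omega)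
    have hGz : (G t : ℤ) ≠ 0 := by exact_mod_cast (hG0 t).ne'
    have h2 : (p:ℤ) ^ (i0 + t + 1) * ε - σ * A t = A t * ((p:ℤ) ^ (i0+1) * ξ - σ) := by
      have e1 : (p:ℤ) ^ t = G t * A t := by exact_mod_cast hA t
      have e2 : (p:ℤ) ^ (i0 + t + 1) = (p:ℤ) ^ (i0 + 1) * (G t * A t) := by
        rw [← e1, ← pow_add]; congr 1; ring
      rw [e2, hε]; ring
    rw [h2]
    exact (h1.trans hY).mul_left _
  have hdet := lat_det hc hLe hL'
  have hAt0 : (0:ℤ) < A t := by exact_mod_cast hA0 t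
  have hcop2 : IsCoprime (σ * A t) ε := by
    apply IsCoprime.mul_left
    · have : IsCoprime σ (G t * ε) := hε ▸ hcop
      exact this.of_mul_right_right
    · -- A t and ε are coprime
      have h1 := Nat.coprime_div_gcd_div_gcd (m := p ^ t) (n := ξ.natAbs) (hG0 t)
      have e1 : p ^ t / Nat.gcd (p ^ t) ξ.natAbs = A t := by
        have := hA t
        show p ^ t / G t = A t
        rw [this]
        exact Nat.mul_div_cancel_left _ (hG0 t)
      have e2 : ξ.natAbs / Nat.gcd (p ^ t) ξ.natAbs = B' t := by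
        have := hB' t
        show ξ.natAbs / G t = B' t
        rw [this]
        exact Nat.mul_div_cancel_left _ (hG0 t)
      rw [e1, e2] at h1
      rw [Int.isCoprime_iff_gcd_eq_one, Int.gcd_def]
      have h2 : ε.natAbs = B' t := by
        rw [Int.abs_eq_natAbs] at hεB
        exact_mod_cast hεB
      rw [h2, Int.natAbs_natCast]
      exact h1
  have hne : σ * A t * x' - s' * ε ≠ 0 := by
    intro h0
    have h1 : σ * A t ∣ s' * ε := ⟨x', by linarith⟩
    have h2 : σ * A t ∣ s' := hcop2.dvd_of_dvd_mul_right h1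
    have h3 := Int.le_of_dvd hs'0 ((dvd_abs _ _).mpr ((abs_dvd _ _).mpr h2))
    rw [abs_mul, abs_of_pos hAt0] at h3
    omega
  have hbig : (q:ℤ) ^ (K - (i0 + t)) ≤ |σ * A t * x' - s' * ε| :=
    Int.le_of_dvd (abs_pos.mpr hne) ((dvd_abs _ _).mpr hdet)
  have hb2 : (q:ℤ) ^ (K - (i0 + t)) ≤ (|σ| * A t) * |x'| + |s'| * |ε| := by
    refine hbig.trans ((abs_sub _ _).trans ?_)
    rw [abs_mul, abs_mul, abs_mul, abs_of_pos hAt0]
  -- T |ε| < q^(K-e) p^(a+1) S
  have hTε : (T:ℤ) * |ε| < (q:ℤ) ^ (K - (i0+t)) * (p ^ (a+1) * S) := by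
    -- |ε| G = |ξ|, A G = p^t, T |ξ| ≤ q^(K-i0) ≤ q^(K-e) q^t ≤ q^(K-e) p^t
    have hGz : (0:ℤ) < G t := by exact_mod_cast hG0 t
    have e1 : (p:ℤ) ^ t = G t * A t := by exact_mod_cast hA t
    have e2 : |ξ| = G t * |ε| := by rw [hε, abs_mul, abs_of_pos hGz]
    have h1 : (q:ℤ) ^ (K - i0) ≤ (q:ℤ) ^ (K - (i0+t)) * (p:ℤ) ^ t := by
      calc (q:ℤ) ^ (K - i0) ≤ (q:ℤ) ^ ((K - (i0+t)) + t) := pow_le_pow_right₀ (by omega) (by omega)
        _ = (q:ℤ) ^ (K - (i0+t)) * (q:ℤ) ^ t := pow_add _ _ _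
        _ ≤ (q:ℤ) ^ (K - (i0+t)) * (p:ℤ) ^ t := by
            have : (q:ℤ) ≤ p := by exact_mod_cast hpq.le
            gcongr
    have h2 : (T:ℤ) * (G t * |ε|) ≤ (q:ℤ) ^ (K - (i0+t)) * (G t * A t) := by
      rw [← e2, ← e1]; exact hTξ.trans h1
    have h3 : (G t : ℤ) * (T * |ε|) ≤ G t * ((q:ℤ) ^ (K - (i0+t)) * A t) := by linarith
    have h4 : (T:ℤ) * |ε| ≤ (q:ℤ) ^ (K - (i0+t)) * A t := le_of_mul_le_mul_left h3 hGz
    have hQ : (0:ℤ) < (q:ℤ) ^ (K - (i0+t)) := by positivity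
    have h5 : (A t : ℤ) < p ^ (a+1) * S := by
      refine lt_of_le_of_lt ?_ hupper
      nlinarith
    calc (T:ℤ) * |ε| ≤ (q:ℤ) ^ (K - (i0+t)) * A t := h4
      _ < _ := mul_lt_mul_of_pos_left h5 hQ
  -- conclusion
  set Q := (q:ℤ) ^ (K - (i0+t)) with hQdef
  have hQ : 0 < Q := by positivity
  set D := (p:ℤ) ^ (a+1) * S with hD
  have hS1' : (1:ℤ) ≤ S := by exact_mod_cast hS1
  have hD0 : 0 < D := by positivity
  have hTz : (T:ℤ) = 2 * D * S := by rw [hT, hD]; push_cast; ring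
  have hT0 : (0:ℤ) < T := by rw [hTz]; positivity
  have h1 : (T:ℤ) * Q ≤ T * ((|σ| * A t) * |x'|) + |s'| * (T * |ε|) := by
    have := mul_le_mul_of_nonneg_left hb2 hT0.le
    linarith
  have h2 : (T:ℤ) * ((|σ| * A t) * |x'|) ≤ D * (T * |x'|) := by
    have : (|σ| * A t) * (T * |x'|) ≤ D * (T * |x'|) :=
      mul_le_mul_of_nonneg_right hupper.le (by positivity)
    linarith
  have h3 : |s'| * (T * |ε|) ≤ S * (Q * D) := by
    have h0 : (0:ℤ) ≤ T * |ε| := by positivity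
    have hs' : |s'| ≤ S := hs'S.le
    nlinarith [mul_le_mul hs' hTε.le h0 (by positivity)]
  have h4 : D * (S * Q) ≤ D * (T * |x'|) := by
    have e : (T:ℤ) * Q = 2 * (D * (S * Q)) := by rw [hTz]; ring
    have e' : (S:ℤ) * (Q * D) = D * (S * Q) := by ring
    linarith
  have h5 : (S:ℤ) * Q ≤ T * |x'| := le_of_mul_le_mul_left h4 hD0
  -- strictness
  rcases lt_or_eq_of_le (show Q ≤ S * Q by nlinarith) with h6 | h6
  · exact lt_of_lt_of_le h6 h5
  · -- S = 1: impossible since 0 < |s'| < S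
    exfalso
    have : (S:ℤ) = 1 := by nlinarith
    omega

end Pool.Agent.H417_rb
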