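import Pool.Agent.H417_rb.Double

set_option autoImplicit false

/-!
# Points with several expansions in an interval
-/

namespace Pool.Agent.H417_rb

open Finset

section
variable {p q : ℕ}

lemma multi_mono {j k : ℕ} : Multi p q (j + 2) k ⊆ Multi p q 2 k := by
  rintro x ⟨u, hu, hd⟩
  refine ⟨fun i => u (Fin.castLE (by omega) i), fun i => hu _, fun i i' h => hd _ _ ?_⟩
  intro h'
  exact h (Fin.castLE_injective (by omega) h')

lemma finite_two (hq : 1 ≤ q) (hpq : q < p) (k : ℕ) (a b : ℝ) :
    (Multi p q 2 k ∩ Set.Icc a b).Finite := by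
  choose! n hn using fun (x : ℝ) (hx : x ∈ Multi p q (0 + 2) k) => exists_anchor hq hpq hx
  have hinj : Set.InjOn n (Multi p q 2 k ∩ Set.Icc a b) := by
    intro x hx y hy he
    have h1 := hn x hx.1
    have h2 := hn y hy.1
    rw [← he] at h2
    exact h1.inj hq hpq h2
  refine Set.Finite.of_finite_image ?_ hinj
  refine (Set.finite_Iic ⌊((p:ℝ)/q)^k * b⌋₊).subset ?_
  rintro _ ⟨x, hx, rfl⟩
  have h1 := (hn x hx.1).lo 0
  simp only [Function.iterate_zero, id_eq, add_zero] at h1
  have h2 : x ≤ b := hx.2.2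
  have h3 : ((p:ℝ)/q)^k * x ≤ ((p:ℝ)/q)^k * b := by gcongr
  exact Nat.le_floor (h1.trans h3)

lemma step_spec (hpq : q < p) :
    ((p:ℝ) - 1) / ((p:ℝ) - q) < (((p - 1) / (p - q) + 1 : ℕ) : ℝ) := by
  have hr : (0:ℝ) < (p:ℝ) - q := by
    have : (q:ℝ) < p := by exact_mod_cast hpq
    linarith
  rw [div_lt_iff₀ hr]
  have h1 : p - 1 < ((p - 1) / (p - q) + 1) * (p - q) := by
    have := Nat.lt_div_mul_add (a := p - 1) (b := p - q) (by omega)
    rw [add_mul, one_mul]; exact this
  have h2 : ((p - 1 : ℕ) : ℝ) < ((((p - 1) / (p - q) + 1) * (p - q) : ℕ) : ℝ) := by exact_mod_cast h1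
  rw [Nat.cast_mul, Nat.cast_sub hpq.le, Nat.cast_sub (by omega)] at h2
  simpa using h2

/-- Many points with two expansions between two anchored points. -/
lemma many_double (hq : 1 ≤ q) (hpq : q < p) {j k : ℕ} {a b x y : ℝ} {m n : ℕ}
    (hx : x ∈ Set.Icc a b) (hy : y ∈ Set.Icc a b)
    (hm : Anchor p q j k x m) (hn : Anchor p q j k y n) (hmn : m ≤ n) :
    (n - m) / ((p - 1) / (p - q) + 1) + 1 ≤ (Multi p q 2 k ∩ Set.Icc a b).ncard := by
  set s := (p - 1) / (p - q) + 1 with hs
  have hs1 : 1 ≤ s := by rw [hs]; exact Nat.le_add_left _ _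
  have hnode : ∀ n' ≤ n, (par p q)^[k] n' = 0 := by
    intro n' hn'
    obtain ⟨u, w, hu, hw, hle⟩ := hn.node
    have h1 := par_iter_node hu hw k
    have h2 := par_iter_mono (p := p) (q := q) (show n' ≤ w k by omega) k
    omega
  have hpt : ∀ i ∈ Finset.range ((n - m) / s + 1), ∃ z, z ∈ Multi p q 2 k ∧
      Anchor p q 0 k z (m + s * i) := by
    intro i hi
    have h1 : i ≤ (n - m) / s := by
      have := Finset.mem_range.mp hi
      omega
    have h2 : s * i ≤ n - m := by
      calc s * i ≤ s * ((n - m) / s) := Nat.mul_le_mul_left s h1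
        _ ≤ n - m := Nat.mul_div_le _ _
    have := hm.pos
    exact double_point hq hpq (by omega) (hnode _ (by omega))
  choose! z hz hza using hpt
  have hle : ∀ i ∈ Finset.range ((n - m) / s + 1), s * i ≤ n - m := by
    intro i hi
    have h1 : i ≤ (n - m) / s := by
      have := Finset.mem_range.mp hi
      omega
    calc s * i ≤ s * ((n - m) / s) := Nat.mul_le_mul_left s h1
        _ ≤ n - m := Nat.mul_div_le _ _
  have hinj : Set.InjOn z (Finset.range ((n - m) / s + 1) : Finset ℕ) := by
    have key : ∀ i ∈ Finset.range ((n - m) / s + 1), ∀ i' ∈ Finset.range ((n - m) / s + 1),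
        z i = z i' → ¬ i < i' := by
      intro i hi i' hi' he hlt
      have h1 := (hza i hi).up 0
      have h2 := (hza i' hi').lo 0
      rw [he] at h1
      simp only [Function.iterate_zero, id_eq, add_zero] at h1 h2
      have h3 := step_spec (q := q) hpq
      rw [← hs] at h3
      have h4 : m + s * i + s ≤ m + s * i' := by
        have : s * (i + 1) ≤ s * i' := Nat.mul_le_mul_left s hlt
        rw [mul_add, mul_one] at this
        omega
      have h5 : ((m + s * i : ℕ) : ℝ) + (s : ℝ) ≤ ((m + s * i' : ℕ) : ℝ) := by exact_mod_cast h4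
      linarith
    intro i hi i' hi' he
    have hi := Finset.mem_coe.mp hi
    have hi' := Finset.mem_coe.mp hi'
    rcases lt_trichotomy i i' with h | h | h
    · exact absurd h (key i hi i' hi' he)
    · exact h
    · exact absurd h (key i' hi' i hi he.symm)
  have hsub : z '' (Finset.range ((n - m) / s + 1) : Finset ℕ) ⊆ Multi p q 2 k ∩ Set.Icc a b := by
    rintro _ ⟨i, hi, rfl⟩
    have hi := Finset.mem_coe.mp hi
    have h1 := hle i hi
    refine ⟨hz i hi, ?_, ?_⟩
    · exact le_trans hx.1 (hm.le_of_le hq hpq (hza i hi) (by omega))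
    · exact le_trans ((hza i hi).le_of_le hq hpq hn (by omega)) hy.2
  have hcard := Set.ncard_le_ncard hsub (finite_two hq hpq k a b)
  rw [hinj.ncard_image, Set.ncard_coe_finset, Finset.card_range] at hcard
  exact hcard

end


end Pool.Agent.H417_rb
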