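import Pool.Agent.H417_rb.AuxPoly

set_option autoImplicit false

/-!
# Integer sequences close to `ξ (p/q)^i` with small digits
-/

namespace Pool.Agent.H417_rb

open Finset Real

/-- `q^(J-1) Q(p/q)` is a non-zero integer when `Q ≠ 0` has coefficients at most `2 < q`. -/
lemma int_ne_zero {p q : ℕ} (hq : 3 ≤ q) (hc : p.Coprime q) :
    ∀ (J : ℕ) (Q : ℕ → ℤ), (∀ j < J + 1, |Q j| ≤ 2) →
      ∑ j ∈ range (J + 1), Q j * (p:ℤ) ^ j * (q:ℤ) ^ (J - j) = 0 → ∀ j < J + 1, Q j = 0 := by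
  have hcop : IsCoprime (p:ℤ) (q:ℤ) := Nat.isCoprime_iff_coprime.mpr hc
  intro J
  induction J with
  | zero =>
    intro Q _ h j hj
    have hj0 : j = 0 := by omega
    subst hj0
    simpa using h
  | succ J ih =>
    intro Q hQ h
    rw [Finset.sum_range_succ] at h
    simp only [Nat.sub_self, pow_zero, mul_one] at h
    have h1 : ∑ j ∈ range (J + 1), Q j * (p:ℤ) ^ j * (q:ℤ) ^ (J + 1 - j) =
        q * ∑ j ∈ range (J + 1), Q j * (p:ℤ) ^ j * (q:ℤ) ^ (J - j) := by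
      rw [Finset.mul_sum]
      apply Finset.sum_congr rfl
      intro j hj
      have : J + 1 - j = (J - j) + 1 := by
        have := Finset.mem_range.mp hj
        omega
      rw [this, pow_succ]
      ring
    rw [h1] at h
    have h2 : (q:ℤ) ∣ Q (J+1) * (p:ℤ) ^ (J+1) := by
      refine ⟨- ∑ j ∈ range (J + 1), Q j * (p:ℤ) ^ j * (q:ℤ) ^ (J - j), ?_⟩
      linarith
    have h3 : (q:ℤ) ∣ Q (J+1) := (IsCoprime.dvd_of_dvd_mul_right (hcop.symm.pow_right) h2)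
    have h4 : Q (J+1) = 0 := by
      apply Int.eq_zero_of_abs_lt_dvd h3
      have := hQ (J+1) (by omega)
      have hq' : (3:ℤ) ≤ q := by exact_mod_cast hq
      omega
    rw [h4, zero_mul, add_zero] at h
    have hq0 : (q:ℤ) ≠ 0 := by
      have : q ≠ 0 := by omega
      exact_mod_cast this
    have h5 := (mul_eq_zero.mp h).resolve_left hq0
    have h6 := ih Q (fun j hj => hQ j (by omega)) h5
    intro j hj
    rcases Nat.lt_succ_iff_lt_or_eq.mp hj with h7 | h7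
    · exact h6 j h7
    · rw [h7]; exact h4

lemma value_lower {p q : ℕ} (hq : 3 ≤ q) (hc : p.Coprime q) {J : ℕ} (hJ : 1 ≤ J)
    (Q : Fin J → ℤ) (hQ0 : Q ≠ 0) (hQ : ∀ j, |Q j| ≤ 2) :
    1 ≤ (q:ℝ) ^ (J - 1) * |∑ j, (Q j : ℝ) * ((p:ℝ)/q) ^ (j:ℕ)| := by
  obtain ⟨J', rfl⟩ := Nat.exists_eq_add_of_le' hJ
  have hq0 : (0:ℝ) < q := by exact_mod_cast (by omega : 0 < q)
  let Q' : ℕ → ℤ := fun j => if h : j < J' + 1 then Q ⟨j, h⟩ else 0
  have hne : ∑ j ∈ range (J' + 1), Q' j * (p:ℤ) ^ j * (q:ℤ) ^ (J' - j) ≠ 0 := by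
    intro h
    apply hQ0
    have h1 := int_ne_zero hq hc J' Q' (by
      intro j hj
      simp only [Q', dif_pos hj]
      exact hQ _) h
    funext j
    have h2 := h1 j.1 j.2
    simp only [Q', dif_pos j.2] at h2
    simpa using h2
  have h1 : (1:ℝ) ≤ |((∑ j ∈ range (J' + 1), Q' j * (p:ℤ) ^ j * (q:ℤ) ^ (J' - j) : ℤ) : ℝ)| := by
    rw [← Int.cast_abs]
    exact_mod_cast Int.one_le_abs hne
  refine h1.trans (le_of_eq ?_)
  have h2 : ((∑ j ∈ range (J' + 1), Q' j * (p:ℤ) ^ j * (q:ℤ) ^ (J' - j) : ℤ) : ℝ) =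
      (q:ℝ) ^ (J' + 1 - 1) * ∑ j : Fin (J' + 1), (Q j : ℝ) * ((p:ℝ)/q) ^ (j:ℕ) := by
    rw [Finset.sum_range, Finset.mul_sum, Int.cast_sum]
    apply Finset.sum_congr rfl
    intro j _
    simp only [Q', dif_pos j.2]
    push_cast
    have hjj : (q:ℝ) ^ J' = (q:ℝ) ^ (J' - (j:ℕ)) * (q:ℝ) ^ (j:ℕ) := by
      rw [← pow_add]
      congr 1
      have := j.2
      omega
    rw [hjj, div_pow]
    field_simp
  rw [h2, abs_mul, abs_of_pos (by positivity : 0 < (q:ℝ) ^ (J' + 1 - 1))]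

theorem xi_lower {p q m J K : ℕ} (hq : 3 ≤ q) (hpq : q < p) (hp2 : p ≤ 2 * q) (hc : p.Coprime q)
    (hm1 : 1 ≤ m) (hm : m < p - q) (hJ : 1 ≤ J)
    {Δ c : ℕ → ℤ} {ξ : ℝ} (hrec : ∀ i, (q:ℤ) * Δ (i+1) = p * Δ i + c i)
    (hdig : ∀ i, |c i| ≤ m)
    (hξ : ∀ i, |ξ * ((p:ℝ)/q) ^ i - Δ i| ≤ (m:ℝ) / ((p:ℝ) - q)) (h0 : Δ 0 ≠ 0)
    {E : ℝ} (hE : E ≤ ((p:ℝ) - q) ^ 2 / (32 * J * (m:ℝ) ^ 2)) (hbig : 4 * ((K:ℝ) + 1) ≤ exp E)
    (hK : 2 * (J:ℝ) * m * (q:ℝ) ^ (J - 1) < ((p:ℝ)/q) ^ K) :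
    ((p:ℝ) - q) / (16 * q) * (3 * q / p) ^ J ≤ |ξ| := by
  have hq0 : (0:ℝ) < q := by exact_mod_cast (by omega : 0 < q)
  have hp0 : (0:ℝ) < p := by exact_mod_cast (by omega : 0 < p)
  have hm0 : (0:ℝ) < m := by exact_mod_cast hm1
  have hJ0 : (0:ℝ) < J := by exact_mod_cast hJ
  have hr : (0:ℝ) < (p:ℝ) - q := by
    have : (q:ℝ) < p := by exact_mod_cast hpq
    linarith
  have hmr : (m:ℝ) + 1 ≤ (p:ℝ) - q := by
    have : m + 1 ≤ p - q := hm
    have h2 : ((m + 1 : ℕ) : ℝ) ≤ ((p - q : ℕ) : ℝ) := by exact_mod_cast this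
    rw [Nat.cast_sub hpq.le] at h2
    push_cast at h2
    exact h2
  have hrq : (p:ℝ) - q ≤ p := by linarith
  set β := (p:ℝ)/q with hβ
  have hβ1 : 1 < β := by
    rw [hβ, lt_div_iff₀ hq0, one_mul]; exact_mod_cast hpq
  set θ := (m:ℝ) / ((p:ℝ) - q) with hθ
  have hθ0 : 0 < θ := by positivity
  have hθ1 : θ < 1 := by rw [hθ, div_lt_one hr]; linarith
  by_contra hcon
  push Not at hcon
  -- the auxiliary polynomial
  let a : ℕ → Fin J → ℝ := fun k j => if k < K then (c (k + j) : ℝ) / q else ξ * β ^ (j:ℕ) - Δ j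
  let A : ℕ → ℝ := fun k => if k < K then (m:ℝ) / q else θ
  let t : ℕ → ℝ := fun k => if k < K then 1/2 else 1/4
  have hA : ∀ k ≤ K, 0 < A k := by
    intro k _
    simp only [A]
    split_ifs <;> positivity
  have ht : ∀ k ≤ K, 0 < t k := by
    intro k _
    simp only [t]
    split_ifs <;> norm_num
  have ha : ∀ k ≤ K, ∀ j, |a k j| ≤ A k := by
    intro k _ j
    simp only [A, a]
    split_ifs with h
    · rw [abs_div, abs_of_pos hq0]
      have h1 := hdig (k + j)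
      have h2 : |(c (k + j) : ℝ)| ≤ m := by exact_mod_cast h1
      gcongr
    · exact hξ j
  have hE' : ∀ k ≤ K, E ≤ (t k) ^ 2 / (2 * J * (A k) ^ 2) := by
    intro k _
    refine hE.trans ?_
    simp only [t, A]
    split_ifs with h
    · have e1 : (1/2:ℝ) ^ 2 / (2 * J * ((m:ℝ) / q) ^ 2) = (2 * q) ^ 2 / (32 * J * (m:ℝ) ^ 2) := by
        field_simp
        ring
      rw [e1]
      have e2 : (p:ℝ) - q ≤ 2 * q := by
        have : (p:ℝ) ≤ 2 * q := by exact_mod_cast hp2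
        linarith
      gcongr
    · have e1 : (1/4:ℝ) ^ 2 / (2 * J * θ ^ 2) = ((p:ℝ) - q) ^ 2 / (32 * J * (m:ℝ) ^ 2) := by
        rw [hθ]
        field_simp
        ring
      rw [e1]
  obtain ⟨Q, hQ0, hQ2, hQa, hQβ⟩ := exists_poly hJ hβ1 a A t hA ht ha hE' hbig
  have hQdig : ∀ k < K, |∑ j, (Q j : ℝ) * (c (k + j) : ℝ)| < q := by
    intro k hk
    have h1 := hQa k hk.le
    simp only [a, t, if_pos hk] at h1
    have e1 : ∑ j, (Q j : ℝ) * ((c (k + j) : ℝ) / q) = (∑ j, (Q j : ℝ) * (c (k + j) : ℝ)) / q := by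
      rw [Finset.sum_div]
      apply Finset.sum_congr rfl
      intro j _
      ring
    rw [e1, abs_div, abs_of_pos hq0, div_lt_iff₀ hq0] at h1
    linarith
  have hQs : |∑ j, (Q j : ℝ) * (ξ * β ^ (j:ℕ) - Δ j)| < 1/2 := by
    have h1 := hQa K le_rfl
    simp only [a, t, lt_irrefl, if_false] at h1
    linarith
  -- the transformed sequence
  set u : ℕ → ℤ := fun i => ∑ j : Fin J, Q j * Δ (i + j) with hu
  have hurec : ∀ i, (q:ℤ) * u (i+1) = p * u i + ∑ j : Fin J, Q j * c (i + j) := by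
    intro i
    simp only [hu, Finset.mul_sum, ← Finset.sum_add_distrib]
    apply Finset.sum_congr rfl
    intro j _
    have h1 := hrec (i + j)
    have e1 : i + 1 + (j:ℕ) = i + j + 1 := by ring
    rw [e1]
    linear_combination (Q j) * h1
  set X := ∑ j, (Q j : ℝ) * β ^ (j:ℕ) with hX
  have hureal : ∀ i, (u i : ℝ) = X * (ξ * β ^ i) - ∑ j : Fin J, (Q j : ℝ) * (ξ * β ^ (i + j) - Δ (i + j)) := by
    intro i
    simp only [hu, hX]
    push_cast
    rw [Finset.sum_mul, ← Finset.sum_sub_distrib]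
    apply Finset.sum_congr rfl
    intro j _
    rw [pow_add]
    ring
  have hXξ : |X * ξ| < 1/2 := by
    rw [abs_mul]
    have h1 : 8 / (β - 1) * (β / 3) ^ J * (((p:ℝ) - q) / (16 * q) * (3 * q / p) ^ J) = 1/2 := by
      have e1 : β - 1 = ((p:ℝ) - q) / q := by rw [hβ]; field_simp
      have e2 : (β / 3) ^ J * (3 * q / p) ^ J = 1 := by
        rw [← mul_pow, hβ]
        have : (p:ℝ) / q / 3 * (3 * q / p) = 1 := by field_simp
        rw [this, one_pow]
      rw [e1]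
      calc 8 / (((p:ℝ) - q) / q) * (β / 3) ^ J * (((p:ℝ) - q) / (16 * q) * (3 * q / p) ^ J)
          = 8 / (((p:ℝ) - q) / q) * (((p:ℝ) - q) / (16 * q)) * ((β / 3) ^ J * (3 * q / p) ^ J) := by ring
        _ = 1/2 := by rw [e2]; field_simp; norm_num
    have h2 : 0 ≤ |ξ| := abs_nonneg _
    have h3 : 0 ≤ |X| := abs_nonneg _
    calc |X| * |ξ| ≤ |X| * (((p:ℝ) - q) / (16 * q) * (3 * q / p) ^ J) := by gcongr
      _ < 8 / (β - 1) * (β / 3) ^ J * (((p:ℝ) - q) / (16 * q) * (3 * q / p) ^ J) := by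
          apply mul_lt_mul_of_pos_right hQβ
          positivity
      _ = 1/2 := h1
  have hu0 : u 0 = 0 := by
    have h1 := hureal 0
    simp only [pow_zero, mul_one, zero_add] at h1
    have h2 : |(u 0 : ℝ)| < 1 := by
      rw [h1]
      rw [abs_lt] at hXξ hQs ⊢
      constructor <;> linarith
    have h3 : |u 0| < 1 := by exact_mod_cast h2
    exact Int.abs_lt_one_iff.mp h3
  have huK : ∀ i ≤ K, u i = 0 := by
    intro i
    induction i with
    | zero => intro _; exact hu0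
    | succ i ih =>
      intro hi
      have h1 := hurec i
      rw [ih (by omega), mul_zero, zero_add] at h1
      have h2 := hQdig i (by omega)
      have h3 : |(q:ℤ) * u (i+1)| < q := by
        rw [h1]
        have : ((|∑ j : Fin J, Q j * c (i + j)| : ℤ) : ℝ) < ((q : ℤ) : ℝ) := by
          push_cast
          exact h2
        exact_mod_cast this
      rw [abs_mul, abs_of_nonneg (by positivity : (0:ℤ) ≤ q)] at h3
      have h4 : |u (i+1)| < 1 := by
        by_contra h5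
        push Not at h5
        have hqz : (0:ℤ) < q := by exact_mod_cast (by omega : 0 < q)
        nlinarith
      exact Int.abs_lt_one_iff.mp h4
  -- contradiction at K
  have h1 := hureal K
  rw [huK K le_rfl] at h1
  have h2 : |X| * (|ξ| * β ^ K) ≤ 2 * J * θ := by
    have h3 : X * (ξ * β ^ K) = ∑ j : Fin J, (Q j : ℝ) * (ξ * β ^ (K + j) - Δ (K + j)) := by
      push_cast at h1
      linarith
    have h4 : |X| * (|ξ| * β ^ K) = |X * (ξ * β ^ K)| := by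
      rw [abs_mul, abs_mul, abs_of_pos (by positivity : 0 < β ^ K)]
    rw [h4, h3]
    calc |∑ j : Fin J, (Q j : ℝ) * (ξ * β ^ (K + j) - Δ (K + j))|
        ≤ ∑ j : Fin J, |(Q j : ℝ) * (ξ * β ^ (K + (j:ℕ)) - Δ (K + j))| := Finset.abs_sum_le_sum_abs _ _
      _ ≤ ∑ j : Fin J, 2 * θ := by
          apply Finset.sum_le_sum
          intro j _
          rw [abs_mul]
          have h5 : |(Q j : ℝ)| ≤ 2 := by exact_mod_cast hQ2 j
          have h6 := hξ (K + j)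
          gcongr
      _ = 2 * J * θ := by
          rw [Finset.sum_const, Finset.card_univ, Fintype.card_fin, nsmul_eq_mul]; ring
  have h3 := value_lower hq hc hJ Q hQ0 hQ2
  rw [← hβ, ← hX] at h3
  have h4 : 1 - θ ≤ |ξ| := by
    have h5 := hξ 0
    rw [pow_zero, mul_one] at h5
    have h6 : (1:ℝ) ≤ |(Δ 0 : ℝ)| := by
      rw [← Int.cast_abs]; exact_mod_cast Int.one_le_abs h0
    have h7 : |(Δ 0 : ℝ)| ≤ |ξ| + |ξ - Δ 0| := by
      calc |(Δ 0 : ℝ)| = |ξ - (ξ - Δ 0)| := by ring_nf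
        _ ≤ _ := abs_sub _ _
    linarith
  have h5 : 1 / ((p:ℝ) - q) ≤ 1 - θ := by
    rw [hθ, le_sub_iff_add_le, ← add_div, div_le_one hr]
    linarith
  have h6 : β ^ K ≤ 2 * (J:ℝ) * m * (q:ℝ) ^ (J - 1) := by
    have hqJ : 0 < (q:ℝ) ^ (J - 1) := by positivity
    have hβK : 0 < β ^ K := by positivity
    have h7 : 1 / ((p:ℝ) - q) * β ^ K ≤ |ξ| * β ^ K := by
      apply mul_le_mul_of_nonneg_right (h5.trans h4) hβK.le
    have h8 : |ξ| * β ^ K ≤ (q:ℝ) ^ (J - 1) * (2 * J * θ) := by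
      calc |ξ| * β ^ K = 1 * (|ξ| * β ^ K) := by ring
        _ ≤ ((q:ℝ) ^ (J - 1) * |X|) * (|ξ| * β ^ K) := by
            apply mul_le_mul_of_nonneg_right h3
            positivity
        _ = (q:ℝ) ^ (J - 1) * (|X| * (|ξ| * β ^ K)) := by ring
        _ ≤ (q:ℝ) ^ (J - 1) * (2 * J * θ) := by gcongr
    have h9 := h7.trans h8
    rw [one_div, inv_mul_le_iff₀ hr, hθ] at h9
    have e1 : ((p:ℝ) - q) * ((q:ℝ) ^ (J - 1) * (2 * J * ((m:ℝ) / ((p:ℝ) - q)))) =
        2 * (J:ℝ) * m * (q:ℝ) ^ (J - 1) := by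
      field_simp
    rw [e1] at h9
    exact h9
  linarith

end Pool.Agent.H417_rb
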