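import Pool.Agent.H417_rb.AuxPolyTwo
import Pool.Agent.H417_rb.Repel

set_option autoImplicit false

/-!
# Integer sequences close to `ξ (p/q)^i` with small digits, II
-/

namespace Pool.Agent.H417_rb

open Finset Real

theorem xi_window {p q m J K : ℕ} (hq : 3 ≤ q) (hpq : q < p) (hc : p.Coprime q)
    (hm1 : 1 ≤ m) (hJ : 1 ≤ J)
    {Δ c : ℕ → ℤ} {ξ : ℝ} (hrec : ∀ i, (q:ℤ) * Δ (i+1) = p * Δ i + c i)
    (hdig : ∀ i, |c i| ≤ m)
    (hξ : ∀ i, |ξ * ((p:ℝ)/q) ^ i - Δ i| ≤ (m:ℝ) / ((p:ℝ) - q))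
    (hSJ : 4 * (4 * J * ((m:ℝ) / ((p:ℝ) - q)) + 1) < 3 ^ J)
    {E : ℝ} (hE : E ≤ (q:ℝ) ^ 2 / (8 * J * (m:ℝ) ^ 2)) (hbig : 4 * (K:ℝ) ≤ exp E)
    {Y : ℝ} (hY : Y = ((p:ℝ) - q) / (16 * q * (4 * J * ((m:ℝ) / ((p:ℝ) - q)) + 1)) * (3 * q / p) ^ J)
    (hK : 2 * (J:ℝ) * ((m:ℝ) / ((p:ℝ) - q)) * (q:ℝ) ^ (J - 1) * ((p:ℝ)/q) < Y * ((p:ℝ)/q) ^ K)
    (hlow : Y / ((p:ℝ)/q) ≤ |ξ|) (hup : |ξ| ≤ Y) : False := by
  have hq0 : (0:ℝ) < q := by exact_mod_cast (by omega : 0 < q)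
  have hp0 : (0:ℝ) < p := by exact_mod_cast (by omega : 0 < p)
  have hm0 : (0:ℝ) < m := by exact_mod_cast hm1
  have hJ0 : (0:ℝ) < J := by exact_mod_cast hJ
  have hr : (0:ℝ) < (p:ℝ) - q := by
    have : (q:ℝ) < p := by exact_mod_cast hpq
    linarith
  set β := (p:ℝ)/q with hβ
  have hβ1 : 1 < β := by
    rw [hβ, lt_div_iff₀ hq0, one_mul]; exact_mod_cast hpq
  set θ := (m:ℝ) / ((p:ℝ) - q) with hθ
  have hθ0 : 0 < θ := by positivity
  have hY0 : 0 < Y := by rw [hY]; positivity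
  -- the auxiliary polynomial
  let a : ℕ → Fin J → ℝ := fun k j => (c (k + j) : ℝ) / q
  have ha : ∀ k < K, ∀ j, |a k j| ≤ (m:ℝ) / q := by
    intro k _ j
    simp only [a]
    rw [abs_div, abs_of_pos hq0]
    have h1 := hdig (k + j)
    have h2 : |(c (k + j) : ℝ)| ≤ m := by exact_mod_cast h1
    gcongr
  have hE' : E ≤ (1/2:ℝ) ^ 2 / (2 * J * ((m:ℝ)/q) ^ 2) := by
    refine hE.trans (le_of_eq ?_)
    field_simp
    norm_num
  obtain ⟨Q, hQ0, hQ2, hQa, hQs, hQβ⟩ := exists_poly_two hJ hβ1 a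
    (by positivity : 0 < (m:ℝ)/q) (by norm_num : (0:ℝ) < 1/2) ha hE' hbig
    (fun j => ξ * β ^ (j:ℕ) - Δ j) hθ0.le (fun j => hξ j) hSJ
  have hQdig : ∀ k < K, |∑ j, (Q j : ℝ) * (c (k + j) : ℝ)| < q := by
    intro k hk
    have h1 := hQa k hk
    simp only [a] at h1
    have e1 : ∑ j, (Q j : ℝ) * ((c (k + j) : ℝ) / q) = (∑ j, (Q j : ℝ) * (c (k + j) : ℝ)) / q := by
      rw [Finset.sum_div]
      apply Finset.sum_congr rfl
      intro j _
      ring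
    rw [e1, abs_div, abs_of_pos hq0, div_lt_iff₀ hq0] at h1
    linarith
  -- the transformed sequence
  set u : ℕ → ℤ := fun i => ∑ j : Fin J, Q j * Δ (i + j) with hu
  have hurec : ∀ i, (q:ℤ) * u (i+1) = p * u i + ∑ j : Fin J, Q j * c (i + j) := by
    intro i
    simp only [hu, Finset.mul_sum, ← Finset.sum_add_distrib]
    apply Finset.sum_congr rfl
    intro j _
    have h1 := hrec (i + j)
    have e1 : i + 1 + (j:ℕ) = i + j + 1 := by ring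
    rw [e1]
    linear_combination (Q j) * h1
  set X := ∑ j, (Q j : ℝ) * β ^ (j:ℕ) with hX
  have hureal : ∀ i, (u i : ℝ) = X * (ξ * β ^ i) - ∑ j : Fin J, (Q j : ℝ) * (ξ * β ^ (i + j) - Δ (i + j)) := by
    intro i
    simp only [hu, hX]
    push_cast
    rw [Finset.sum_mul, ← Finset.sum_sub_distrib]
    apply Finset.sum_congr rfl
    intro j _
    rw [pow_add]
    ring
  have hXξ : |X * ξ| < 1/2 := by
    rw [abs_mul]
    have h1 : 8 * (4 * J * θ + 1) / (β - 1) * (β / 3) ^ J * Y = 1/2 := by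
      have e1 : β - 1 = ((p:ℝ) - q) / q := by rw [hβ]; field_simp
      have e2 : (β / 3) ^ J * (3 * q / p) ^ J = 1 := by
        rw [← mul_pow, hβ]
        have : (p:ℝ) / q / 3 * (3 * q / p) = 1 := by field_simp
        rw [this, one_pow]
      rw [e1, hY]
      have hθB : 0 < 4 * (J:ℝ) * θ + 1 := by positivity
      calc 8 * (4 * J * θ + 1) / (((p:ℝ) - q) / q) * (β / 3) ^ J * (((p:ℝ) - q) / (16 * q * (4 * J * θ + 1)) * (3 * q / p) ^ J)
          = 8 * (4 * J * θ + 1) / (((p:ℝ) - q) / q) * (((p:ℝ) - q) / (16 * q * (4 * J * θ + 1))) * ((β / 3) ^ J * (3 * q / p) ^ J) := by ring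
        _ = 1/2 := by rw [e2]; field_simp; norm_num
    have h2 : 0 ≤ |ξ| := abs_nonneg _
    have h3 : 0 ≤ |X| := abs_nonneg _
    calc |X| * |ξ| ≤ |X| * Y := by gcongr
      _ < 8 * (4 * J * θ + 1) / (β - 1) * (β / 3) ^ J * Y := by
          apply mul_lt_mul_of_pos_right hQβ hY0
      _ = 1/2 := h1
  have hu0 : u 0 = 0 := by
    have h1 := hureal 0
    simp only [pow_zero, mul_one, zero_add] at h1
    have h2 : |(u 0 : ℝ)| < 1 := by
      rw [h1]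
      rw [abs_lt] at hXξ hQs ⊢
      constructor <;> linarith
    have h3 : |u 0| < 1 := by exact_mod_cast h2
    exact Int.abs_lt_one_iff.mp h3
  have huK : ∀ i ≤ K, u i = 0 := by
    intro i
    induction i with
    | zero => intro _; exact hu0
    | succ i ih =>
      intro hi
      have h1 := hurec i
      rw [ih (by omega), mul_zero, zero_add] at h1
      have h2 := hQdig i (by omega)
      have h3 : |(q:ℤ) * u (i+1)| < q := by
        rw [h1]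
        have : ((|∑ j : Fin J, Q j * c (i + j)| : ℤ) : ℝ) < ((q : ℤ) : ℝ) := by
          push_cast
          exact h2
        exact_mod_cast this
      rw [abs_mul, abs_of_nonneg (by positivity : (0:ℤ) ≤ q)] at h3
      have h4 : |u (i+1)| < 1 := by
        by_contra h5
        push Not at h5
        have hqz : (0:ℤ) < q := by exact_mod_cast (by omega : 0 < q)
        nlinarith
      exact Int.abs_lt_one_iff.mp h4
  -- contradiction at K
  have h1 := hureal K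
  rw [huK K le_rfl] at h1
  have h2 : |X| * (|ξ| * β ^ K) ≤ 2 * J * θ := by
    have h3 : X * (ξ * β ^ K) = ∑ j : Fin J, (Q j : ℝ) * (ξ * β ^ (K + j) - Δ (K + j)) := by
      push_cast at h1
      linarith
    have h4 : |X| * (|ξ| * β ^ K) = |X * (ξ * β ^ K)| := by
      rw [abs_mul, abs_mul, abs_of_pos (by positivity : 0 < β ^ K)]
    rw [h4, h3]
    calc |∑ j : Fin J, (Q j : ℝ) * (ξ * β ^ (K + j) - Δ (K + j))|
        ≤ ∑ j : Fin J, |(Q j : ℝ) * (ξ * β ^ (K + (j:ℕ)) - Δ (K + j))| := Finset.abs_sum_le_sum_abs _ _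
      _ ≤ ∑ j : Fin J, 2 * θ := by
          apply Finset.sum_le_sum
          intro j _
          rw [abs_mul]
          have h5 : |(Q j : ℝ)| ≤ 2 := by exact_mod_cast hQ2 j
          have h6 := hξ (K + j)
          gcongr
      _ = 2 * J * θ := by
          rw [Finset.sum_const, Finset.card_univ, Fintype.card_fin, nsmul_eq_mul]; ring
  have h3 := value_lower hq hc hJ Q hQ0 hQ2
  rw [← hβ, ← hX] at h3
  have hqJ : 0 < (q:ℝ) ^ (J - 1) := by positivity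
  have hβK : 0 < β ^ K := by positivity
  have h8 : |ξ| * β ^ K ≤ (q:ℝ) ^ (J - 1) * (2 * J * θ) := by
    calc |ξ| * β ^ K = 1 * (|ξ| * β ^ K) := by ring
      _ ≤ ((q:ℝ) ^ (J - 1) * |X|) * (|ξ| * β ^ K) := by
          apply mul_le_mul_of_nonneg_right h3
          positivity
      _ = (q:ℝ) ^ (J - 1) * (|X| * (|ξ| * β ^ K)) := by ring
      _ ≤ (q:ℝ) ^ (J - 1) * (2 * J * θ) := by gcongr
  have h9 : Y * β ^ K ≤ |ξ| * β ^ K * β := by
    have h10 : Y ≤ |ξ| * β := by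
      rw [div_le_iff₀ (by positivity)] at hlow
      exact hlow
    calc Y * β ^ K ≤ (|ξ| * β) * β ^ K := by gcongr
      _ = _ := by ring
  have h11 : |ξ| * β ^ K * β ≤ (q:ℝ) ^ (J - 1) * (2 * J * θ) * β := by gcongr
  linarith

/-- Every nonzero `ξ` as above has absolute value at least `Y`. -/
theorem xi_ge {p q m J K : ℕ} (hq : 3 ≤ q) (hpq : q < p) (hc : p.Coprime q)
    (hm1 : 1 ≤ m) (hJ : 1 ≤ J)
    {Δ c : ℕ → ℤ} {ξ : ℝ} (hξ0 : ξ ≠ 0) (hrec : ∀ i, (q:ℤ) * Δ (i+1) = p * Δ i + c i)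
    (hdig : ∀ i, |c i| ≤ m)
    (hξ : ∀ i, |ξ * ((p:ℝ)/q) ^ i - Δ i| ≤ (m:ℝ) / ((p:ℝ) - q))
    (hSJ : 4 * (4 * J * ((m:ℝ) / ((p:ℝ) - q)) + 1) < 3 ^ J)
    {E : ℝ} (hE : E ≤ (q:ℝ) ^ 2 / (8 * J * (m:ℝ) ^ 2)) (hbig : 4 * (K:ℝ) ≤ exp E)
    {Y : ℝ} (hY : Y = ((p:ℝ) - q) / (16 * q * (4 * J * ((m:ℝ) / ((p:ℝ) - q)) + 1)) * (3 * q / p) ^ J)
    (hK : 2 * (J:ℝ) * ((m:ℝ) / ((p:ℝ) - q)) * (q:ℝ) ^ (J - 1) * ((p:ℝ)/q) < Y * ((p:ℝ)/q) ^ K) :
    Y ≤ |ξ| := by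
  by_contra hcon
  push Not at hcon
  have hq0 : (0:ℝ) < q := by exact_mod_cast (by omega : 0 < q)
  have hβ1 : 1 < (p:ℝ)/q := by
    rw [lt_div_iff₀ hq0, one_mul]; exact_mod_cast hpq
  have hβ0 : 0 < (p:ℝ)/q := by linarith
  have hx0 : 0 < |ξ| := abs_pos.mpr hξ0
  obtain ⟨n, hn1, hn2⟩ := exists_nat_pow_near (x := Y / |ξ|) (y := (p:ℝ)/q)
    (by rw [le_div_iff₀ hx0]; linarith) hβ1
  rw [le_div_iff₀ hx0] at hn1
  rw [div_lt_iff₀ hx0] at hn2
  have habs : |ξ * ((p:ℝ)/q) ^ n| = |ξ| * ((p:ℝ)/q) ^ n := by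
    rw [abs_mul, abs_of_pos (by positivity : 0 < ((p:ℝ)/q) ^ n)]
  refine xi_window (Δ := fun i => Δ (n + i)) (c := fun i => c (n + i)) (ξ := ξ * ((p:ℝ)/q) ^ n)
    hq hpq hc hm1 hJ (fun i => hrec (n + i)) (fun i => hdig (n + i)) ?_ hSJ hE hbig hY hK ?_ ?_
  · intro i
    have h1 := hξ (n + i)
    rw [pow_add] at h1
    rw [mul_assoc]
    exact h1
  · rw [habs, div_le_iff₀ hβ0]
    rw [pow_succ] at hn2
    nlinarith
  · rw [habs]; linarith

end Pool.Agent.H417_rb
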