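import Pool.Agent.H417_rb.ExpSum

set_option autoImplicit false

/-!
# A power saving for orbits with restricted digits
-/

namespace Pool.Agent.H417_rb

open Finset Filter Topology

lemma exists_centered (a : ℤ) {m : ℤ} (hm : 0 < m) : ∃ x : ℤ, 2 * |x| ≤ m ∧ m ∣ a - x := by
  have h0 := Int.emod_nonneg a hm.ne'
  have h1 := Int.emod_lt_of_pos a hm
  have h2 := Int.emod_add_mul_ediv a m
  rcases le_or_gt (2 * (a % m)) m with h | h
  · refine ⟨a % m, ?_, ⟨a / m, by linarith⟩⟩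
    rw [abs_of_nonneg h0]; exact h
  · refine ⟨a % m - m, ?_, ⟨a / m + 1, by linarith⟩⟩
    rw [abs_of_neg (by linarith)]; linarith

lemma exists_inv {p q : ℕ} (hc : p.Coprime q) (K : ℕ) (hq : 1 ≤ q) :
    ∃ P : ℕ, (q:ℤ) ^ K ∣ (P:ℤ) * p ^ K - 1 := by
  have hcop : Nat.Coprime (p ^ K) (q ^ K) := Nat.Coprime.pow K K hc
  obtain ⟨P, hP⟩ := Nat.exists_mul_mod_eq_of_coprime (n := p ^ K) (k := q ^ K) 1 hcop
    (by positivity : (q^K) ≠ 0)
  refine ⟨P, ?_⟩
  have h1 : (p ^ K * P : ℕ) ≡ 1 [MOD q ^ K] := hP.2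
  have h2 := (Nat.modEq_iff_dvd.mp h1.symm)
  push_cast at h2
  rw [mul_comm (P:ℤ)]
  exact h2

lemma exists_reps {p q K : ℕ} (hq : 1 ≤ q) {P : ℕ} (hP : (q:ℤ) ^ K ∣ (P:ℤ) * p ^ K - 1) :
    ∃ X : ℕ → ℤ → ℤ, Reps p q K X := by
  have h : ∀ (i : ℕ) (s : ℤ), ∃ x : ℤ, 2 * |x| ≤ (q:ℤ) ^ (K - i) ∧
      (q:ℤ) ^ (K - i) ∣ s * P * p ^ (K - 1 - i) - x := by
    intro i s
    exact exists_centered _ (by positivity)
  choose X hX1 hX2 using h
  refine ⟨X, fun i hi s => ⟨hX1 i s, ?_⟩⟩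
  unfold Lat
  have e1 : (p:ℤ) ^ (i+1) * X i s - s = s * ((P:ℤ) * p ^ K - 1) -
      (p:ℤ) ^ (i+1) * (s * P * p ^ (K - 1 - i) - X i s) := by
    have e2 : (p:ℤ) ^ K = p ^ (i+1) * p ^ (K - 1 - i) := by
      rw [← pow_add]; congr 1; omega
    rw [e2]; ring
  rw [e1]
  exact dvd_sub (((pow_dvd_pow _ (by omega)).trans hP).mul_left _) ((hX2 i s).mul_left _)

section
variable {p q K : ℕ} {X : ℕ → ℤ → ℤ}

open Classical in
lemma prod_le (hq : 1 ≤ q) (hpq : q < p) (hX : Reps p q K X) {B : ℝ} (hB : 2 ≤ B) (s : ℤ) :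
    ∏ i ∈ Finset.range K, (B - 4 * ((X i s : ℝ) / q ^ (K - i)) ^ 2) ≤
      B ^ K * (1 - 4 / (B * (p + q) ^ 2)) ^
        ((Finset.Ico 0 K).filter (fun i => GoodIdx p q K X i s)).card := by
  have hq0 : (0:ℝ) < q := by exact_mod_cast hq
  have hp0 : (0:ℝ) < p := by exact_mod_cast (by omega : 0 < p)
  have hB0 : 0 < B := by linarith
  set ρ : ℝ := 1 - 4 / (B * (p + q) ^ 2) with hρ
  have h1 : ∏ i ∈ Finset.range K, (B - 4 * ((X i s : ℝ) / q ^ (K - i)) ^ 2) ≤
      ∏ i ∈ Finset.range K, (B * if GoodIdx p q K X i s then ρ else 1) := by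
    apply Finset.prod_le_prod
    · intro i hi
      have hi := Finset.mem_range.mp hi
      have h2 := (hX i hi s).1
      have h3 : 2 * |(X i s : ℝ)| ≤ (q:ℝ) ^ (K - i) := by exact_mod_cast h2
      have h4 : ((X i s : ℝ) / q ^ (K - i)) ^ 2 ≤ 1/4 := by
        rw [div_pow, div_le_iff₀ (by positivity), ← sq_abs (X i s : ℝ)]
        have h5 : (2 * |(X i s : ℝ)|) ^ 2 ≤ ((q:ℝ) ^ (K - i)) ^ 2 := by gcongr
        nlinarith
      linarith
    · intro i _
      split_ifs with hg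
      · unfold GoodIdx at hg
        have h3 : (q:ℝ) ^ (K - i) ≤ (p + q) * |(X i s : ℝ)| := by exact_mod_cast hg
        have h4 : 1 / ((p:ℝ) + q) ^ 2 ≤ ((X i s : ℝ) / q ^ (K - i)) ^ 2 := by
          rw [div_pow, ← sq_abs (X i s : ℝ), div_le_div_iff₀ (by positivity) (by positivity), one_mul]
          have h5 : ((q:ℝ) ^ (K - i)) ^ 2 ≤ ((p + q) * |(X i s : ℝ)|) ^ 2 := by gcongr
          calc ((q:ℝ) ^ (K - i)) ^ 2 ≤ ((p + q) * |(X i s : ℝ)|) ^ 2 := h5
            _ = _ := by ring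
        have h6 : B * ρ = B - 4 * (1 / ((p:ℝ) + q) ^ 2) := by
          rw [hρ]; field_simp
        rw [h6]
        linarith
      · rw [mul_one]
        have := sq_nonneg ((X i s : ℝ) / q ^ (K - i))
        linarith
  refine h1.trans (le_of_eq ?_)
  rw [Finset.prod_mul_distrib, Finset.prod_const, Finset.card_range, Finset.prod_ite,
    Finset.prod_const, Finset.prod_const_one, mul_one, Finset.range_eq_Ico]

open Classical in
/-- the main bound -/
theorem core_bound (hq : 2 ≤ q) (hpq : q < p) (hc : p.Coprime q)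
    {D : Finset ℕ} {b0 b1 : ℕ} (hb0 : b0 ∈ D) (hb1 : b1 ∈ D) (h01 : b0 < b1) (hb1q : b1 < q)
    {S T w a c Z r R H h : ℕ} (hR : 1 ≤ R) (hS : S = q * R) (hSa : S ≤ 2 ^ a)
    (hT : T = 2 * p ^ (a + 1) * S ^ 2) (hTw : T * q ^ w ≤ p ^ w) (hc1 : 1 ≤ c)
    (hcq : q ^ c ≤ p ^ (c - 1)) (hZ : w + 2 + 2 * a ≤ Z) (hK : (2 * c) ^ h * Z ≤ K)
    (hRH : 8 * R * H ≤ q ^ K) (N : Finset ℕ) (hN : ∀ m ∈ N, ∀ n ∈ N, n < m + H)
    (hdig : ∀ n ∈ N, ∀ i < K, dig p q ((g p q)^[i] n) ∈ D) :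
    (N.card : ℝ) * R ≤ 2 * (D.card : ℝ) ^ K * (h * (E0 w (2 * r) (p + q) : ℝ) +
      R * (1 - 4 / ((D.card : ℝ) * (p + q) ^ 2)) ^ (r * h)) := by
  obtain ⟨P, hP⟩ := exists_inv hc K (by omega : 1 ≤ q)
  obtain ⟨X, hX⟩ := exists_reps (by omega : 1 ≤ q) hP
  have hD2 : 2 ≤ D.card := by
    have hpair : {b0, b1} ⊆ D := by
      intro b hb
      simp only [Finset.mem_insert, Finset.mem_singleton] at hb
      rcases hb with rfl | rfl <;> assumption
    have := Finset.card_le_card hpair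
    rwa [Finset.card_pair h01.ne] at this
  set B : ℝ := (D.card : ℝ) with hB
  have hB2 : (2:ℝ) ≤ B := by rw [hB]; exact_mod_cast hD2
  have hp2 : (3:ℝ) ≤ p := by exact_mod_cast (by omega : 3 ≤ p)
  have hq2 : (2:ℝ) ≤ q := by exact_mod_cast hq
  set ρ : ℝ := 1 - 4 / (B * (p + q) ^ 2) with hρ
  have hρ0 : 0 ≤ ρ := by
    rw [hρ, sub_nonneg, div_le_one (by positivity)]
    nlinarith
  have hρ1 : ρ ≤ 1 := by
    rw [hρ]
    have : 0 ≤ 4 / (B * ((p:ℝ) + q) ^ 2) := by positivity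
    linarith
  set Δ := b1 - b0 with hΔ
  have hΔ0 : 0 < Δ := by omega
  have hΔq : Δ < q := by omega
  set Gd : ℤ → ℕ := fun s => ((Finset.Ico 0 K).filter (fun i => GoodIdx p q K X i s)).card with hGd
  have h1 := card_mul_sq_le hq hP hX hb0 hb1 h01 hR hRH N hN hdig
  have hR0 : (0:ℝ) < R := by exact_mod_cast hR
  -- for fixed j
  have hj : ∀ j ∈ Finset.range R, ∑ j' ∈ Finset.range R,
      ρ ^ (Gd (Δ * ((j:ℤ) - (j':ℤ)))) ≤ h * (E0 w (2 * r) (p + q) : ℝ) + R * ρ ^ (r * h) := by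
    intro j _
    set f : ℕ → ℤ := fun j' => (Δ:ℤ) * ((j:ℤ) - (j':ℤ)) with hf
    have hfinj : Function.Injective f := by
      intro x y hxy
      simp only [hf] at hxy
      have h2 := mul_left_cancel₀ (by exact_mod_cast hΔ0.ne' : (Δ:ℤ) ≠ 0) hxy
      omega
    have hexc := exc_count (g := r) hq hpq hc hX (by rw [hS]; exact Nat.mul_pos (by omega) hR : 1 ≤ S) hSa hT hTw hc1 hcq hZ h 0
      (by simpa using hK) ((Finset.range R).image f) (by
        intro s hs s' hs'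
        simp only [Finset.mem_image, Finset.mem_range] at hs hs'
        obtain ⟨x, hx, rfl⟩ := hs
        obtain ⟨y, hy, rfl⟩ := hs'
        simp only [hf]
        have e1 : (Δ:ℤ) * ((j:ℤ) - x) - Δ * ((j:ℤ) - y) = Δ * ((y:ℤ) - x) := by ring
        rw [e1, abs_mul, Nat.abs_cast, hS]
        have h2 : |(y:ℤ) - x| < R := by rw [abs_lt]; constructor <;> omega
        have h3 : (0:ℤ) ≤ |(y:ℤ) - x| := abs_nonneg _
        push_cast
        have h4 : (Δ:ℤ) < q := by exact_mod_cast hΔq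
        have h5 : (0:ℤ) < Δ := by exact_mod_cast hΔ0
        calc (Δ:ℤ) * |(y:ℤ) - x| < Δ * R := mul_lt_mul_of_pos_left h2 h5
          _ ≤ q * R := by
            apply mul_le_mul_of_nonneg_right h4.le
            positivity)
    have hexc2 : ((Finset.range R).filter (fun j' => Gd (f j') < r * h)).card ≤ h * E0 w (2 * r) (p + q) := by
      refine le_trans ?_ hexc
      apply Finset.card_le_card_of_injOn f
      · intro x hx
        simp only [Finset.coe_filter, Finset.mem_range, Set.mem_ofPred_eq, Finset.mem_image] at hx ⊢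
        exact ⟨⟨x, hx.1, rfl⟩, hx.2⟩
      · exact hfinj.injOn
    rw [← Finset.sum_filter_add_sum_filter_not (Finset.range R) (fun j' => Gd (f j') < r * h)]
    have s1 : ∑ j' ∈ (Finset.range R).filter (fun j' => Gd (f j') < r * h), ρ ^ (Gd (f j')) ≤
        h * (E0 w (2 * r) (p + q) : ℝ) := by
      calc _ ≤ ∑ _j' ∈ (Finset.range R).filter (fun j' => Gd (f j') < r * h), (1:ℝ) := by
            apply Finset.sum_le_sum
            intro x _
            exact pow_le_one₀ hρ0 hρ1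
        _ = (((Finset.range R).filter (fun j' => Gd (f j') < r * h)).card : ℝ) := by simp
        _ ≤ ((h * E0 w (2 * r) (p + q) : ℕ) : ℝ) := by exact_mod_cast hexc2
        _ = _ := by push_cast; ring
    have s2 : ∑ j' ∈ (Finset.range R).filter (fun j' => ¬ Gd (f j') < r * h), ρ ^ (Gd (f j')) ≤
        R * ρ ^ (r * h) := by
      calc _ ≤ ∑ _j' ∈ (Finset.range R).filter (fun j' => ¬ Gd (f j') < r * h), ρ ^ (r * h) := by
            apply Finset.sum_le_sum
            intro x hx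
            have hx := (Finset.mem_filter.mp hx).2
            push Not at hx
            exact pow_le_pow_of_le_one hρ0 hρ1 hx
        _ = (((Finset.range R).filter (fun j' => ¬ Gd (f j') < r * h)).card : ℝ) * ρ ^ (r * h) := by
            rw [Finset.sum_const, nsmul_eq_mul]
        _ ≤ R * ρ ^ (r * h) := by
            have h2 : ((Finset.range R).filter (fun j' => ¬ Gd (f j') < r * h)).card ≤ R := by
              have := Finset.card_filter_le (Finset.range R) (fun j' => ¬ Gd (f j') < r * h)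
              rwa [Finset.card_range] at this
            have h3 : (((Finset.range R).filter (fun j' => ¬ Gd (f j') < r * h)).card : ℝ) ≤ R := by
              exact_mod_cast h2
            have h4 : 0 ≤ ρ ^ (r * h) := pow_nonneg hρ0 _
            gcongr
    exact add_le_add s1 s2
  have h2 : (N.card : ℝ) * R ^ 2 ≤ (2 * B ^ K * (h * (E0 w (2 * r) (p + q) : ℝ) + R * ρ ^ (r * h))) * R := by
    calc (N.card : ℝ) * R ^ 2 ≤ 2 * ∑ j ∈ Finset.range R, ∑ j' ∈ Finset.range R,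
          ∏ i ∈ Finset.range K, (B - 4 * ((X i ((Δ:ℕ) * ((j:ℤ) - (j':ℤ))) : ℝ) / q ^ (K - i)) ^ 2) := h1
      _ ≤ 2 * ∑ j ∈ Finset.range R, ∑ j' ∈ Finset.range R,
          B ^ K * ρ ^ (Gd (Δ * ((j:ℤ) - (j':ℤ)))) := by
          apply mul_le_mul_of_nonneg_left _ (by norm_num)
          apply Finset.sum_le_sum
          intro j _
          apply Finset.sum_le_sum
          intro j' _
          exact prod_le (by omega) hpq hX hB2 _
      _ = 2 * ∑ j ∈ Finset.range R, B ^ K * ∑ j' ∈ Finset.range R,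
          ρ ^ (Gd (Δ * ((j:ℤ) - (j':ℤ)))) := by
          congr 1
          apply Finset.sum_congr rfl
          intro j _
          rw [Finset.mul_sum]
      _ ≤ 2 * ∑ _j ∈ Finset.range R, B ^ K * (h * (E0 w (2 * r) (p + q) : ℝ) + R * ρ ^ (r * h)) := by
          apply mul_le_mul_of_nonneg_left _ (by norm_num)
          apply Finset.sum_le_sum
          intro j hjR
          exact mul_le_mul_of_nonneg_left (hj j hjR) (by positivity)
      _ = _ := by
          rw [Finset.sum_const, Finset.card_range, nsmul_eq_mul]; ring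
  have h3 : ((N.card : ℝ) * R) * R ≤ (2 * B ^ K * (h * (E0 w (2 * r) (p + q) : ℝ) + R * ρ ^ (r * h))) * R := by
    linarith [h2]
  exact le_of_mul_le_mul_right h3 hR0

end

end Pool.Agent.H417_rb
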